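import Pool.Agent.MP_8a92de_lc.U43.Stmts

section Row_basic
namespace Pool.Agent.MP_8a92de_lc.U43

namespace Rbasic

theorem inp (t : ℝ → Prop) (w n : ℕ) (z : ℕ → ℝ) (i : ℕ) (hi : i < 3) :
    run t [] (fun p : ℕ × ℕ => if p.2 < 3 then 1 else w) (fun p : ℕ × ℕ => if p.2 < 3 then p.2 else 0)
      (fun _ => 1) (fun _ => 2) n z 3 i = z i := by
  rw [run_eq, if_pos hi, gate_eq]
  simp only [if_pos hi]
  simp

open Classical in
theorem top (t : ℝ → Prop) (w n : ℕ) (z : ℕ → ℝ) (h0 : w ≠ 0) (h1 : w ≠ 1) :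
    gate t [] (fun p : ℕ × ℕ => if p.2 < 3 then 1 else w) (fun p : ℕ × ℕ => if p.2 < 3 then p.2 else 0)
      (fun _ => 1) (fun _ => 2) n z 3 =
      if w = 2 then z 0 + z 1 else if w = 3 then z 0 * z 1 else if w = 4 then z 0 / z 1
      else if t (z 0) then z 1 else z 2 := by
  have e : ¬ (3 < 3) := lt_irrefl 3
  rw [gate_eq]
  simp only [if_neg e]
  rw [if_neg h0, if_neg h1, inp t w n z 0 (by omega), inp t w n z 1 (by omega),
    inp t w n z 2 (by omega)]

open Classical in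
theorem uf {F : Set (ℕ × ℕ → ℕ)} (hF : Clone F) (t : ℝ → Prop) (w : ℕ) (h0 : w ≠ 0) (h1 : w ≠ 1) :
    UF F t fun _ _ z => if w = 2 then z 0 + z 1 else if w = 3 then z 0 * z 1
      else if w = 4 then z 0 / z 1 else if t (z 0) then z 1 else z 2 :=
  ⟨[], _, hF.ite_lt hF.snd' (hF.const 3) (hF.const 1) (hF.const w), _,
    hF.ite_lt hF.snd' (hF.const 3) hF.snd' (hF.const 0), _, hF.const 1, _, hF.const 2, _,
    hF.const 3, fun n _ z => (top t w n z h0 h1).symm⟩

end Rbasic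

theorem basic : BASIC := by
  intro F hF t
  refine ⟨fun κ => ?_, ?_, ?_, ?_, ?_, ?_⟩
  · refine ⟨κ, _, hF.const 0, _, hF.snd', _, hF.const 0, _, hF.const 0, _, hF.snd',
      fun n k z => ?_⟩
    rw [gate_eq, if_pos rfl]
  · refine ⟨[], _, hF.const 1, _, hF.snd', _, hF.const 0, _, hF.const 0, _, hF.snd',
      fun n k z => ?_⟩
    rw [gate_eq, if_neg one_ne_zero, if_pos rfl]
  · exact (Rbasic.uf hF t 2 (by omega) (by omega)).congr fun n k z => by simp
  · exact (Rbasic.uf hF t 3 (by omega) (by omega)).congr fun n k z => by simp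
  · exact (Rbasic.uf hF t 4 (by omega) (by omega)).congr fun n k z => by simp
  · exact (Rbasic.uf hF t 5 (by omega) (by omega)).congr fun n k z => by simp

end Pool.Agent.MP_8a92de_lc.U43

end Row_basic

section Row_merge
namespace Pool.Agent.MP_8a92de_lc.U43

namespace Rmerge

theorem run_congr (t : ℝ → Prop) (κ κ' : List ℝ) (o a b c o' a' b' c' : ℕ × ℕ → ℕ) (n n' : ℕ)
    (z : ℕ → ℝ) (ho : ∀ g, o (n, g) = o' (n', g)) (hb : ∀ g, b (n, g) = b' (n', g))
    (hc : ∀ g, c (n, g) = c' (n', g))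
    (h0 : ∀ g, o' (n', g) = 0 → κ.getD (a (n, g)) 0 = κ'.getD (a' (n', g)) 0)
    (h1 : ∀ g, o' (n', g) ≠ 0 → a (n, g) = a' (n', g)) (g : ℕ) :
    run t κ o a b c n z g = run t κ' o' a' b' c' n' z g := by
  induction g with
  | zero => rfl
  | succ g ih =>
    rw [run, run, ih, ho g, hb g, hc g]
    by_cases e : o' (n', g) = 0
    · rw [if_pos e, if_pos e, h0 g e]
    · rw [if_neg e, if_neg e, h1 g e]

theorem getD_left (κ κ' : List ℝ) (i : ℕ) :
    (κ ++ κ').getD (if i < κ.length then i else κ.length + κ'.length) 0 = κ.getD i 0 := by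
  by_cases h : i < κ.length
  · rw [if_pos h, List.getD_append _ _ _ _ h]
  · rw [if_neg h, List.getD_eq_default _ _ (by simp), List.getD_eq_default _ _ (by omega)]

theorem getD_right (κ κ' : List ℝ) (i : ℕ) :
    (κ ++ κ').getD (i + κ.length) 0 = κ'.getD i 0 := by
  rw [List.getD_append_right _ _ _ _ (by omega), Nat.add_sub_cancel]

end Rmerge

theorem merge : MERGE := by
  intro F hF t φ ψ hφ hψ
  obtain ⟨κ, o, ho, a, ha, b, hb, c, hc, p, hp, h⟩ := hφ
  obtain ⟨κ', o', ho', a', ha', b', hb', c', hc', p', hp', h'⟩ := hψ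
  have hm : (fun q : ℕ × ℕ => q.1 % 2) ∈ F := hF.mod' hF.fst' (hF.const 2)
  have hd : (fun q : ℕ × ℕ => q.1 / 2) ∈ F := hF.div' hF.fst' (hF.const 2)
  have sh : ∀ {α : ℕ × ℕ → ℕ}, α ∈ F → (fun q : ℕ × ℕ => α (q.1 / 2, q.2)) ∈ F :=
    fun hα => hF.comp' hα hd hF.snd'
  refine ⟨κ ++ κ', _, hF.ite_zero hm (sh ho) (sh ho'), _,
    hF.ite_zero hm
      (hF.ite_zero (sh ho)
        (hF.ite_lt (sh ha) (hF.const κ.length) (sh ha) (hF.const (κ.length + κ'.length))) (sh ha))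
      (hF.ite_zero (sh ho') (hF.add' (sh ha') (hF.const κ.length)) (sh ha')),
    _, hF.ite_zero hm (sh hb) (sh hb'), _, hF.ite_zero hm (sh hc) (sh hc'), _,
    hF.ite_zero hm (sh hp) (sh hp'), fun n k z => ?_⟩
  by_cases e : n % 2 = 0
  · simp only [if_pos e]
    rw [h, gate, gate]
    refine (congrFun (Rmerge.run_congr t _ κ _ _ _ _ o a b c n (n / 2) z (fun g => ?_)
      (fun g => ?_) (fun g => ?_) (fun g hg => ?_) (fun g hg => ?_) _) _).symm
    · exact if_pos e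
    · exact if_pos e
    · exact if_pos e
    · simp only [if_pos e, if_pos hg]
      exact Rmerge.getD_left κ κ' _
    · simp only [if_pos e, if_neg hg]
  · simp only [if_neg e]
    rw [h', gate, gate]
    refine (congrFun (Rmerge.run_congr t _ κ' _ _ _ _ o' a' b' c' n (n / 2) z (fun g => ?_)
      (fun g => ?_) (fun g => ?_) (fun g hg => ?_) (fun g hg => ?_) _) _).symm
    · exact if_neg e
    · exact if_neg e
    · exact if_neg e
    · simp only [if_neg e, if_pos hg]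
      exact Rmerge.getD_right κ κ' _
    · simp only [if_neg e, if_neg hg]

end Pool.Agent.MP_8a92de_lc.U43

end Row_merge

section Row_block
namespace Pool.Agent.MP_8a92de_lc.U43

namespace Block

theorem key (t : ℝ → Prop) (κ : List ℝ) (o a b c o' a' b' c' : ℕ × ℕ → ℕ) (n m : ℕ)
    (z w : ℕ → ℝ) (ad : ℕ → ℕ) (had : StrictMono ad)
    (ho : ∀ g, o (m, g) ≠ 1 → o' (n, ad g) = o (m, g))
    (h0 : ∀ g, o (m, g) = 0 → a' (n, ad g) = a (m, g))
    (ha : ∀ g, o (m, g) ≠ 0 → o (m, g) ≠ 1 →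
      a' (n, ad g) = ad (if a (m, g) < g then a (m, g) else g))
    (hb : ∀ g, o (m, g) ≠ 1 → b' (n, ad g) = ad (if b (m, g) < g then b (m, g) else g))
    (hc : ∀ g, c' (n, ad g) = ad (if c (m, g) < g then c (m, g) else g))
    (h1 : ∀ g, o (m, g) = 1 → gate t κ o' a' b' c' n z (ad g) = w (a (m, g))) (g : ℕ) :
    gate t κ o' a' b' c' n z (ad g) = gate t κ o a b c m w g := by
  induction g using Nat.strong_induction_on with
  | _ g ih =>
    have r : ∀ x, run t κ o' a' b' c' n z (ad g) (ad (if x < g then x else g)) =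
        run t κ o a b c m w g x := by
      intro x
      rw [run_eq, run_eq]
      by_cases h : x < g
      · rw [if_pos h, if_pos h, if_pos (had h), ih x h]
      · rw [if_neg h, if_neg h, if_neg (lt_irrefl _)]
    by_cases e1 : o (m, g) = 1
    · rw [h1 g e1, gate_eq, if_neg (by omega), if_pos e1]
    · rw [gate_eq, gate_eq, ho g e1]
      by_cases e0 : o (m, g) = 0
      · rw [if_pos e0, if_pos e0, h0 g e0]
      · rw [if_neg e0, if_neg e0, if_neg e1, if_neg e1, ha g e0 e1, hb g e1, hc g, r, r, r]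

theorem lt (n e k k' x g : ℕ) (h : k' < k) (hx : x ≤ (n + k' + 2) ^ e) :
    Nat.pair (k' * ((n + k' + 2) ^ e + 1) + x) k' < Nat.pair (k * ((n + k + 2) ^ e + 1) + g) k := by
  refine (Nat.pair_lt_pair_left _ ?_).trans (Nat.pair_lt_pair_right _ h)
  have h1 : (n + k' + 2) ^ e ≤ (n + k + 2) ^ e := Nat.pow_le_pow_left (by omega) _
  have h2 : (k' + 1) * ((n + k' + 2) ^ e + 1) ≤ k * ((n + k + 2) ^ e + 1) :=
    Nat.mul_le_mul h (by omega)
  rw [Nat.add_mul] at h2
  omega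

end Block

theorem block : BLOCK := by
  rintro F hF t φ χ ν hν α hα μ hμ ι hι ⟨κ, o, ho, a, ha, b, hb, c, hc, p, hp, h⟩ hχ
  have hP : (fun q => p (ν q, α q)) ∈ F := hF.comp' hp hν hα
  obtain ⟨e, he⟩ := hF.bound _ hP
  obtain ⟨S, hS, eS⟩ : ∃ S ∈ F, ∀ n k, S (n, k) = k * ((n + k + 2) ^ e + 1) :=
    ⟨_, hF.mul' hF.snd' (hF.add' (hF.pow' (hF.add' (hF.add' hF.fst' hF.snd') (hF.const 2)) e)
      (hF.const 1)), fun _ _ => rfl⟩
  obtain ⟨K, hK, eK⟩ : ∃ K ∈ F, ∀ n x k, K (n, Nat.pair x k) = k :=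
    ⟨_, hF.unpair2 hF.snd', fun _ _ _ => by simp only [Nat.unpair_pair]⟩
  obtain ⟨G, hG, eG⟩ : ∃ G ∈ F, ∀ n g k, G (n, Nat.pair (S (n, k) + g) k) = g :=
    ⟨_, hF.sub' (hF.unpair1 hF.snd') (hF.comp' hS hF.fst' hK), fun _ _ _ => by
      simp only [Nat.unpair_pair, eK, Nat.add_sub_cancel_left]⟩
  have hM := hF.comp' hν hF.fst' hK
  have hO := hF.comp' ho hM hG
  have hA := hF.comp' ha hM hG
  have hJ := hF.pair' hK hA
  have hU := hF.comp' hμ hF.fst' hJ
  have hI := hF.comp' hι hF.fst' hJ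
  have hout := hF.pair' (hF.add' hS hP) hF.snd'
  have href : ∀ {X : ℕ × ℕ → ℕ}, X ∈ F → (fun q : ℕ × ℕ => Nat.pair (S (q.1, K q) +
      if X (ν (q.1, K q), G q) < G q then X (ν (q.1, K q), G q) else G q) (K q)) ∈ F :=
    fun hX => hF.pair' (hF.add' (hF.comp' hS hF.fst' hK)
      (hF.ite_lt (hF.comp' hX hM hG) hG (hF.comp' hX hM hG) hG)) hK
  refine ⟨κ, _, hF.ite_eq hO (hF.const 1) (hF.ite_zero hU (hF.const 1) (hF.const 2)) hO,
    _, hF.ite_zero hO hA (hF.ite_eq hO (hF.const 1) (hF.ite_zero hU hI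
      (hF.ite_lt hI hK (hF.comp' hout hF.fst' hI) hF.snd')) (href ha)),
    _, hF.ite_eq hO (hF.const 1) hF.snd' (href hb), _, href hc, _, hout, fun n k z => ?_⟩
  induction k using Nat.strong_induction_on with
  | _ k ih =>
    rw [hχ, h]
    refine (Block.key t κ o a b c _ _ _ _ n (ν (n, k)) z _ (fun g => Nat.pair (S (n, k) + g) k)
      (fun x y hxy => Nat.pair_lt_pair_left _ (by omega)) ?_ ?_ ?_ ?_ ?_ ?_ _).symm
    · intro g e1
      simp only [eK, eG, if_neg e1]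
    · intro g e0
      simp only [eK, eG, if_pos e0]
    · intro g e0 e1
      simp only [eK, eG, if_neg e0, if_neg e1]
    · intro g e1
      simp only [eK, eG, if_neg e1]
    · intro g
      simp only [eK, eG]
    · intro g e1
      rw [gate_eq]
      simp only [eK, eG, e1, if_true, run_eq, lt_irrefl, if_false, add_zero, one_ne_zero]
      by_cases u : μ (n, Nat.pair k (a (ν (n, k), g))) = 0
      · simp only [u, if_true, one_ne_zero, if_false]
      · simp only [u, if_false, if_true, OfNat.ofNat_ne_zero, OfNat.ofNat_ne_one]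
        by_cases v : ι (n, Nat.pair k (a (ν (n, k), g))) < k
        · rw [if_pos v, if_pos v, if_pos, ih _ v]
          rw [eS, eS]
          exact Block.lt _ _ _ _ _ _ v (he (n, _))
        · rw [if_neg v, if_neg v, if_neg (lt_irrefl _)]

end Pool.Agent.MP_8a92de_lc.U43

end Row_block

section Row_dep
namespace Pool.Agent.MP_8a92de_lc.U43

theorem dep.run_congr (t : ℝ → Prop) (κ : List ℝ) (o a b c : ℕ × ℕ → ℕ) (n : ℕ) (z z' : ℕ → ℝ)
    (g : ℕ) (h : ∀ j < g, z (a (n, j)) = z' (a (n, j))) :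
    run t κ o a b c n z g = run t κ o a b c n z' g := by
  induction g with
  | zero => rfl
  | succ g ih =>
    rw [run, run, ih fun j hj => h j (Nat.lt_succ_of_lt hj), h g (Nat.lt_succ_self g)]

theorem dep : DEP := by
  rintro F hF t φ ⟨κ, o, -, a, ha, b, -, c, -, p, hp, h⟩
  obtain ⟨e, he⟩ := hF.bound a ha
  refine ⟨fun q => (q.1 + p q + 2) ^ e + 1,
    hF.add' (hF.pow' (hF.add' (hF.add' hF.fst' hp) (hF.const 2)) e) (hF.const 1),
    fun n k z z' hz => ?_⟩
  rw [h, h, gate, gate, dep.run_congr t κ o a b c n z z']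
  intro j hj
  refine hz _ (Nat.lt_succ_of_le ((he (n, j)).trans (Nat.pow_le_pow_left ?_ e)))
  have := Nat.lt_succ_iff.1 hj
  simp only
  omega

end Pool.Agent.MP_8a92de_lc.U43

end Row_dep

section Row_substu
namespace Pool.Agent.MP_8a92de_lc.U43

theorem substu (h1 : MERGE) (h2 : BLOCK) (h3 : DEP) : SUBSTU := by
  intro F hF t φ Y ν hν α hα β hβ hφ hY
  obtain ⟨δ, hδ, hd⟩ := h3 F hF t φ hφ
  obtain ⟨e, he⟩ := hF.bound β hβ
  have two := hF.const 2
  have one := hF.const 1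
  have hk : (fun q : ℕ × ℕ => (Nat.unpair (q.2 / 2)).2) ∈ F := hF.unpair2 (hF.div' hF.snd' two)
  have u1 := hF.unpair1 hF.snd'
  have u2 := hF.unpair2 hF.snd'
  have hχ : UF F t fun n k z => if k % 2 = 0 then Y n (k / 2) z else
      φ (ν (n, (Nat.unpair (k / 2)).2)) (α (n, (Nat.unpair (k / 2)).2)) fun i =>
        if 2 * β (n, Nat.pair (Nat.unpair (k / 2)).2 i) < k then
          Y n (β (n, Nat.pair (Nat.unpair (k / 2)).2 i)) z else 0 := by
    refine h2 F hF t _ _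
      (fun q => if q.2 % 2 = 0 then 2 * q.1 + 1 else 2 * ν (q.1, (Nat.unpair (q.2 / 2)).2))
      (hF.ite_zero (hF.mod' hF.snd' two) (hF.add' (hF.mul' two hF.fst') one)
        (hF.mul' two (hF.comp' hν hF.fst' hk)))
      (fun q => if q.2 % 2 = 0 then q.2 / 2 else α (q.1, (Nat.unpair (q.2 / 2)).2))
      (hF.ite_zero (hF.mod' hF.snd' two) (hF.div' hF.snd' two) (hF.comp' hα hF.fst' hk))
      (fun q => (Nat.unpair q.2).1 % 2) (hF.mod' u1 two)
      (fun q => if (Nat.unpair q.2).1 % 2 = 0 then (Nat.unpair q.2).2 else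
        2 * β (q.1, Nat.pair (Nat.unpair ((Nat.unpair q.2).1 / 2)).2 (Nat.unpair q.2).2))
      (hF.ite_zero (hF.mod' u1 two) u2 (hF.mul' two (hF.comp' hβ hF.fst'
        (hF.pair' (hF.unpair2 (hF.div' u1 two)) u2))))
      (h1 F hF t φ Y hφ hY) fun n k z => ?_
    by_cases c : k % 2 = 0
    · have e1 : ¬(2 * n + 1) % 2 = 0 := by omega
      have e2 : (2 * n + 1) / 2 = n := by omega
      simp only [Nat.unpair_pair, c, if_true, e1, if_false, e2]
    · have e1 : ∀ x : ℕ, 2 * x % 2 = 0 := fun x => by omega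
      have e2 : ∀ x : ℕ, 2 * x / 2 = x := fun x => by omega
      simp only [Nat.unpair_pair, c, if_false, e1, if_true, e2]
  have hW : (fun q : ℕ × ℕ =>
      2 * Nat.pair ((q.1 + Nat.pair q.2 (δ (ν q, α q)) + 2) ^ e) q.2 + 1) ∈ F :=
    hF.add' (hF.mul' two (hF.pair' (hF.pow' (hF.add' (hF.add' hF.fst'
      (hF.pair' hF.snd' (hF.comp' hδ hν hα))) two) e) hF.snd')) one
  refine (hχ.pos hF hW).congr fun n k z => ?_
  have e1 : ∀ x : ℕ, ¬(2 * x + 1) % 2 = 0 := fun x => by omega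
  have e2 : ∀ x : ℕ, (2 * x + 1) / 2 = x := fun x => by omega
  simp only [e1, if_false, e2, Nat.unpair_pair]
  refine hd _ _ _ _ fun i hi => (if_pos ?_).symm
  have a1 := he (n, Nat.pair k i)
  have a2 := Nat.pair_lt_pair_right k hi
  have a3 : (n + Nat.pair k i + 2) ^ e ≤ (n + Nat.pair k (δ (ν (n, k), α (n, k))) + 2) ^ e :=
    Nat.pow_le_pow_left (by omega) e
  have a4 := Nat.left_le_pair ((n + Nat.pair k (δ (ν (n, k), α (n, k))) + 2) ^ e) k
  simp only at a1
  omega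

end Pool.Agent.MP_8a92de_lc.U43

end Row_substu

section Row_ops
namespace Pool.Agent.MP_8a92de_lc.U43

namespace Rops
variable {F : Set (ℕ × ℕ → ℕ)} {t : ℝ → Prop}

theorem repar (h1 : BASIC) (h4 : SUBSTU) (hF : Clone F) {φ : Fam} {ν α : ℕ × ℕ → ℕ}
    (hφ : UF F t φ) (hν : ν ∈ F) (hα : α ∈ F) :
    UF F t fun n k z => φ (ν (n, k)) (α (n, k)) z :=
  (h4 F hF t φ (fun _ k z => z k) ν hν α hα _ (hF.unpair2 hF.snd') hφ (h1 F hF t).2.1).congr
    fun n k z => by simp only [Nat.unpair_pair]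

theorem ite (h1 : BASIC) (h2 : MERGE) (h4 : SUBSTU) (hF : Clone F) {φ ψ : Fam} {μ : ℕ × ℕ → ℕ}
    (hμ : μ ∈ F) (hφ : UF F t φ) (hψ : UF F t ψ) :
    UF F t fun n k z => if μ (n, k) = 0 then φ n k z else ψ n k z :=
  (repar h1 h4 hF (h2 F hF t φ ψ hφ hψ)
    (hF.ite_zero hμ (hF.mul' (hF.const 2) hF.fst')
      (hF.add' (hF.mul' (hF.const 2) hF.fst') (hF.const 1))) hF.snd').congr fun n k z => by
    by_cases e : μ (n, k) = 0
    · have e1 : 2 * n % 2 = 0 := by omega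
      have e2 : 2 * n / 2 = n := by omega
      simp only [if_pos e, if_pos e1, e2]
    · have e1 : ¬ (2 * n + 1) % 2 = 0 := by omega
      have e2 : (2 * n + 1) / 2 = n := by omega
      simp only [if_neg e, if_neg e1, e2]

/-- an operation with three arguments -/
theorem op3 (h1 : BASIC) (h2 : MERGE) (h4 : SUBSTU) (hF : Clone F) (w : ℝ → ℝ → ℝ → ℝ)
    (hw : UF F t fun _ _ z => w (z 0) (z 1) (z 2)) {φ ψ χ : Fam} (hφ : UF F t φ)
    (hψ : UF F t ψ) (hχ : UF F t χ) :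
    UF F t fun n k z => w (φ n k z) (ψ n k z) (χ n k z) := by
  have u1 : (fun p : ℕ × ℕ => (Nat.unpair p.2).1) ∈ F := hF.unpair1 hF.snd'
  have u2 : (fun p : ℕ × ℕ => (Nat.unpair p.2).2) ∈ F := hF.unpair2 hF.snd'
  have hY := ite h1 h2 h4 hF u2 (hφ.pos hF u1)
    (ite h1 h2 h4 hF (hF.sub' u2 (hF.const 1)) (hψ.pos hF u1) (hχ.pos hF u1))
  refine (h4 F hF t _ _ _ (hF.const 0) _ (hF.const 0) _ hF.snd' hw hY).congr fun n k z => ?_
  simp [Nat.unpair_pair]

end Rops

theorem ops (h1 : BASIC) (h2 : MERGE) (h3 : BLOCK) (h4 : SUBSTU) : OPS := by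
  intro F hF t
  obtain ⟨b1, b2, b3, b4, b5, b6⟩ := h1 F hF t
  have hconst : ∀ c : ℝ, UF F t fun _ _ _ => c := fun c =>
    ((b1 [c]).pos hF (hF.const 0)).congr fun _ _ _ => rfl
  have hadd : ∀ {φ ψ : Fam}, UF F t φ → UF F t ψ → UF F t fun n k z => φ n k z + ψ n k z :=
    fun hφ hψ => Rops.op3 h1 h2 h4 hF (fun x y _ => x + y) b3 hφ hψ hψ
  have hmul : ∀ {φ ψ : Fam}, UF F t φ → UF F t ψ → UF F t fun n k z => φ n k z * ψ n k z :=
    fun hφ hψ => Rops.op3 h1 h2 h4 hF (fun x y _ => x * y) b4 hφ hψ hψ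
  refine ⟨b1, hconst, fun hα => b2.pos hF hα, fun hφ hν hα => Rops.repar h1 h4 hF hφ hν hα,
    fun hφ hY hν hα hβ => h4 F hF t _ _ _ hν _ hα _ hβ hφ hY, hadd, fun hφ hψ => ?_, hmul,
    fun hφ hψ => Rops.op3 h1 h2 h4 hF (fun x y _ => x / y) b5 hφ hψ hψ,
    fun hφ hψ hχ => ?_, fun hμ hφ hψ => Rops.ite h1 h2 h4 hF hμ hφ hψ,
    fun {φ ψ μ ν} hμ hν hφ hψ => ?_, fun {φ ψ μ ν} hμ hν hφ hψ => ?_⟩
  · exact (hadd hφ (hmul (hconst (-1)) hψ)).congr fun n k z => by ring
  · classical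
    exact Rops.op3 h1 h2 h4 hF (fun x y u => @ite ℝ (t x) (Classical.propDecidable _) y u) b6
      hφ hψ hχ
  · exact (Rops.ite h1 h2 h4 hF (hF.ite_lt hμ hν (hF.const 0) (hF.const 1)) hφ hψ).congr
      fun n k z => by by_cases e : μ (n, k) < ν (n, k) <;> simp [e]
  · exact (Rops.ite h1 h2 h4 hF (hF.ite_eq hμ hν (hF.const 0) (hF.const 1)) hφ hψ).congr
      fun n k z => by by_cases e : μ (n, k) = ν (n, k) <;> simp [e]

end Pool.Agent.MP_8a92de_lc.U43

end Row_ops

section Row_kit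
namespace Pool.Agent.MP_8a92de_lc.U43

namespace KitRow

variable {F : Set (ℕ × ℕ → ℕ)} {t : ℝ → Prop}

theorem iter (h1 : BLOCK) (hF : Clone F) {φ χ : Fam} (hφ : UF F t φ)
    (h : ∀ n k z, χ n k z = φ n k fun i =>
      if i % 2 = 0 then z (i / 2) else if i / 2 < k then χ n (i / 2) z else 0) : UF F t χ := by
  refine h1 F hF t φ χ _ hF.fst' _ hF.snd' _ (hF.mod' (hF.unpair2 hF.snd') (hF.const 2)) _
    (hF.div' (hF.unpair2 hF.snd') (hF.const 2)) hφ fun n k z => ?_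
  rw [h n k z]
  simp only [Nat.unpair_pair]

theorem sum (h1 : BLOCK) (hF : Clone F) (O : Ops F t) {φ : Fam} {ρ : ℕ × ℕ → ℕ} (hρ : ρ ∈ F)
    (hφ : UF F t φ) :
    UF F t fun n k z => ∑ i ∈ Finset.range (ρ (n, k)), φ n (Nat.pair k i) z := by
  have hα : (fun p : ℕ × ℕ => 2 * (p.2 - 1) + 1) ∈ F :=
    hF.add' (hF.mul' (hF.const 2) (hF.sub' hF.snd' (hF.const 1))) (hF.const 1)
  have hs := O.subst hφ (O.var hF.snd') (hF.unpair1 hF.fst')
    (hF.pair' (hF.unpair2 hF.fst') (hF.sub' hF.snd' (hF.const 1)))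
    (hF.mul' (hF.const 2) (hF.unpair2 hF.snd'))
  have hψ := O.ite hF.snd' (O.const 0) (O.add (O.var hα) hs)
  have hχ : UF F t fun N j z =>
      ∑ i ∈ Finset.range j, φ (Nat.unpair N).1 (Nat.pair (Nat.unpair N).2 i) z := by
    refine iter h1 hF hψ fun N j z => ?_
    rcases j with _ | j
    · simp
    · have e1 : (2 * (j + 1 - 1) + 1) % 2 ≠ 0 := by omega
      have e2 : (2 * (j + 1 - 1) + 1) / 2 < j + 1 := by omega
      have e3 : (2 * (j + 1 - 1) + 1) / 2 = j := by omega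
      have e4 : ∀ i : ℕ, 2 * i % 2 = 0 := fun i => by omega
      have e5 : ∀ i : ℕ, 2 * i / 2 = i := fun i => by omega
      simp only [if_neg (Nat.succ_ne_zero j), if_neg e1, if_pos e2, Nat.unpair_pair, e4, e5,
        if_true]
      rw [e3, Finset.sum_range_succ, Nat.add_sub_cancel]
  refine (O.repar hχ (hF.pair' hF.fst' hF.snd') hρ).congr fun n k z => ?_
  simp only [Nat.unpair_pair]

theorem nat (h1 : BLOCK) (hF : Clone F) (O : Ops F t) {α : ℕ × ℕ → ℕ} (hα : α ∈ F) :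
    UF F t fun n k _ => (α (n, k) : ℝ) := by
  refine (sum h1 hF O hα (O.const 1)).congr fun n k z => ?_
  simp

theorem poly (hF : Clone F) (O : Ops F t) {A B : Fam} {r : ℕ × ℕ → ℕ} {f : List ℝ → List ℝ}
    (hr : r ∈ F) (hA : UF F t A) (hB : UF F t B)
    (h : ∀ x : List ℝ, f x = outF t A B (r (x.length, 0)) x.length fun i => x.getD i 0) :
    Poly F t f := by
  have hd : (fun p : ℕ × ℕ => p.2 / 2) ∈ F := hF.div' hF.snd' (hF.const 2)
  obtain ⟨κ, o, ho, a, ha, b, hb, c, hc, p, hp, e⟩ :=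
    O.ite (hF.mod' hF.snd' (hF.const 2)) (hA.pos hF hd) (hB.pos hF hd)
  have h2 : (fun p : ℕ × ℕ => 2 * p.2) ∈ F := hF.mul' (hF.const 2) hF.snd'
  have eA : ∀ n k z, A n k z = gate t κ o a b c n z (p (n, 2 * k)) := fun n k z => by
    have e4 : 2 * k % 2 = 0 := by omega
    have e5 : 2 * k / 2 = k := by omega
    rw [← e n (2 * k) z]
    simp only [e4, e5, if_true]
  have eB : ∀ n k z, B n k z = gate t κ o a b c n z (p (n, 2 * k + 1)) := fun n k z => by
    have e4 : (2 * k + 1) % 2 ≠ 0 := by omega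
    have e5 : (2 * k + 1) / 2 = k := by omega
    rw [← e n (2 * k + 1) z]
    simp only [if_neg e4, e5]
  refine ⟨κ, o, ho, a, ha, b, hb, c, hc, r, hr, _, hF.comp' hp hF.fst' h2, _,
    hF.comp' hp hF.fst' (hF.add' h2 (hF.const 1)), fun x => ?_⟩
  have eA' : A = fun n k z => gate t κ o a b c n z (p (n, 2 * k)) :=
    funext fun n => funext fun k => funext fun z => eA n k z
  have eB' : B = fun n k z => gate t κ o a b c n z (p (n, 2 * k + 1)) :=
    funext fun n => funext fun k => funext fun z => eB n k z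
  rw [h x, eA', eB']
  rfl

end KitRow

theorem kit (h1 : BLOCK) (h2 : OPS) : KIT := fun F hF t =>
  { toOps := h2 F hF t
    iter := fun hφ h => KitRow.iter h1 hF hφ h
    sum := fun hρ hφ => KitRow.sum h1 hF (h2 F hF t) hρ hφ
    nat := fun hα => KitRow.nat h1 hF (h2 F hF t) hα
    poly := fun hr hA hB h => KitRow.poly hF (h2 F hF t) hr hA hB h }

end Pool.Agent.MP_8a92de_lc.U43

end Row_kit

section Row_jetu
namespace Pool.Agent.MP_8a92de_lc.U43

open MvPolynomial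
open Pool.Agent.MP_8a92de_lc.E43 hiding Poly MAIN

namespace jetu

/-- choice among four numbers -/
def s4 (r : ℕ) (x0 x1 x2 x3 : ℝ) : ℝ :=
  if r = 0 then x0 else if r = 1 then x1 else if r = 2 then x2 else x3

section Alg
variable {K0 : Subfield ℝ} {N : ℕ} (y : Fin N → ℝ) (i : ℕ)

/-- values and derivatives of a fraction -/
noncomputable def val (T : MvPolynomial (Fin N) K0 × MvPolynomial (Fin N) K0) (r : ℕ) : ℝ :=
  s4 r (aeval y T.1) (aeval y T.2) (dv' y i T.1) (dv' y i T.2)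

theorem dv_mul (A B : MvPolynomial (Fin N) K0) :
    dv' y i (A * B) = dv' y i A * aeval y B + aeval y A * dv' y i B := by
  unfold dv'
  split_ifs
  · simp only [Derivation.leibniz, smul_eq_mul, map_add, map_mul]
    ring
  · simp

theorem dv_add (A B : MvPolynomial (Fin N) K0) : dv' y i (A + B) = dv' y i A + dv' y i B := by
  unfold dv'
  split_ifs <;> simp

theorem dv_C (c : K0) : dv' y i (C c : MvPolynomial (Fin N) K0) = 0 := by simp [dv']

theorem dv_one : dv' y i (1 : MvPolynomial (Fin N) K0) = 0 := by simp [dv']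

theorem dv_zero : dv' y i (0 : MvPolynomial (Fin N) K0) = 0 := by simp [dv']

theorem dv_X (j : Fin N) :
    dv' y i (X j : MvPolynomial (Fin N) K0) = if (j : ℕ) = i then 1 else 0 := by
  unfold dv'
  by_cases h : (j : ℕ) = i
  · subst h
    simp
  · rw [if_neg h]
    split_ifs with hi
    · rw [pderiv_X_of_ne (fun e => h (congrArg Fin.val e)), map_zero]
    · rfl

theorem pq_eq (κ : ℕ → K0) (o a b c : ℕ × ℕ → ℕ) (g j : ℕ) :
    pq K0 κ o a b c N y g j = if j < g then pg K0 κ o a b c N y j else (0, 1) := by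
  induction g with
  | zero => rfl
  | succ g ih =>
    by_cases h : j = g
    · subst h
      rw [if_pos (Nat.lt_succ_self _)]
      rfl
    · rw [pq, Function.update_of_ne h, ih]
      exact if_congr (by omega) rfl rfl

end Alg

/-- a table entry of the simulated gate -/
def tb (α : ℕ × ℕ → ℕ) (p : ℕ × ℕ) : ℕ := α ((Nat.unpair p.1).1, p.2 / 4)

/-- reference to component `r` of an argument -/
noncomputable def rf (α : ℕ × ℕ → ℕ) (r : ℕ) : Fam := fun n k w =>
  if tb α (n, k) < k / 4 then w (2 * (4 * tb α (n, k) + r) + 1) else if r = 1 then 1 else 0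

open Classical in
/-- one step -/
noncomputable def st (κl : List ℝ) (o a b c : ℕ × ℕ → ℕ) : Fam := fun n k w =>
  if tb o (n, k) = 0 then s4 (k % 4) (κl.getD (tb a (n, k)) 0) 1 0 0
  else if tb o (n, k) = 1 then
    s4 (k % 4) (if tb a (n, k) < (Nat.unpair n).1 then w (2 * tb a (n, k)) else 0) 1
      (if tb a (n, k) < (Nat.unpair n).1 then if tb a (n, k) = (Nat.unpair n).2 then 1 else 0
        else 0) 0
  else if tb o (n, k) = 2 then
    s4 (k % 4) (rf a 0 n k w * rf b 1 n k w + rf b 0 n k w * rf a 1 n k w)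
      (rf a 1 n k w * rf b 1 n k w)
      (rf a 2 n k w * rf b 1 n k w + rf a 0 n k w * rf b 3 n k w +
        (rf b 2 n k w * rf a 1 n k w + rf b 0 n k w * rf a 3 n k w))
      (rf a 3 n k w * rf b 1 n k w + rf a 1 n k w * rf b 3 n k w)
  else if tb o (n, k) = 3 then
    s4 (k % 4) (rf a 0 n k w * rf b 0 n k w) (rf a 1 n k w * rf b 1 n k w)
      (rf a 2 n k w * rf b 0 n k w + rf a 0 n k w * rf b 2 n k w)
      (rf a 3 n k w * rf b 1 n k w + rf a 1 n k w * rf b 3 n k w)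
  else if tb o (n, k) = 4 then
    if rf b 0 n k w = 0 then s4 (k % 4) 0 1 0 0 else
      s4 (k % 4) (rf a 0 n k w * rf b 1 n k w) (rf a 1 n k w * rf b 0 n k w)
        (rf a 2 n k w * rf b 1 n k w + rf a 0 n k w * rf b 3 n k w)
        (rf a 3 n k w * rf b 0 n k w + rf a 1 n k w * rf b 2 n k w)
  else if rf a 0 n k w = 0 then
    s4 (k % 4) (rf c 0 n k w) (rf c 1 n k w) (rf c 2 n k w) (rf c 3 n k w)
  else s4 (k % 4) (rf b 0 n k w) (rf b 1 n k w) (rf b 2 n k w) (rf b 3 n k w)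

section Uni
variable {F : Set (ℕ × ℕ → ℕ)} (hF : Clone F) (hK : Kit F (fun a => a ≠ 0))
include hF

theorem tb_mem {α : ℕ × ℕ → ℕ} (h : α ∈ F) : tb α ∈ F :=
  hF.congr (hF.comp' h (hF.unpair1 hF.fst') (hF.div' hF.snd' (hF.const 4))) fun _ => rfl

include hK

theorem rf_uf {α : ℕ × ℕ → ℕ} (h : α ∈ F) (r : ℕ) : UF F (fun a => a ≠ 0) (rf α r) :=
  hK.ite_lt (tb_mem hF h) (hF.div' hF.snd' (hF.const 4))
    (hK.var (hF.add' (hF.mul' (hF.const 2) (hF.add' (hF.mul' (hF.const 4) (tb_mem hF h))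
      (hF.const r))) (hF.const 1))) (hK.const _)

theorem s4_uf {A B C D : Fam} (h0 : UF F (fun a => a ≠ 0) A) (h1 : UF F (fun a => a ≠ 0) B)
    (h2 : UF F (fun a => a ≠ 0) C) (h3 : UF F (fun a => a ≠ 0) D) :
    UF F (fun a => a ≠ 0) fun n k z => s4 (k % 4) (A n k z) (B n k z) (C n k z) (D n k z) :=
  have m := hF.mod' hF.snd' (hF.const 4)
  hK.ite_eq m (hF.const 0) h0 (hK.ite_eq m (hF.const 1) h1 (hK.ite_eq m (hF.const 2) h2 h3))

omit hF in
open Classical in
theorem selz {A B C : Fam} (h0 : UF F (fun a => a ≠ 0) A) (h1 : UF F (fun a => a ≠ 0) B)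
    (h2 : UF F (fun a => a ≠ 0) C) :
    UF F (fun a => a ≠ 0) fun n k z => if A n k z = 0 then B n k z else C n k z :=
  (hK.sel h0 h2 h1).congr fun n k z => by
    by_cases h : A n k z = 0
    · rw [if_pos h, if_neg (not_not.2 h)]
    · rw [if_neg h, if_pos h]

theorem st_uf (κl : List ℝ) {o a b c : ℕ × ℕ → ℕ} (ho : o ∈ F) (ha : a ∈ F) (hb : b ∈ F)
    (hc : c ∈ F) : UF F (fun a => a ≠ 0) (st κl o a b c) := by
  have O := tb_mem hF ho
  have A := tb_mem hF ha
  have u := rf_uf hF hK ha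
  have v := rf_uf hF hK hb
  have w := rf_uf hF hK hc
  have c0 := hK.const 0
  have c1 := hK.const 1
  have n1 := hF.unpair1 hF.fst'
  exact hK.ite_eq O (hF.const 0) (s4_uf hF hK ((hK.cst κl).pos hF A) c1 c0 c0)
    (hK.ite_eq O (hF.const 1)
      (s4_uf hF hK (hK.ite_lt A n1 (hK.var (hF.mul' (hF.const 2) A)) c0) c1
        (hK.ite_lt A n1 (hK.ite_eq A (hF.unpair2 hF.fst') c1 c0) c0) c0)
    (hK.ite_eq O (hF.const 2)
      (s4_uf hF hK (hK.add (hK.mul (u 0) (v 1)) (hK.mul (v 0) (u 1))) (hK.mul (u 1) (v 1))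
        (hK.add (hK.add (hK.mul (u 2) (v 1)) (hK.mul (u 0) (v 3)))
          (hK.add (hK.mul (v 2) (u 1)) (hK.mul (v 0) (u 3))))
        (hK.add (hK.mul (u 3) (v 1)) (hK.mul (u 1) (v 3))))
    (hK.ite_eq O (hF.const 3)
      (s4_uf hF hK (hK.mul (u 0) (v 0)) (hK.mul (u 1) (v 1))
        (hK.add (hK.mul (u 2) (v 0)) (hK.mul (u 0) (v 2)))
        (hK.add (hK.mul (u 3) (v 1)) (hK.mul (u 1) (v 3))))
    (hK.ite_eq O (hF.const 4)
      (selz hK (v 0) (s4_uf hF hK c0 c1 c0 c0)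
        (s4_uf hF hK (hK.mul (u 0) (v 1)) (hK.mul (u 1) (v 0))
          (hK.add (hK.mul (u 2) (v 1)) (hK.mul (u 0) (v 3)))
          (hK.add (hK.mul (u 3) (v 0)) (hK.mul (u 1) (v 2)))))
      (selz hK (u 0) (s4_uf hF hK (w 0) (w 1) (w 2) (w 3))
        (s4_uf hF hK (v 0) (v 1) (v 2) (v 3)))))))

end Uni

/-- the family of all values and derivatives -/
noncomputable def ch (K0 : Subfield ℝ) (κ : ℕ → K0) (o a b c : ℕ × ℕ → ℕ) : Fam := fun n k z =>
  val (rs (Nat.unpair n).1 z) (Nat.unpair n).2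
    (pg K0 κ o a b c (Nat.unpair n).1 (rs (Nat.unpair n).1 z) (k / 4)) (k % 4)

theorem rf_eq (K0 : Subfield ℝ) (κ : ℕ → K0) (o a b c α : ℕ × ℕ → ℕ) (n k : ℕ) (z : ℕ → ℝ)
    (r : ℕ) (hr : r < 4) :
    rf α r n k (fun i => if i % 2 = 0 then z (i / 2) else
      if i / 2 < k then ch K0 κ o a b c n (i / 2) z else 0) =
    val (rs (Nat.unpair n).1 z) (Nat.unpair n).2 (pq K0 κ o a b c (Nat.unpair n).1
      (rs (Nat.unpair n).1 z) (k / 4) (α ((Nat.unpair n).1, k / 4))) r := by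
  rw [pq_eq]
  show (if α ((Nat.unpair n).1, k / 4) < k / 4 then
    (fun i => if i % 2 = 0 then z (i / 2) else
      if i / 2 < k then ch K0 κ o a b c n (i / 2) z else 0)
      (2 * (4 * α ((Nat.unpair n).1, k / 4) + r) + 1) else if r = 1 then 1 else 0) = _
  generalize α ((Nat.unpair n).1, k / 4) = j
  by_cases h : j < k / 4
  · have e : (2 * (4 * j + r) + 1) / 2 = 4 * j + r := by omega
    rw [if_pos h, if_pos h]
    beta_reduce
    rw [if_neg (by omega), e, if_pos (by omega), ch,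
      show (4 * j + r) / 4 = j by omega, show (4 * j + r) % 4 = r by omega]
  · rw [if_neg h, if_neg h]
    simp only [val, s4, map_zero, map_one, dv_zero, dv_one]
    split_ifs <;> first | rfl | omega

theorem ch_eq (K0 : Subfield ℝ) (κ : ℕ → K0) (κl : List ℝ) (hκ : ∀ i, (κ i : ℝ) = κl.getD i 0)
    (o a b c : ℕ × ℕ → ℕ) (n k : ℕ) (z : ℕ → ℝ) :
    ch K0 κ o a b c n k z = st κl o a b c n k fun i => if i % 2 = 0 then z (i / 2) else
      if i / 2 < k then ch K0 κ o a b c n (i / 2) z else 0 := by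
  have e := fun α r hr => rf_eq K0 κ o a b c α n k z r hr
  unfold st
  rw [e a 0 (by omega), e a 1 (by omega), e a 2 (by omega), e a 3 (by omega), e b 0 (by omega),
    e b 1 (by omega), e b 2 (by omega), e b 3 (by omega), e c 0 (by omega), e c 1 (by omega),
    e c 2 (by omega), e c 3 (by omega)]
  rw [ch, pg, pq, Function.update_self]
  delta tb
  dsimp only
  generalize pq K0 κ o a b c (Nat.unpair n).1 (rs (Nat.unpair n).1 z) (k / 4)
    (a ((Nat.unpair n).1, k / 4)) = u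
  generalize pq K0 κ o a b c (Nat.unpair n).1 (rs (Nat.unpair n).1 z) (k / 4)
    (b ((Nat.unpair n).1, k / 4)) = v
  generalize pq K0 κ o a b c (Nat.unpair n).1 (rs (Nat.unpair n).1 z) (k / 4)
    (c ((Nat.unpair n).1, k / 4)) = w
  generalize o ((Nat.unpair n).1, k / 4) = q
  generalize a ((Nat.unpair n).1, k / 4) = j
  generalize k % 4 = r
  have v0 : ∀ T : MvPolynomial (Fin (Nat.unpair n).1) K0 × MvPolynomial (Fin (Nat.unpair n).1) K0,
      val (rs (Nat.unpair n).1 z) (Nat.unpair n).2 T 0 = aeval (rs (Nat.unpair n).1 z) T.1 ∧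
      val (rs (Nat.unpair n).1 z) (Nat.unpair n).2 T 1 = aeval (rs (Nat.unpair n).1 z) T.2 ∧
      val (rs (Nat.unpair n).1 z) (Nat.unpair n).2 T 2 =
        dv' (rs (Nat.unpair n).1 z) (Nat.unpair n).2 T.1 ∧
      val (rs (Nat.unpair n).1 z) (Nat.unpair n).2 T 3 =
        dv' (rs (Nat.unpair n).1 z) (Nat.unpair n).2 T.2 := fun T => ⟨rfl, rfl, rfl, rfl⟩
  rw [(v0 u).1, (v0 u).2.1, (v0 u).2.2.1, (v0 u).2.2.2, (v0 v).1, (v0 v).2.1, (v0 v).2.2.1,
    (v0 v).2.2.2, (v0 w).1, (v0 w).2.1, (v0 w).2.2.1, (v0 w).2.2.2]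
  by_cases h0 : q = 0
  · rw [if_pos h0, if_pos h0, val, ← hκ]
    simp only [aeval_C, map_one, dv_C, dv_one]
    rfl
  rw [if_neg h0, if_neg h0]
  by_cases h1 : q = 1
  · rw [if_pos h1, if_pos h1, val]
    by_cases hj : j < (Nat.unpair n).1
    · simp only [dif_pos hj, if_pos hj, aeval_X, map_one, dv_X, dv_one, rs, Nat.mul_mod_right,
        if_true, Nat.mul_div_cancel_left _ Nat.two_pos]
    · simp only [dif_neg hj, if_neg hj, map_zero, map_one, dv_zero, dv_one]
  rw [if_neg h1, if_neg h1]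
  by_cases h2 : q = 2
  · rw [if_pos h2, if_pos h2, val]
    simp only [map_add, map_mul, dv_add, dv_mul]
  rw [if_neg h2, if_neg h2]
  by_cases h3 : q = 3
  · rw [if_pos h3, if_pos h3, val]
    simp only [map_mul, dv_mul]
  rw [if_neg h3, if_neg h3]
  by_cases h4 : q = 4
  · rw [if_pos h4, if_pos h4]
    by_cases hv : aeval (rs (Nat.unpair n).1 z) v.1 = 0
    · rw [if_pos hv, if_pos hv, val]
      simp only [map_zero, map_one, dv_zero, dv_one]
    · rw [if_neg hv, if_neg hv, val]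
      simp only [map_mul, dv_mul]
  rw [if_neg h4, if_neg h4]
  by_cases hu : aeval (rs (Nat.unpair n).1 z) u.1 = 0
  · rw [if_pos hu, if_pos hu, val]
  · rw [if_neg hu, if_neg hu, val]

end jetu

theorem jetu : JETU := by
  intro F hF hK K0 κ κl hκ o ho a ha b hb c hc
  have h := hK.iter (jetu.st_uf hF hK κl ho ha hb hc) (jetu.ch_eq K0 κ κl hκ o a b c)
  have g : ∀ {α β : ℕ × ℕ → ℕ}, α ∈ F → β ∈ F → ∀ r < 4, UF F (fun a => a ≠ 0) fun N k z =>
      jetu.val (rs N z) (β (N, k)) (pg K0 κ o a b c N (rs N z) (α (N, k))) r := by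
    intro α β hα hβ r hr
    refine (hK.repar h (hF.pair' hF.fst' hβ)
      (hF.add' (hF.mul' (hF.const 4) hα) (hF.const r))).congr fun N k z => ?_
    have key : ∀ (n : ℕ) (p : ℕ × ℕ), Nat.unpair n = p → ∀ k, jetu.ch K0 κ o a b c n k z =
        jetu.val (rs p.1 z) p.2 (pg K0 κ o a b c p.1 (rs p.1 z) (k / 4)) (k % 4) := by
      rintro n p rfl k
      rfl
    rw [key _ _ (Nat.unpair_pair _ _), show (4 * α (N, k) + r) / 4 = α (N, k) by omega,
      show (4 * α (N, k) + r) % 4 = r by omega]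
  exact ⟨g hF.snd' (hF.const 0) 0 (by omega), g hF.snd' (hF.const 0) 1 (by omega),
    g (hF.unpair1 hF.snd') (hF.unpair2 hF.snd') 2 (by omega),
    g (hF.unpair1 hF.snd') (hF.unpair2 hF.snd') 3 (by omega)⟩

end Pool.Agent.MP_8a92de_lc.U43

end Row_jetu

section Row_locg
namespace Pool.Agent.MP_8a92de_lc.U43

open MvPolynomial Filter Topology
open Pool.Agent.MP_8a92de_lc.E43 hiding Poly MAIN

namespace locgx

open Classical in
/-- the fraction of a new gate from the fractions of its arguments -/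
noncomputable def nw {K0 : Subfield ℝ} (κ : ℕ → K0) (o a : ℕ) {N : ℕ} (y : Fin N → ℝ)
    (u v w : MvPolynomial (Fin N) K0 × MvPolynomial (Fin N) K0) :
    MvPolynomial (Fin N) K0 × MvPolynomial (Fin N) K0 :=
  if o = 0 then (C (κ a), 1)
  else if o = 1 then (if h : a < N then X ⟨a, h⟩ else 0, 1)
  else if o = 2 then (u.1 * v.2 + v.1 * u.2, u.2 * v.2)
  else if o = 3 then (u.1 * v.1, u.2 * v.2)
  else if o = 4 then (if aeval y v.1 = 0 then (0, 1) else (u.1 * v.2, u.2 * v.1))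
  else if aeval y u.1 = 0 then w else v

theorem pq_succ (K0 : Subfield ℝ) (κ : ℕ → K0) (o a b c : ℕ × ℕ → ℕ) (N : ℕ) (y : Fin N → ℝ)
    (g : ℕ) : pq K0 κ o a b c N y (g + 1) = Function.update (pq K0 κ o a b c N y g) g
      (nw κ (o (N, g)) (a (N, g)) y (pq K0 κ o a b c N y g (a (N, g)))
        (pq K0 κ o a b c N y g (b (N, g))) (pq K0 κ o a b c N y g (c (N, g)))) := rfl

/-- the invariant of one entry -/
def Gd {K0 : Subfield ℝ} {N : ℕ} (y : Fin N → ℝ) (e : ℕ) (r : ℝ)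
    (u : MvPolynomial (Fin N) K0 × MvPolynomial (Fin N) K0) : Prop :=
  2 * u.1.totalDegree ≤ e ∧ 2 * u.2.totalDegree ≤ e ∧ aeval y u.2 ≠ 0 ∧
    r = aeval y u.1 / aeval y u.2

theorem Gd.mono {K0 : Subfield ℝ} {N : ℕ} {y : Fin N → ℝ} {e e' : ℕ} {r : ℝ}
    {u : MvPolynomial (Fin N) K0 × MvPolynomial (Fin N) K0} (h : Gd y e r u) (he : e ≤ e') :
    Gd y e' r u := ⟨h.1.trans he, h.2.1.trans he, h.2.2⟩

open Classical in
theorem gd_nw {K0 : Subfield ℝ} (κ : ℕ → K0) (κl : List ℝ) (hκ : ∀ i, (κ i : ℝ) = κl.getD i 0)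
    (o a : ℕ) {N : ℕ} (y : Fin N → ℝ) {e : ℕ} (he : 1 ≤ e) {r s t : ℝ}
    {u v w : MvPolynomial (Fin N) K0 × MvPolynomial (Fin N) K0}
    (hu : Gd y e r u) (hv : Gd y e s v) (hw : Gd y e t w) :
    Gd y (e * 2) (if o = 0 then κl.getD a 0 else if o = 1 then ex y a else if o = 2 then r + s
      else if o = 3 then r * s else if o = 4 then r / s
      else @ite ℝ (r ≠ 0) (Classical.propDecidable _) s t)
      (nw κ o a y u v w) := by
  have hw' := hw.mono (e' := e * 2) (by omega)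
  have hv' := hv.mono (e' := e * 2) (by omega)
  obtain ⟨u1, u2, u3, rfl⟩ := hu
  obtain ⟨v1, v2, v3, rfl⟩ := hv
  have m12 := totalDegree_mul u.1 v.2
  have m21 := totalDegree_mul v.1 u.2
  have m22 := totalDegree_mul u.2 v.2
  have m11 := totalDegree_mul u.1 v.1
  have m21' := totalDegree_mul u.2 v.1
  have ad := totalDegree_add (u.1 * v.2) (v.1 * u.2)
  unfold nw
  by_cases h0 : o = 0
  · rw [if_pos h0, if_pos h0]
    refine ⟨by simp, by simp, by simp, ?_⟩
    rw [← hκ]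
    simp only [aeval_C, map_one, div_one]
    rfl
  rw [if_neg h0, if_neg h0]
  by_cases h1 : o = 1
  · rw [if_pos h1, if_pos h1]
    by_cases ha : a < N
    · rw [dif_pos ha, ex_lt _ ha]
      refine ⟨?_, by simp, by simp, by simp⟩
      simp only [totalDegree_X]
      omega
    · rw [dif_neg ha, ex_ge _ (Nat.not_lt.1 ha)]
      exact ⟨by simp, by simp, by simp, by simp⟩
  rw [if_neg h1, if_neg h1]
  by_cases h2 : o = 2
  · rw [if_pos h2, if_pos h2]
    refine ⟨?_, ?_, ?_, ?_⟩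
    · dsimp only
      omega
    · dsimp only
      omega
    · simp only [map_mul]
      exact mul_ne_zero u3 v3
    · simp only [map_mul, map_add]
      field_simp
  rw [if_neg h2, if_neg h2]
  by_cases h3 : o = 3
  · rw [if_pos h3, if_pos h3]
    refine ⟨?_, ?_, ?_, ?_⟩
    · dsimp only
      omega
    · dsimp only
      omega
    · simp only [map_mul]
      exact mul_ne_zero u3 v3
    · simp only [map_mul]
      field_simp
  rw [if_neg h3, if_neg h3]
  by_cases h4 : o = 4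
  · rw [if_pos h4, if_pos h4]
    by_cases hz : aeval y v.1 = 0
    · rw [if_pos hz, hz]
      exact ⟨by simp, by simp, by simp, by simp⟩
    · rw [if_neg hz]
      refine ⟨?_, ?_, ?_, ?_⟩
      · dsimp only
        omega
      · dsimp only
        omega
      · simp only [map_mul]
        exact mul_ne_zero u3 hz
      · simp only [map_mul]
        field_simp
  rw [if_neg h4, if_neg h4]
  by_cases hz : aeval y u.1 = 0
  · rw [if_pos hz, if_neg (by simp [hz])]
    exact hw'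
  · rw [if_neg hz, if_pos (div_ne_zero hz u3)]
    exact hv'

theorem inv (K0 : Subfield ℝ) (κ : ℕ → K0) (κl : List ℝ) (hκ : ∀ i, (κ i : ℝ) = κl.getD i 0)
    (o a b c : ℕ × ℕ → ℕ) (N : ℕ) (y : Fin N → ℝ) (g : ℕ) : ∀ i,
    Gd y (2 ^ g) (run (fun a => a ≠ 0) κl o a b c N (ex y) g i) (pq K0 κ o a b c N y g i) := by
  induction g with
  | zero => exact fun i => ⟨by simp [pq], by simp [pq], by simp [pq], by simp [pq, run]⟩
  | succ g ih =>
    intro i
    rw [pq_succ, pow_succ]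
    by_cases h : i = g
    · subst h
      rw [Function.update_self, run, Function.update_self]
      exact gd_nw κ κl hκ _ _ y Nat.one_le_two_pow (ih _) (ih _) (ih _)
    · rw [Function.update_of_ne h, run, Function.update_of_ne h]
      exact (ih i).mono (by omega)

theorem loc (K0 : Subfield ℝ) (κ : ℕ → K0) (κl : List ℝ) (hκ : ∀ i, (κ i : ℝ) = κl.getD i 0)
    (o a b c : ℕ × ℕ → ℕ) (N d : ℕ) (y : Fin N → ℝ) (Fl : Filter (Fin N → ℝ))
    (hA : Adm K0 d y Fl) (g : ℕ) (hg : 2 ^ g ≤ 2 * d) :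
    ∀ᶠ y' in Fl, pq K0 κ o a b c N y' g = pq K0 κ o a b c N y g := by
  induction g with
  | zero => exact Eventually.of_forall fun _ => rfl
  | succ g ih =>
    rw [pow_succ] at hg
    have hu := (inv K0 κ κl hκ o a b c N y g (a (N, g))).1
    have hv := (inv K0 κ κl hκ o a b c N y g (b (N, g))).1
    filter_upwards [ih (by omega), hA (pq K0 κ o a b c N y g (a (N, g))).1 (by omega),
      hA (pq K0 κ o a b c N y g (b (N, g))).1 (by omega)] with y' e1 e2 e3
    rw [pq_succ, pq_succ, e1]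
    unfold nw
    simp only [e2, e3]

end locgx

theorem locg : LOCG := by
  intro K0 κ κl hκ o a b c N g
  refine ⟨fun y => ?_, fun d y Fl hd hA => ?_⟩
  · obtain ⟨h1, h2, h3, h4⟩ := locgx.inv K0 κ κl hκ o a b c N y (g + 1) g
    rw [pow_succ] at h1 h2
    refine ⟨?_, ?_, h3, h4⟩
    · unfold pg
      omega
    · unfold pg
      omega
  · filter_upwards [locgx.loc K0 κ κl hκ o a b c N d y Fl hA (g + 1)
      (by rw [pow_succ]; omega)] with y' e
    exact congrFun e g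

end Pool.Agent.MP_8a92de_lc.U43

end Row_locg

section Row_wb
namespace Pool.Agent.MP_8a92de_lc.U43

open MvPolynomial Filter Topology
open Pool.Agent.MP_8a92de_lc.E43 hiding Poly MAIN

namespace Wb

theorem size (N k r cr cp e : ℕ) (hk : k < r) (hr : r ≤ (N + 0 + 2) ^ cr) (he : cp ≤ e) :
    (N + k + 2) ^ cp ≤ (N + 2) ^ ((cr + 2) * e) := by
  rw [pow_mul]
  have h1 : 1 ≤ (N + 2) ^ cr := Nat.one_le_pow _ _ (by omega)
  have h2 : N + k + 2 ≤ (N + 2) ^ (cr + 2) := by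
    rw [pow_add, pow_two]
    rw [Nat.add_zero] at hr
    generalize (N + 2) ^ cr = R at h1 hr
    have h3 : (N + 2) * 2 ≤ (N + 2) * (N + 2) := Nat.mul_le_mul_left _ (by omega)
    have h4 : R * ((N + 2) * 2) ≤ R * ((N + 2) * (N + 2)) := Nat.mul_le_mul_left _ h3
    have h5 : N + 2 ≤ R * (N + 2) := Nat.le_mul_of_pos_left _ h1
    have h6 : R ≤ R * (N + 2) := Nat.le_mul_of_pos_right _ (by omega)
    have h7 : R * ((N + 2) * 2) = R * (N + 2) + R * (N + 2) := by ring
    omega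
  exact (Nat.pow_le_pow_left h2 cp).trans (Nat.pow_le_pow_right (by omega) he)

theorem size2 (N r cr e : ℕ) (hr : r ≤ (N + 0 + 2) ^ cr) (he : 1 ≤ e) :
    2 * r ≤ (N + 2) ^ ((cr + 2) * e) := by
  rw [Nat.add_zero] at hr
  have h1 : (N + 2) ^ (cr + 1) ≤ (N + 2) ^ ((cr + 2) * e) :=
    Nat.pow_le_pow_right (by omega) (le_trans (Nat.le_succ _) (Nat.le_mul_of_pos_right _ he))
  refine le_trans ?_ h1
  rw [pow_succ, mul_comm]
  exact Nat.mul_le_mul hr (by omega)

end Wb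

theorem wb (h1 : JETU) (h2 : LOCG) : WB := by
  classical
  rintro F hF kit f ⟨κ, o, ho, a, ha, b, hb, c, hc, r, hr, p, hp, q, hq, hf⟩
  refine ⟨κ.toFinset, fun K0 hK => ?_⟩
  have hκ : ∀ i, κ.getD i 0 ∈ K0 := fun i => by
    by_cases hi : i < κ.length
    · rw [List.getD_eq_getElem _ _ hi]
      exact hK (by simp)
    · rw [List.getD_eq_default _ _ (by omega)]
      exact K0.zero_mem
  obtain ⟨κ', hκ'⟩ : ∃ κ' : ℕ → K0, ∀ i, (κ' i : ℝ) = κ.getD i 0 :=
    ⟨fun i => ⟨_, hκ i⟩, fun _ => rfl⟩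
  obtain ⟨cr, hcr⟩ := hF.bound r hr
  obtain ⟨cp, hcp⟩ := hF.bound p hp
  obtain ⟨cq, hcq⟩ := hF.bound q hq
  obtain ⟨uA, uB, uC, uD⟩ := h1 F hF kit K0 κ' κ hκ' o ho a ha b hb c hc
  have L := h2 K0 κ' κ hκ' o a b c
  generalize pg K0 κ' o a b c = pg' at uA uB uC uD L
  have hf' : ∀ N (y : Fin N → ℝ), f (List.ofFn y) = ((List.range (r (N, 0))).filter fun k =>
      decide (gate (fun a => a ≠ 0) κ o a b c N (ex y) (p (N, k)) ≠ 0)).map
      fun k => gate (fun a => a ≠ 0) κ o a b c N (ex y) (q (N, k)) := fun N y => by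
    rw [hf, getD_ofFn, List.length_ofFn]
    exact congrArg (List.map _) (List.filter_congr fun k _ => decide_eq_decide.2 Iff.rfl)
  clear hf
  generalize gate (fun a => a ≠ 0) κ o a b c = gt at L hf'
  have tst : ∀ N (y : Fin N → ℝ) g, gt N (ex y) g ≠ 0 ↔ aeval y (pg' N y g).1 ≠ 0 := fun N y g => by
    rw [((L N g).1 y).2.2.2, div_ne_zero_iff]
    exact ⟨fun h => h.1, fun h => ⟨h, ((L N g).1 y).2.2.1⟩⟩
  have half : ∀ N (x : Fin (2 * r (N, 0))), (x : ℕ) / 2 < r (N, 0) := fun N x => by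
    have := x.2
    omega
  have dp : ∀ N k, k < r (N, 0) → 2 ^ p (N, k) ≤ 2 ^ (N + 2) ^ ((cr + 2) * (cp + cq + 1)) :=
    fun N k hk => Nat.pow_le_pow_right (by norm_num)
      ((hcp (N, k)).trans (Wb.size N k _ cr cp _ hk (hcr (N, 0)) (by omega)))
  have dq : ∀ N k, k < r (N, 0) → 2 ^ q (N, k) ≤ 2 ^ (N + 2) ^ ((cr + 2) * (cp + cq + 1)) :=
    fun N k hk => Nat.pow_le_pow_right (by norm_num)
      ((hcq (N, k)).trans (Wb.size N k _ cr cq _ hk (hcr (N, 0)) (by omega)))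
  have i1 : (fun s : ℕ × ℕ => (Nat.unpair s.2).1 / 2) ∈ F :=
    hF.div' (hF.unpair1 hF.snd') (hF.const 2)
  have ip : (fun s : ℕ × ℕ => p (s.1, (Nat.unpair s.2).1 / 2)) ∈ F := hF.comp' hp hF.fst' i1
  have iq : (fun s : ℕ × ℕ => q (s.1, (Nat.unpair s.2).1 / 2)) ∈ F := hF.comp' hq hF.fst' i1
  have iw : (fun s : ℕ × ℕ => Nat.pair (q (s.1, (Nat.unpair s.2).1 / 2)) (Nat.unpair s.2).2) ∈ F :=
    hF.pair' iq (hF.unpair2 hF.snd')
  have uJ := kit.ite (hF.mod' (hF.unpair1 hF.snd') (hF.const 2)) (kit.const 0)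
    (kit.sel (uA.pos hF ip) (kit.sub (kit.mul (uB.pos hF iq) (uC.pos hF iw))
      (kit.mul (uA.pos hF iq) (uD.pos hF iw))) (kit.const 0))
  refine ⟨(cr + 2) * (cp + cq + 1), fun s => 2 * r s, hF.mul' (hF.const 2) hr,
    fun N x y => if (x : ℕ) % 2 = 0 then (if gt N (ex y) (p (N, x / 2)) ≠ 0 then 1 else 0)
      else if gt N (ex y) (p (N, x / 2)) ≠ 0 then gt N (ex y) (q (N, x / 2)) else 0,
    fun N y x => if (x : ℕ) % 2 = 0 then (if aeval y (pg' N y (p (N, x / 2))).1 ≠ 0 then 1 else 0)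
      else if aeval y (pg' N y (p (N, x / 2))).1 ≠ 0 then (pg' N y (q (N, x / 2))).1 else 0,
    fun N y x => if (x : ℕ) % 2 = 0 then 1
      else if aeval y (pg' N y (p (N, x / 2))).1 ≠ 0 then (pg' N y (q (N, x / 2))).2 else 1,
    _, uJ, fun N => ⟨Wb.size2 N _ cr _ (hcr (N, 0)) (by omega), ⟨fun y x => ?_, fun y x => ?_,
      fun y x => ?_, fun y x => ?_, fun y Fl hA => ?_⟩, fun y y' h => ?_, fun y x => ?_,
      fun y v hv => ?_, fun z x i => ?_⟩⟩
  · beta_reduce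
    split_ifs
    · simp
    · simp
    · exact ((L N _).1 y).1.trans (dq N _ (half N x))
    · simp
  · beta_reduce
    split_ifs
    · simp
    · exact ((L N _).1 y).2.1.trans (dq N _ (half N x))
    · simp
  · beta_reduce
    split_ifs
    · simp
    · exact ((L N _).1 y).2.2.1
    · simp
  · simp only [tst]
    split_ifs
    · simp
    · simp
    · exact ((L N _).1 y).2.2.2
    · simp
  · have h3 : ∀ᶠ y' in Fl, ∀ x : Fin (2 * r (N, 0)),
        pg' N y' (q (N, x / 2)) = pg' N y (q (N, x / 2)) ∧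
        (aeval y' (pg' N y' (p (N, x / 2))).1 = 0 ↔ aeval y (pg' N y (p (N, x / 2))).1 = 0) := by
      rw [Filter.eventually_all]
      intro x
      filter_upwards [(L N _).2 _ y Fl (dq N _ (half N x)) hA,
        (L N _).2 _ y Fl (dp N _ (half N x)) hA,
        hA _ (((L N _).1 y).1.trans (dp N _ (half N x)))] with y' e1 e2 e3
      exact ⟨e1, by rw [e2]; exact e3⟩
    filter_upwards [h3] with y' e
    constructor
    · funext x
      simp only [ne_eq, (e x).1, (e x).2]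
    · funext x
      simp only [ne_eq, (e x).1, (e x).2]
  · have t1 : ∀ k < r (N, 0), gt N (ex y) (p (N, k)) ≠ 0 ↔ gt N (ex y') (p (N, k)) ≠ 0 := by
      intro k hk
      have h3 := h ⟨2 * k, by show 2 * k < 2 * r (N, 0); omega⟩
      have e1 : 2 * k % 2 = 0 := by omega
      have e2 : 2 * k / 2 = k := by omega
      simp only [e1, e2, if_true] at h3
      by_cases u : gt N (ex y) (p (N, k)) ≠ 0 <;> by_cases v : gt N (ex y') (p (N, k)) ≠ 0
      · exact iff_of_true u v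
      · rw [if_pos u, if_neg v] at h3
        exact absurd h3 one_ne_zero
      · rw [if_neg u, if_pos v] at h3
        exact absurd h3 zero_ne_one
      · exact iff_of_false u v
    rw [hf', hf', List.filter_congr fun k hk => decide_eq_decide.2 (t1 k (List.mem_range.1 hk))]
    refine List.map_congr_left fun k hk => ?_
    obtain ⟨hk1, hk2⟩ := List.mem_filter.1 hk
    have hk3 := List.mem_range.1 hk1
    have v : gt N (ex y') (p (N, k)) ≠ 0 := of_decide_eq_true hk2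
    have h3 := h ⟨2 * k + 1, by show 2 * k + 1 < 2 * r (N, 0); omega⟩
    have e1 : ¬ (2 * k + 1) % 2 = 0 := by omega
    have e2 : (2 * k + 1) / 2 = k := by omega
    simp only [e1, e2, if_false] at h3
    rwa [if_pos ((t1 k hk3).2 v), if_pos v] at h3
  · beta_reduce
    split_ifs with e1 e2 e3
    · exact Or.inr (Or.inr rfl)
    · exact Or.inr (Or.inl rfl)
    · refine Or.inl ?_
      rw [hf']
      exact List.mem_map.2 ⟨_, List.mem_filter.2 ⟨List.mem_range.2 (half N x),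
        decide_eq_true e3⟩, rfl⟩
    · exact Or.inr (Or.inl rfl)
  · rw [hf'] at hv
    obtain ⟨k, hk, rfl⟩ := List.mem_map.1 hv
    obtain ⟨hk1, hk2⟩ := List.mem_filter.1 hk
    have hk3 := List.mem_range.1 hk1
    have v : gt N (ex y) (p (N, k)) ≠ 0 := of_decide_eq_true hk2
    refine ⟨⟨2 * k + 1, by show 2 * k + 1 < 2 * r (N, 0); omega⟩, ?_⟩
    have e1 : ¬ (2 * k + 1) % 2 = 0 := by omega
    have e2 : (2 * k + 1) / 2 = k := by omega
    simp only [e1, e2, if_false]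
    exact if_pos v
  · simp only [Nat.unpair_pair, jac, Matrix.of_apply, id_eq, dv', i.2, dif_pos, Fin.eta]
    split_ifs <;> simp

end Pool.Agent.MP_8a92de_lc.U43

end Row_wb
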