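import Pool.Agent.MP_8a92de_lc.U43.Stmts

section Row_squ
namespace Pool.Agent.MP_8a92de_lc.U43

theorem squ : SQU := by
  intro F hF t K c
  have hα : (fun p : ℕ × ℕ => 2 * (p.2 - 1) + 1) ∈ F :=
    hF.add' (hF.mul' (hF.const 2) (hF.sub' hF.snd' (hF.const 1))) (hF.const 1)
  have hv := K.toOps.var hα
  have hψ := K.toOps.ite hF.snd' (K.toOps.const c) (K.toOps.mul hv hv)
  refine K.iter hψ fun n k z => ?_
  rcases k with _ | k
  · simp
  · have e1 : (2 * (k + 1 - 1) + 1) % 2 ≠ 0 := by omega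
    have e2 : (2 * (k + 1 - 1) + 1) / 2 < k + 1 := by omega
    have e3 : (2 * (k + 1 - 1) + 1) / 2 = k := by omega
    simp only [if_neg (Nat.succ_ne_zero k), if_neg e1, if_pos e2]
    rw [e3, ← pow_add, ← two_mul, ← pow_succ']

end Pool.Agent.MP_8a92de_lc.U43

end Row_squ

section Row_affu
namespace Pool.Agent.MP_8a92de_lc.U43

open Pool.Agent.MP_8a92de_lc.E43 hiding Poly MAIN

namespace affux

theorem ex_pt {M n : ℕ} (w : ℕ → ℝ) (x : ℕ → ℝ) (t : ℝ) (i : ℕ) :
    ex (pt (fun u : Fin M => w u) (rs n x) t) i =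
      if i < M then w i else if i < M + n then x (i - M) else if i = M + n then t else 0 := by
  split_ifs with h1 h2 h3
  · rw [ex_lt _ (by omega : i < M + (n + 1))]
    exact pt_w (fun u : Fin M => w u) (rs n x) t ⟨i, h1⟩
  · rw [ex_lt _ (by omega : i < M + (n + 1))]
    refine Eq.trans (congrArg _ (Fin.ext ?_)) (pt_x (fun u : Fin M => w u) (rs n x) t
      ⟨i - M, by omega⟩)
    show i = M + (i - M)
    omega
  · rw [ex_lt _ (by omega : i < M + (n + 1))]
    exact Eq.trans (congrArg _ (Fin.ext h3)) (pt_t (fun u : Fin M => w u) (rs n x) t)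
  · exact ex_ge _ (by omega)

end affux

theorem affu (h : SQU) : AFFU := by
  intro F hF t K c M hM m _ σ hσ
  have z0 := hF.const 0
  have s1 := hF.unpair1 hF.snd'
  have s2 := hF.unpair2 hF.snd'
  have hS := hF.comp' hσ hF.fst' z0
  have hW := hF.comp' hM hF.fst' z0
  have sq := h F hF t K c
  have b0 := sq.pos hF (hF.mul' hS (hF.pair' s1 (hF.pair' (hF.const 1) s2)))
  have b1 := sq.pos hF (hF.mul' hS (hF.pair' (hF.unpair1 s1)
    (hF.pair' (hF.const 2) (hF.pair' (hF.unpair2 s1) s2))))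
  have b2 := K.add b0 (K.sum hF.fst' (K.mul b1 (K.var s2)))
  have b3 := sq.pos hF (hF.mul' hS (hF.pair' s1 (hF.const (Nat.pair 0 0))))
  refine (K.ite_lt s2 hW b2 (K.ite_lt s2 (hF.add' hW hF.fst') (K.var (hF.sub' s2 hW))
    (K.ite_eq s2 (hF.add' hW hF.fst') (K.mul b3 b3) (K.const 0)))).congr fun n k z => ?_
  simp only [Nat.unpair_pair, Finset.sum_range, ← pow_two]
  exact affux.ex_pt (fun u => c ^ 2 ^ (σ (n, 0) * Nat.pair (Nat.unpair k).1 (Nat.pair 1 u)) +
    ∑ l : Fin n, c ^ 2 ^ (σ (n, 0) * Nat.pair (Nat.unpair k).1 (Nat.pair 2 (Nat.pair u l))) * z l)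
    z _ _

end Pool.Agent.MP_8a92de_lc.U43

end Row_affu

section Row_detu
namespace Pool.Agent.MP_8a92de_lc.U43

namespace detu

open Finset

/-- the Faddeev-LeVerrier matrices with natural indices -/
noncomputable def fn (R : ℕ) (a : ℕ → ℕ → ℝ) : ℕ → ℕ → ℕ → ℝ
  | 0 => fun c i => if c = i then 1 else 0
  | s + 1 => fun c i => ∑ l ∈ range R, a c l * fn R a s l i -
      if c = i then (∑ u ∈ range R, ∑ l ∈ range R, a u l * fn R a s l u) / ((s + 1 : ℕ) : ℝ)
      else 0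

theorem mul_eq {R : ℕ} (a f : ℕ → ℕ → ℝ) {N : Matrix (Fin R) (Fin R) ℝ}
    (h : ∀ c i : Fin R, N c i = f c i) (c i : Fin R) :
    ((Matrix.of fun c i : Fin R => a c i) * N) c i = ∑ l ∈ range R, a c l * f l i := by
  rw [Matrix.mul_apply, ← Fin.sum_univ_eq_sum_range (fun l => a c l * f l i)]
  exact sum_congr rfl fun l _ => by rw [h, Matrix.of_apply]

theorem tr_eq {R : ℕ} (a f : ℕ → ℕ → ℝ) {N : Matrix (Fin R) (Fin R) ℝ}
    (h : ∀ c i : Fin R, N c i = f c i) :
    ((Matrix.of fun c i : Fin R => a c i) * N).trace =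
      ∑ u ∈ range R, ∑ l ∈ range R, a u l * f l u := by
  rw [← Fin.sum_univ_eq_sum_range (fun u => ∑ l ∈ range R, a u l * f l u)]
  exact sum_congr rfl fun u _ => mul_eq a f h u u

theorem fn_eq (R : ℕ) (a : ℕ → ℕ → ℝ) (s : ℕ) : ∀ c i : Fin R,
    E43.flN (Matrix.of fun c i : Fin R => a c i) s c i = fn R a s c i := by
  induction s with
  | zero =>
    intro c i
    rw [E43.flN, fn, Matrix.one_apply]
    exact if_congr Fin.ext_iff rfl rfl
  | succ s ih =>
    intro c i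
    rw [E43.flN, fn, Matrix.sub_apply, Matrix.smul_apply, mul_eq a _ ih, tr_eq a _ ih,
      Matrix.one_apply, smul_eq_mul, mul_ite, mul_one, mul_zero, inv_mul_eq_div]
    exact congrArg _ (if_congr Fin.ext_iff rfl rfl)

theorem det_eq (h : E43.FL) (R : ℕ) (a : ℕ → ℕ → ℝ) :
    (Matrix.of fun c i : Fin R => a c i).det = if R = 0 then 1 else
      (if (R - 1) % 2 = 0 then 1 else -1) *
        ((∑ u ∈ range R, ∑ l ∈ range R, a u l * fn R a (R - 1) l u) / (R : ℝ)) := by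
  cases R with
  | zero => simp
  | succ s =>
    rw [if_neg (Nat.succ_ne_zero s), h ℝ s, tr_eq a _ (fn_eq _ a s), inv_mul_eq_div,
      Nat.add_sub_cancel]
    congr 1
    split_ifs with h1
    · exact (Nat.even_iff.2 h1).neg_one_pow
    · exact (Nat.odd_iff.2 (by omega)).neg_one_pow

theorem lt_sq {R l u : ℕ} (hl : l < R) (hu : u < R) : R * l + u < R * R :=
  calc R * l + u < R * (l + 1) := by rw [Nat.mul_succ]; omega
    _ ≤ R * R := Nat.mul_le_mul_left R hl

theorem dec {R l u : ℕ} (s : ℕ) (hl : l < R) (hu : u < R) :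
    (R * R * s + (R * l + u)) / (R * R) = s ∧ (R * R * s + (R * l + u)) % (R * R) / R = l ∧
      (R * R * s + (R * l + u)) % R = u := by
  have h0 : 0 < R := by omega
  refine ⟨?_, ?_, ?_⟩
  · rw [Nat.mul_add_div (Nat.mul_pos h0 h0), Nat.div_eq_of_lt (lt_sq hl hu), Nat.add_zero]
  · rw [Nat.mul_add_mod, Nat.mod_eq_of_lt (lt_sq hl hu), Nat.mul_add_div h0,
      Nat.div_eq_of_lt hu, Nat.add_zero]
  · rw [Nat.mul_assoc, Nat.mul_add_mod, Nat.mul_add_mod, Nat.mod_eq_of_lt hu]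

/-- all entries of all matrices in one list -/
noncomputable def ch (R : ℕ) (a : ℕ → ℕ → ℝ) (k : ℕ) : ℝ :=
  fn R a (k / (R * R)) (k % (R * R) / R) (k % R)

theorem ch_eq {R l u : ℕ} (a : ℕ → ℕ → ℝ) (s : ℕ) (hl : l < R) (hu : u < R) :
    ch R a (R * R * s + (R * l + u)) = fn R a s l u := by
  obtain ⟨h1, h2, h3⟩ := dec s hl hu
  rw [ch, h1, h2, h3]

/-- one entry of a product; even inputs are the inputs, odd inputs the entries -/
noncomputable def pr (R : ℕ) (A : ℕ → (ℕ → ℝ) → ℝ) (s c i : ℕ) (w : ℕ → ℝ) : ℝ :=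
  ∑ l ∈ range R, A (Nat.pair c l) (fun j => w (2 * j)) * w (2 * (R * R * s + (R * l + i)) + 1)

theorem pr_eq {R : ℕ} (A : ℕ → (ℕ → ℝ) → ℝ) (s c : ℕ) {i : ℕ} (hi : 0 < R → i < R)
    {z w : ℕ → ℝ} (h1 : ∀ j, w (2 * j) = z j)
    (h2 : ∀ j < R * R * (s + 1), w (2 * j + 1) = ch R (fun c l => A (Nat.pair c l) z) j) :
    pr R A s c i w =
      ∑ l ∈ range R, A (Nat.pair c l) z * fn R (fun c l => A (Nat.pair c l) z) s l i := by
  refine sum_congr rfl fun l hl => ?_
  have hl' := mem_range.1 hl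
  have hi' := hi (by omega)
  have := lt_sq hl' hi'
  rw [funext h1, h2 _ (by rw [Nat.mul_succ]; omega), ch_eq _ s hl' hi']

end detu

open detu Finset in
theorem detu (h : E43.FL) : DETU := by
  intro F hF t hK r hr A hA
  have hR : (fun p : ℕ × ℕ => r (p.1, 0)) ∈ F := hF.comp' hr hF.fst' (hF.const 0)
  have hRR := hF.mul' hR hR
  have u1 := hF.unpair1 hF.snd'
  have u2 := hF.unpair2 hF.snd'
  have hA' : UF F t fun n k w => A n k fun j => w (2 * j) :=
    (hK.subst hA (hK.var hF.snd') hF.fst' hF.snd' (hF.mul' (hF.const 2) u2)).congr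
      fun n k z => by simp only [Nat.unpair_pair]
  have hP : UF F t fun n m w => pr (r (n, 0)) (A n) (Nat.unpair m).1
      (Nat.unpair (Nat.unpair m).2).1 (Nat.unpair (Nat.unpair m).2).2 w :=
    (hK.sum hR (hK.mul (hA'.pos hF (hF.pair' (hF.unpair1 (hF.unpair2 u1)) u2))
      (hK.var (hF.add' (hF.mul' (hF.const 2) (hF.add' (hF.mul' hRR (hF.unpair1 u1))
        (hF.add' (hF.mul' hR u2) (hF.unpair2 (hF.unpair2 u1))))) (hF.const 1))))).congr
      fun n k z => by simp only [Nat.unpair_pair, pr]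
  have hT : UF F t fun n s w => ∑ u ∈ range (r (n, 0)), pr (r (n, 0)) (A n) s u u w :=
    (hK.sum hR (hP.pos hF (hF.pair' u1 (hF.pair' u2 u2)))).congr
      fun n k z => by simp only [Nat.unpair_pair]
  have hs := hF.div' hF.snd' hRR
  have hc := hF.div' (hF.mod' hF.snd' hRR) hR
  have hi := hF.mod' hF.snd' hR
  have hs1 := hF.sub' hs (hF.const 1)
  have hχ : UF F t fun n k z => ch (r (n, 0)) (fun c l => A n (Nat.pair c l) z) k := by
    refine hK.iter (hK.ite hs (hK.ite_eq hc hi (hK.const 1) (hK.const 0))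
      (hK.sub (hP.pos hF (hF.pair' hs1 (hF.pair' hc hi)))
        (hK.ite_eq hc hi (hK.div (hT.pos hF hs1) (hK.nat hs)) (hK.const 0)))) fun n k z => ?_
    simp only [Nat.unpair_pair]
    generalize r (n, 0) = R
    have hk := Nat.mul_div_le k (R * R)
    rw [ch]
    generalize k / (R * R) = s at hk
    cases s with
    | zero => rw [if_pos rfl, fn]
    | succ s =>
      have e1 : ∀ j, 2 * j % 2 = 0 := fun j => by omega
      have e2 : ∀ j, 2 * j / 2 = j := fun j => by omega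
      have e3 : ∀ j, ¬ (2 * j + 1) % 2 = 0 := fun j => by omega
      have e4 : ∀ j, (2 * j + 1) / 2 = j := fun j => by omega
      have key := fun (c i : ℕ) (hi : 0 < R → i < R) => pr_eq (A n) s c hi (z := z)
        (w := fun i => if i % 2 = 0 then z (i / 2) else
          if i / 2 < k then ch R (fun c l => A n (Nat.pair c l) z) (i / 2) else 0)
        (fun j => by rw [if_pos (e1 j), e2])
        (fun j hj => by rw [if_neg (e3 j), e4, if_pos (by omega)])
      rw [if_neg (Nat.succ_ne_zero s), fn, Nat.add_sub_cancel, key _ _ (Nat.mod_lt k),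
        sum_congr rfl fun u hu => key u u fun _ => mem_range.1 hu]
  have hY := hK.ite (hF.mod' hF.snd' (hF.const 2)) (hK.var (hF.div' hF.snd' (hF.const 2)))
    (hχ.pos hF (hF.div' hF.snd' (hF.const 2)))
  have hR1 := hF.sub' hR (hF.const 1)
  refine (hK.ite hR (hK.const 1) (hK.mul (hK.ite (hF.mod' hR1 (hF.const 2)) (hK.const 1)
    (hK.const (-1))) (hK.div (hK.subst hT hY hF.fst' hR1 u2) (hK.nat hR)))).congr fun n k z => ?_
  simp only [Nat.unpair_pair]
  rw [det_eq h _ fun c l => A n (Nat.pair c l) z]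
  congr 3
  refine sum_congr rfl fun u hu => (pr_eq (A n) _ u (fun _ => mem_range.1 hu) (fun j => ?_)
    fun j _ => ?_).symm
  · rw [if_pos (by omega), show 2 * j / 2 = j by omega]
  · rw [if_neg (by omega), show (2 * j + 1) / 2 = j by omega]

end Pool.Agent.MP_8a92de_lc.U43

end Row_detu

section Row_delta
namespace Pool.Agent.MP_8a92de_lc.U43

theorem delta (h1 : DETU) (h2 : SQU) : DELTA := by
  intro F hF t K c N hN M hM m hm σ hσ Y J hY hJ
  have z0 := hF.const 0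
  have s1 := hF.unpair1 hF.snd'
  have s2 := hF.unpair2 hF.snd'
  have s11 := hF.unpair1 s1
  have s12 := hF.unpair2 s1
  have t1 := (h2 F hF t K c).pos hF (hF.mul' (hF.comp' hσ hF.fst' z0)
    (hF.pair' s11 (hF.pair' (hF.const 3) (hF.pair' (hF.unpair1 s12) s2))))
  have t2 := K.subst hJ hY (hF.comp' hN hF.fst' z0) (hF.pair' s2 (hF.unpair2 s12))
    (hF.pair' (hF.unpair1 s11) s2)
  have e := K.sum (hF.comp' hm hF.fst' z0) (K.mul t1 t2)
  have a := K.repar e (hF.unpair1 hF.fst') (hF.pair' (hF.unpair2 hF.fst') hF.snd')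
  have d := h1 F hF t K _ (hF.comp' hM (hF.unpair1 hF.fst') z0) _ a
  refine (K.repar d (hF.pair' hF.fst' hF.snd') z0).congr fun n j z => ?_
  rw [Nat.unpair_pair]
  congr 1
  ext u i
  simp only [Matrix.of_apply, Nat.unpair_pair, Finset.sum_range]

end Pool.Agent.MP_8a92de_lc.U43

end Row_delta

section Row_selu
namespace Pool.Agent.MP_8a92de_lc.U43

theorem selu : SELU := by
  intro F hF hK k hk δ Y hδ hY
  have u1 : (fun p : ℕ × ℕ => (Nat.unpair p.2).1) ∈ F := hF.unpair1 hF.snd'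
  have u2 : (fun p : ℕ × ℕ => (Nat.unpair p.2).2) ∈ F := hF.unpair2 hF.snd'
  obtain ⟨E, hE, eE⟩ : ∃ E : Fam, UF F (fun a => a ≠ 0) E ∧
      ∀ n j z, E n j z = ∑ i ∈ Finset.range j, δ n i z * δ n i z :=
    ⟨_, hK.sum hF.snd' (hK.mul (hδ.pos hF u2) (hδ.pos hF u2)), fun n j z => by
      simp only [Nat.unpair_pair]⟩
  obtain ⟨I, hI, eI⟩ : ∃ I : Fam, UF F (fun a => a ≠ 0) I ∧ ∀ n j z,
      (δ n j z = 0 → I n j z = 0) ∧ (E n j z ≠ 0 → I n j z = 0) ∧
        (δ n j z ≠ 0 → E n j z = 0 → I n j z = 1) := by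
    refine ⟨_, hK.sel hδ (hK.sel hE (hK.const 0) (hK.const 1)) (hK.const 0), fun n j z =>
      ⟨fun h => if_neg (not_not.2 h), fun h => ?_,
        fun h h' => (if_pos h).trans (if_neg (not_not.2 h'))⟩⟩
    by_cases hd : δ n j z ≠ 0
    · exact (if_pos hd).trans (if_pos h)
    · exact if_neg hd
  obtain ⟨W, hW, eW⟩ : ∃ W : Fam, UF F (fun a => a ≠ 0) W ∧
      ∀ n i z, W n i z = ∑ j ∈ Finset.range (k (n, 0)), I n j z * Y n (Nat.pair j i) z :=
    ⟨_, hK.sum (hF.comp' hk hF.fst' (hF.const 0))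
      (hK.mul (hI.pos hF u2) (hY.pos hF (hF.pair' u2 u1))), fun n i z => by
      simp only [Nat.unpair_pair]⟩
  refine ⟨W, hW, fun n z h => ?_⟩
  classical
  have h0 := Nat.find_spec h
  have h1 : ∀ j < Nat.find h, δ n j z = 0 := fun j hj => by
    by_contra hne
    exact Nat.find_min h hj ⟨hj.trans h0.1, hne⟩
  generalize Nat.find h = j0 at h0 h1
  refine ⟨j0, h0.1, h0.2, fun i => ?_⟩
  rw [eW, Finset.sum_eq_single j0]
  · rw [(eI n j0 z).2.2 h0.2, one_mul]
    rw [eE]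
    exact Finset.sum_eq_zero fun j hj => by rw [h1 j (Finset.mem_range.1 hj), mul_zero]
  · intro j _ hj
    rcases lt_or_gt_of_ne hj with hl | hl
    · rw [(eI n j z).1 (h1 j hl), zero_mul]
    · rw [(eI n j z).2.1, zero_mul]
      rw [eE]
      exact (Finset.sum_pos' (fun i _ => mul_self_nonneg (δ n i z))
        ⟨j0, Finset.mem_range.2 hl, mul_self_pos.2 h0.2⟩).ne'
  · intro hj
    exact absurd (Finset.mem_range.2 h0.1) hj

end Pool.Agent.MP_8a92de_lc.U43

end Row_selu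

section Row_sredu
namespace Pool.Agent.MP_8a92de_lc.U43

open Pool.Agent.MP_8a92de_lc.E43 hiding Poly MAIN

namespace sredux

theorem out_lt (A B : Fam) (r N a : ℕ) (z : ℕ → ℝ) (v : ℕ → ℝ) (ha : a ≤ r)
    (hA : ∀ k, A N k z = if k < a then 1 else 0) (hB : ∀ k, B N k z = v k) :
    outF (fun a => 0 < a) A B r N z = (List.range a).map v := by
  classical
  obtain ⟨d, rfl⟩ := Nat.exists_eq_add_of_le ha
  unfold outF
  rw [List.range_add, List.filter_append, List.filter_eq_self.2, List.filter_eq_nil_iff.2,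
    List.append_nil]
  · exact List.map_congr_left fun k _ => hB k
  · intro k hk
    obtain ⟨j, _, rfl⟩ := List.mem_map.1 hk
    simp [hA]
  · intro k hk
    simp [hA, List.mem_range.1 hk]

theorem map_getD (x : List ℝ) : (List.range x.length).map (fun k => x.getD k 0) = x := by
  refine List.ext_getElem (by simp) fun i h1 h2 => ?_
  simp [List.getD_eq_getElem?_getD, List.getElem?_eq_getElem h2]

theorem ofFn_range (n : ℕ) (v : ℕ → ℝ) :
    (List.ofFn fun l : Fin n => v l) = (List.range n).map v :=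
  List.ext_getElem (by simp) fun i h1 h2 => by simp

open Classical in
/-- positive exactly in the second mode with all entries positive -/
noncomputable def yes (m p : ℕ) (z : ℕ → ℝ) : ℝ :=
  if 0 < 0 - z p then
    (if 0 < ∑ i ∈ Finset.range m, (if 0 < z i then (0 : ℝ) else 1) then 0 else 1) else 0

theorem yes_pos (m p : ℕ) (z : ℕ → ℝ) : 0 < yes m p z ↔ z p < 0 ∧ ∀ i < m, 0 < z i := by
  classical
  have h1 : 0 < ∑ i ∈ Finset.range m, (if 0 < z i then (0 : ℝ) else 1) ↔ ¬ ∀ i < m, 0 < z i := by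
    constructor
    · intro h h'
      rw [Finset.sum_eq_zero fun i hi => if_pos (h' i (Finset.mem_range.1 hi))] at h
      exact lt_irrefl _ h
    · intro h
      obtain ⟨i, hi⟩ := not_forall.1 h
      obtain ⟨h2, h3⟩ := Classical.not_imp.1 hi
      refine Finset.sum_pos' (fun j _ => ?_) ⟨i, Finset.mem_range.2 h2, ?_⟩
      · split_ifs <;> norm_num
      · rw [if_neg h3]
        exact one_pos
  unfold yes
  by_cases h : z p < 0
  · by_cases h' : ∀ i < m, 0 < z i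
    · rw [if_pos (by linarith), if_neg (mt h1.1 (not_not.2 h'))]
      exact iff_of_true one_pos ⟨h, h'⟩
    · rw [if_pos (by linarith), if_pos (h1.2 h')]
      exact iff_of_false (lt_irrefl _) fun e => h' e.2
  · rw [if_neg (by linarith [not_lt.1 h])]
    exact iff_of_false (lt_irrefl _) fun e => h e.1

end sredux

theorem sredu : SREDU := by
  classical
  intro F hF K L xy xn hy hn
  have fn : (fun p : ℕ × ℕ => (Nat.unpair p.1).1) ∈ F := hF.unpair1 hF.fst'
  have fm : (fun p : ℕ × ℕ => p.1 - ((Nat.unpair p.1).1 + 1)) ∈ F :=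
    hF.sub' hF.fst' (hF.add' fn (hF.const 1))
  have uM := K.var (hF.add' fm fn)
  have uC := K.sum fm (K.sel (K.var (hF.unpair2 hF.snd')) (K.const 0) (K.const 1))
  have uY : UF F (fun a => 0 < a) fun N _ z => sredux.yes (N - ((Nat.unpair N).1 + 1))
      (N - ((Nat.unpair N).1 + 1) + (Nat.unpair N).1) z :=
    (K.sel (K.sub (K.const 0) uM) (K.sel uC (K.const 0) (K.const 1)) (K.const 0)).congr
      fun N k z => by
        unfold sredux.yes
        simp only [Nat.unpair_pair]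
  have uA := K.sel uM (K.ite_lt hF.snd' fn (K.const 1) (K.const 0))
    (K.sel uY (K.ite_lt hF.snd' (hF.const xy.length) (K.const 1) (K.const 0))
      (K.ite_lt hF.snd' (hF.const xn.length) (K.const 1) (K.const 0)))
  have uB := K.sel uM (K.var (hF.add' fm hF.snd')) (K.sel uY (K.cst xy) (K.cst xn))
  refine ⟨_, K.poly (hF.add' fn (hF.const (xy.length + xn.length))) uA uB fun _ => rfl,
    fun y => ?_⟩
  obtain ⟨z, hz⟩ : ∃ z : ℕ → ℝ, z = fun i => y.getD i 0 := ⟨_, rfl⟩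
  obtain ⟨n, e1⟩ : ∃ n, n = (Nat.unpair y.length).1 := ⟨_, rfl⟩
  obtain ⟨m, e2⟩ : ∃ m, m = y.length - (n + 1) := ⟨_, rfl⟩
  have e3 : y ∈ SL L ↔ (0 < z (m + n) ∧ (List.ofFn fun l : Fin n => z (m + l)) ∈ L) ∨
      (z (m + n) < 0 ∧ ∀ i < m, 0 < z i) := by
    subst e2 e1 hz
    exact Iff.rfl
  rw [e3, ← sredux.yes_pos, ← hz]
  by_cases ha : 0 < z (m + n)
  · have hb : ¬ 0 < sredux.yes m (m + n) z := fun h =>
      ((sredux.yes_pos _ _ _).1 h).1.not_gt ha
    rw [sredux.out_lt _ _ _ _ n z (fun k => z (m + k)) (by rw [← e1]; omega)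
      (fun k => by simp only [← e1, ← e2, if_pos ha]) (fun k => by simp only [← e1, ← e2, if_pos ha]),
      sredux.ofFn_range n fun k => z (m + k)]
    exact ⟨fun h => (h.resolve_right hb).2, fun h => Or.inl ⟨ha, h⟩⟩
  · by_cases hb : 0 < sredux.yes m (m + n) z
    · rw [sredux.out_lt _ _ _ _ xy.length z (fun k => xy.getD k 0) (by omega)
        (fun k => by simp only [← e1, ← e2, if_neg ha, if_pos hb])
        (fun k => by simp only [← e1, ← e2, if_neg ha, if_pos hb]), sredux.map_getD]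
      exact ⟨fun _ => hy, fun _ => Or.inr hb⟩
    · rw [sredux.out_lt _ _ _ _ xn.length z (fun k => xn.getD k 0) (by omega)
        (fun k => by simp only [← e1, ← e2, if_neg ha, if_neg hb])
        (fun k => by simp only [← e1, ← e2, if_neg ha, if_neg hb]), sredux.map_getD]
      exact ⟨fun h => h.elim (fun h => absurd h.1 ha) fun h => absurd h hb,
        fun h => absurd h hn⟩

end Pool.Agent.MP_8a92de_lc.U43

end Row_sredu

section Row_kronu
namespace Pool.Agent.MP_8a92de_lc.U43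

open MvPolynomial
open Pool.Agent.MP_8a92de_lc.E43 hiding Poly MAIN

namespace kronux

theorem code_inj {n M m : ℕ} : Function.Injective (code : Par n M m → ℕ) := by
  rintro (u | ⟨i, _ | l⟩ | ⟨c, a⟩) (u' | ⟨i', _ | l'⟩ | ⟨c', a'⟩) h <;>
    simp only [code, Nat.pair_eq_pair, Fin.val_inj] at h <;> simp_all

end kronux

theorem kronu (h : E43.GEN1) : KRONU := by
  intro K0 c hc n M m σ B hB T hT h0
  refine h K0 K0 (Fin (n + 1) × Par n M m)
    (fun v => Polynomial.X ^ (2 ^ σ) ^ Nat.pair v.1 (code v.2))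
    (fun v => Nat.pair v.1 (code v.2)) (2 ^ σ) B hB (fun v v' e => ?_)
    (fun v => ⟨Polynomial.monic_X_pow _, Polynomial.natDegree_X_pow _⟩) T hT ?_
  · have e' := Nat.pair_eq_pair.1 e
    exact Prod.ext (Fin.ext e'.1) (kronux.code_inj e'.2)
  · refine (transcendental_iff.1 hc) _ ?_
    rw [← AlgHom.comp_apply, comp_aeval, ← h0]
    refine congrArg (fun y => aeval y T) (funext fun v => ?_)
    rw [map_pow, Polynomial.aeval_X, th, pow_mul]

end Pool.Agent.MP_8a92de_lc.U43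

end Row_kronu

section Row_numu
namespace Pool.Agent.MP_8a92de_lc.U43

theorem numu (h : E43.NUM2) : NUMU := by
  intro c
  refine ⟨6 * (c + 1) * 9, fun n M m hM hm => ?_⟩
  have hq : 2 ≤ n + 2 := by omega
  have h4 : 16 ≤ (n + 2) ^ 4 := le_trans (by norm_num) (Nat.pow_le_pow_left hq 4)
  have h6 : 64 ≤ (n + 2) ^ 6 := le_trans (by norm_num) (Nat.pow_le_pow_left hq 6)
  have hN : M + (n + 1) + 2 ≤ (n + 2) ^ 6 := by
    have e1 : (3 * n + 3) ^ 2 = 9 * (n * n) + 18 * n + 9 := by ring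
    have e2 : (n + 2) ^ 6 = (n + 2) ^ 4 * (n * n + 4 * n + 4) := by ring
    have e3 : 16 * (n * n + 4 * n + 4) ≤ (n + 2) ^ 4 * (n * n + 4 * n + 4) :=
      Nat.mul_le_mul_right _ h4
    omega
  have hX : (n + 2) ^ 6 ≤ ((n + 2) ^ 6) ^ (c + 1) := Nat.le_self_pow (by omega) _
  have hc : (M + (n + 1) + 2) ^ c ≤ ((n + 2) ^ 6) ^ (c + 1) :=
    (Nat.pow_le_pow_left hN c).trans (Nat.pow_le_pow_right (by omega) (by omega))
  have h1 := h (((n + 2) ^ 6) ^ (c + 1)) n M m ((M + (n + 1) + 2) ^ c) (by omega) (by omega)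
    (hm.trans hc) hc
  have h2 : Fintype.card (Fin (n + 1) × E43.Par n M m) ≠ 0 :=
    (Fintype.card_pos_iff.2 ⟨(0, Sum.inl ())⟩).ne'
  have e : (n + 2) ^ (6 * (c + 1) * 9) = (((n + 2) ^ 6) ^ (c + 1)) ^ 9 := by
    rw [pow_mul, pow_mul]
  rw [e]
  exact lt_trans (lt_of_lt_of_le (Nat.lt_succ_self _) (Nat.le_self_pow h2 _)) h1

end Pool.Agent.MP_8a92de_lc.U43

end Row_numu

section Row_numv
namespace Pool.Agent.MP_8a92de_lc.U43

theorem numv : NUMV := by
  intro n
  have e1 : (3 * n + 3) ^ 2 = 9 * (n * n) + 18 * n + 9 := by ring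
  refine ⟨?_, by omega, fun n' hn' => ?_⟩
  · have : (3 * n + 3) ^ 2 - 1 + (n + 1) = Nat.pair n (3 * n + 3) := by
      rw [Nat.pair, if_pos (by omega), ← pow_two]
      omega
    rw [this, Nat.unpair_pair]
  · have h1 : (3 * n' + 3) ^ 2 ≤ (3 * n) ^ 2 := Nat.pow_le_pow_left (by omega) 2
    have e2 : (3 * n) ^ 2 = 9 * (n * n) := by ring
    omega

end Pool.Agent.MP_8a92de_lc.U43

end Row_numv

section Row_mainu
namespace Pool.Agent.MP_8a92de_lc.U43

open MvPolynomial Filter Topology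
open Pool.Agent.MP_8a92de_lc.E43 hiding Poly MAIN

theorem mainu (h1 : WB) (h2 : AFFU) (h3 : DELTA) (h4 : SELU) (h5 : KRONU) (h6 : NUMU) (h7 : NUMV)
    (h9 : PT) (h10 : TRANS) (h12 : COMPL) (h13 : OUTER) (h14 : SAME) (h15 : GOOD) :
    MAINU := by
  classical
  intro F hF K L B f hf hr
  obtain ⟨S, hS⟩ := h1 F hF K f hf
  obtain ⟨K0, t, hK0, ht⟩ := h10 S
  have t0 : t ≠ 0 := fun h => ht (h ▸ isAlgebraic_zero)
  obtain ⟨c, m, hm, G, P, Q, J, hJ, hN⟩ := hS K0 hK0
  obtain ⟨c2, hc2⟩ := h6 c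
  obtain ⟨M, hMF, hMe⟩ : ∃ M : ℕ → ℕ, (fun p : ℕ × ℕ => M p.1) ∈ F ∧
      ∀ n, M n = (3 * n + 3) ^ 2 - 1 :=
    ⟨fun n => (3 * n + 3) ^ 2 - 1, hF.sub' (hF.pow' (hF.add' (hF.mul' (hF.const 3) hF.fst')
      (hF.const 3)) 2) (hF.const 1), fun _ => rfl⟩
  have hnum : ∀ n, (Nat.unpair (M n + (n + 1))).1 = n ∧ 2 * n < M n ∧
      ∀ n' < n, n + (M n' + (n' + 1)) < M n := fun n => by
    simp only [hMe]; exact h7 n
  have hNF : (fun p : ℕ × ℕ => M p.1 + (p.1 + 1)) ∈ F :=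
    hF.add' hMF (hF.add' hF.fst' (hF.const 1))
  have hmF : (fun p : ℕ × ℕ => m (M p.1 + (p.1 + 1), 0)) ∈ F := hF.comp' hm hNF (hF.const 0)
  have hσF : (fun p : ℕ × ℕ => (p.1 + 2) ^ c2) ∈ F := hF.pow' (hF.add' hF.fst' (hF.const 2)) c2
  obtain ⟨d, hd⟩ : ∃ d : ℕ → ℕ, ∀ N, d N = 2 ^ (N + 2) ^ c := ⟨_, fun _ => rfl⟩
  have d1 : ∀ N, 1 ≤ d N := fun N => by rw [hd]; exact Nat.one_le_two_pow
  have dm : ∀ N N', N' ≤ N → d N' ≤ d N := fun N N' h => by
    rw [hd, hd]
    exact Nat.pow_le_pow_right (by norm_num) (Nat.pow_le_pow_left (by omega) _)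
  have hloc : ∀ N, IsLoc K0 (d N) (G N) (P N) (Q N) := fun N => by
    rw [hd]; exact (hN N).2.1
  obtain ⟨e, he⟩ : ∃ e : ℕ → ℕ, ∀ n, e n = 2 * (M n * (2 * d (M n + (n + 1)) + 1)) :=
    ⟨_, fun _ => rfl⟩
  obtain ⟨w, hw⟩ : ∃ w : ℕ → ℕ, ∀ n,
      w n = Fintype.card (Fin (n + 1) × Par n (M n) (m (M n + (n + 1), 0))) + M n :=
    ⟨_, fun _ => rfl⟩
  obtain ⟨Θ, hΘe⟩ : ∃ Θ : ∀ n, Fin (n + 1) × Par n (M n) (m (M n + (n + 1), 0)) → ℝ,
      ∀ n, Θ n = fun v => th t ((n + 2) ^ c2) v.1 v.2 := ⟨_, fun _ => rfl⟩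
  have hG : ∀ n, Gen K0 (eb (e n) (w n)) (Θ n) := fun n => by
    rw [hΘe]
    refine h5 K0 t ht n _ _ _ _ ?_
    rw [he, hw, hd]
    exact hc2 n _ _ (hMe n) (hN _).1
  have hM : ∀ n, n + 1 ≤ M n := fun n => by have := (hnum n).2.1; omega
  have e4 : ∀ n, 4 * d (M n + (n + 1)) ≤ e n ∧ 1 ≤ e n := fun n => by
    have := hM n
    have := d1 (M n + (n + 1))
    rw [he]
    constructor <;> nlinarith
  obtain ⟨Y, hY, hYe⟩ : ∃ Y : Fam, UF F (fun a => a ≠ 0) Y ∧ ∀ n (j : Fin (n + 1))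
      (x : Fin n → ℝ) (l : ℕ), Y n (Nat.pair j l) (ex x) = ex (gP (fun s => Θ n (j, s)) x) l := by
    refine ⟨_, h2 F hF _ K t _ hMF _ hmF _ hσF, fun n j x l => ?_⟩
    have : rs n (ex x) = x := funext fun i => ex_val x i
    simp only [Nat.unpair_pair, this, hΘe]
  obtain ⟨δ, hδ, hδe⟩ : ∃ δ : Fam, UF F (fun a => a ≠ 0) δ ∧ ∀ n (j : Fin (n + 1))
      (x : Fin n → ℝ), δ n j (ex x) = (Rm (fun s => Θ n (j, s)) *
        jw (P _ (gP (fun s => Θ n (j, s)) x)) (Q _ (gP (fun s => Θ n (j, s)) x))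
          (gP (fun s => Θ n (j, s)) x)).det := by
    refine ⟨_, h3 F hF _ K t _ hNF _ hMF _ hmF _ hσF Y J hY hJ, fun n j x => ?_⟩
    have e1 : rs (M n + (n + 1)) (fun l => Y n (Nat.pair j l) (ex x)) =
        gP (fun s => Θ n (j, s)) x := funext fun i => (hYe n j x i).trans (ex_val _ i)
    refine congrArg Matrix.det (Matrix.ext fun u i => ?_)
    rw [Matrix.mul_apply, Matrix.of_apply]
    refine Finset.sum_congr rfl fun a _ => ?_
    have e2 := (hN (M n + (n + 1))).2.2.2.2.2 (fun l => Y n (Nat.pair j l) (ex x)) a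
      (Fin.castAdd (n + 1) i)
    rw [e1] at e2
    refine congrArg₂ (· * ·) ?_ e2
    rw [hΘe]
    rfl
  obtain ⟨W0, hW0, hW⟩ := h4 F hF K _ (hF.add' hF.fst' (hF.const 1)) δ Y hδ hY
  obtain ⟨W, hWe⟩ : ∃ W : ∀ n, (Fin n → ℝ) → Fin (M n + (n + 1)) → ℝ,
      ∀ n x i, W n x i = W0 n i (ex x) := ⟨_, fun _ _ _ => rfl⟩
  have key : ∀ n (x : Fin n → ℝ), ∃ j : Fin (n + 1), W n x = gP (fun s => Θ n (j, s)) x ∧
      ∀ z, (jw (P _ (W n x)) (Q _ (W n x)) (W n x)).mulVec z = 0 → z = 0 := by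
    intro n x
    obtain ⟨j0, hj0⟩ := h12 ℝ K0 _ n (e n) (w n) (Θ n) (hG n) (e4 n).2
      (by rw [hw]; have := hM n; omega) x
    have hgood := h15 K0 n (M n) _ _ (e n) _ x L B f _ _ _ hj0 (he n).ge
      (by have := hM n; omega) (hnum n).1 (hloc _) hr (hN _).2.2.1
    obtain ⟨j, hj1, hj, hWj⟩ := hW n (ex x) ⟨j0, j0.2, by rw [hδe]; exact hgood⟩
    have hWj' : W n x = gP (fun s => Θ n (⟨j, hj1⟩, s)) x := funext fun i => by
      rw [hWe, hWj]
      exact (hYe n ⟨j, hj1⟩ x i).trans (ex_val _ i)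
    refine ⟨⟨j, hj1⟩, hWj', fun z hz => ?_⟩
    rw [hWj'] at hz
    refine Matrix.eq_zero_of_mulVec_eq_zero ((hδe n ⟨j, hj1⟩ x).symm.trans_ne hj) ?_
    rw [← Matrix.mulVec_mulVec, hz, Matrix.mulVec_zero]
  choose j hj hinj using key
  have build : ∀ n (x : Fin n → ℝ) (N' : ℕ) (y' : Fin N' → ℝ),
      (∀ v ∈ f (List.ofFn (W n x)), ∃ P' Q' : MvPolynomial (Fin N') K0,
        P'.totalDegree ≤ d (M n + (n + 1)) ∧ Q'.totalDegree ≤ d (M n + (n + 1)) ∧
        aeval y' Q' ≠ 0 ∧ v = aeval y' P' / aeval y' Q') →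
      ∃ P' Q', Hyp K0 (d (M n + (n + 1))) (e n) (w n) (Θ n) (j n x) x y'
        (P _ (W n x)) (Q _ (W n x)) P' Q' := by
    intro n x N' y' hu
    have : ∀ a, ∃ P' Q' : MvPolynomial (Fin N') K0,
        P'.totalDegree ≤ d (M n + (n + 1)) ∧ Q'.totalDegree ≤ d (M n + (n + 1)) ∧
        aeval y' Q' ≠ 0 ∧ G _ a (W n x) = aeval y' P' / aeval y' Q' := fun a => by
      rcases (hN (M n + (n + 1))).2.2.2.1 (W n x) a with h | h | h
      · exact hu _ h
      · exact ⟨0, 1, by simp, by simp, by simp, by simp [h]⟩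
      · exact ⟨1, 1, by simp, by simp, by simp, by simp [h]⟩
    choose P' Q' q1 q2 q3 q4 using this
    refine ⟨P', Q', hG n, (hw n).ge, (e4 n).2, (e4 n).1,
      fun b => ⟨(hloc _).degP _ b, (hloc _).degQ _ b, q1 b, q2 b⟩, fun b => ?_, fun z hz => ?_⟩
    · rw [← hj]
      exact ⟨(hloc _).neQ _ b, q3 b, ((hloc _).val _ b).symm.trans (q4 b)⟩
    · rw [← hj] at hz
      exact hinj n x z hz
  have other : ∀ n (x : Fin n → ℝ) n' (x' : Fin n' → ℝ), M n' + (n' + 1) ≤ M n + (n + 1) →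
      f (List.ofFn (W n x)) = f (List.ofFn (W n' x')) →
      ∃ P' Q', Hyp K0 (d (M n + (n + 1))) (e n) (w n) (Θ n) (j n x) x (W n' x')
        (P _ (W n x)) (Q _ (W n x)) P' Q' := by
    intro n x n' x' hN' hx
    refine build n x _ _ fun v hu => ?_
    rw [hx] at hu
    obtain ⟨a, ha⟩ := (hN _).2.2.2.2.1 _ v hu
    exact ⟨_, _, ((hloc _).degP _ a).trans (dm _ _ hN'), ((hloc _).degQ _ a).trans (dm _ _ hN'),
      (hloc _).neQ _ a, ha.symm.trans ((hloc _).val _ a)⟩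
  have lt : ∀ n (x : Fin n → ℝ) n' (x' : Fin n' → ℝ), n' < n →
      f (List.ofFn (W n x)) ≠ f (List.ofFn (W n' x')) := by
    intro n x n' x' hn hx
    have := (hnum n).2.2 n' hn
    obtain ⟨P', Q', H⟩ := other n x n' x' (by omega) hx
    have := h13 ℝ K0 _ _ _ _ _ _ _ _ _ _ _ _ _ _ _ H
    omega
  have inj : ∀ n (x : Fin n → ℝ) n' (x' : Fin n' → ℝ),
      f (List.ofFn (W n x)) = f (List.ofFn (W n' x')) → List.ofFn x = List.ofFn x' := by
    intro n x n' x' hx
    rcases lt_trichotomy n n' with h | rfl | h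
    · exact absurd hx.symm (lt _ _ _ _ h)
    · obtain ⟨P', Q', H⟩ := other n x n x' le_rfl hx
      rw [hj n x'] at H
      rw [h14 ℝ K0 _ _ _ _ _ _ _ _ _ _ _ _ _ _ _ (hnum n).2.1 H]
    · exact absurd hx (lt _ _ _ _ h)
  obtain ⟨A, B', r, hr', hA, hB, hAB⟩ := hf.fam
  have hW1 : UF F (fun a => a ≠ 0) fun n i z => if i < M n + (n + 1) then W0 n i z else 0 :=
    K.ite_lt hF.snd' hNF hW0 (K.const 0)
  refine ⟨fun x => f (List.ofFn (W x.length x.get)),
    K.poly (hF.comp' hr' hNF (hF.const 0))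
      (K.subst hA hW1 hNF hF.snd' (hF.unpair2 hF.snd'))
      (K.subst hB hW1 hNF hF.snd' (hF.unpair2 hF.snd')) fun x => ?_,
    fun x x' hx => ?_, fun x => ?_, fun x => ?_⟩
  · have hex : ex x.get = fun i => x.getD i 0 := by rw [← getD_ofFn, List.ofFn_get]
    have e1 : ex (W x.length x.get) = fun i =>
        if i < M x.length + (x.length + 1) then W0 x.length i (fun i => x.getD i 0) else 0 := by
      funext i
      split_ifs with h
      · rw [ex_lt _ h, hWe, hex]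
      · exact ex_ge _ (not_lt.1 h)
    rw [hAB, getD_ofFn, List.length_ofFn, e1]
    simp only [outF, Nat.unpair_pair]
    exact congrArg _ (List.filter_congr fun k _ => decide_eq_decide.2 Iff.rfl)
  · have := inj _ _ _ _ hx
    rwa [List.ofFn_get, List.ofFn_get] at this
  · obtain ⟨P', Q', H⟩ := build x.length x.get _ (f (List.ofFn (W x.length x.get))).get
      fun v hu => by
        obtain ⟨i, hi⟩ := List.get_of_mem hu
        exact ⟨X i, 1, by simpa using d1 _, by simp, by simp, by simp [← hi]⟩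
    have := h13 ℝ K0 _ _ _ _ _ _ _ _ _ _ _ _ _ _ _ H
    have := (hnum x.length).2.1
    show x.length < (f (List.ofFn (W x.length x.get))).length
    omega
  · show _ ↔ f (List.ofFn (W x.length x.get)) ∈ B
    rw [← hr, hj, gP, h9 L _ _ _ _ _ (hnum _).1, List.ofFn_get]
    have : 0 < Θ x.length (j x.length x.get, .inl ()) ^ 2 := by
      rw [hΘe]
      simp only [th]
      positivity
    constructor
    · exact fun h => Or.inl ⟨this, h⟩
    · rintro (h | h)
      · exact h.2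
      · exact absurd h.1 (not_lt.2 this.le)

end Pool.Agent.MP_8a92de_lc.U43

end Row_mainu
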