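import Pool.Agent.MP_8a92de_lc.U43.Defs
import Pool.Agent.MP_8a92de_lc.E43.Stmts

namespace Pool.Agent.MP_8a92de_lc.U43

open MvPolynomial
open Pool.Agent.MP_8a92de_lc.E43 hiding Poly

namespace Clone
variable {F : Set (ℕ × ℕ → ℕ)} (hF : Clone F) {α β γ δ : ℕ × ℕ → ℕ}
include hF

theorem add' (h1 : α ∈ F) (h2 : β ∈ F) : (fun p => α p + β p) ∈ F := hF.add _ h1 _ h2
theorem mul' (h1 : α ∈ F) (h2 : β ∈ F) : (fun p => α p * β p) ∈ F := hF.mul _ h1 _ h2
theorem sub' (h1 : α ∈ F) (h2 : β ∈ F) : (fun p => α p - β p) ∈ F := hF.sub _ h1 _ h2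
theorem div' (h1 : α ∈ F) (h2 : β ∈ F) : (fun p => α p / β p) ∈ F := hF.div _ h1 _ h2
theorem fst' : (fun p : ℕ × ℕ => p.1) ∈ F := hF.fst
theorem snd' : (fun p : ℕ × ℕ => p.2) ∈ F := hF.snd
theorem comp' (h : γ ∈ F) (h1 : α ∈ F) (h2 : β ∈ F) : (fun p => γ (α p, β p)) ∈ F :=
  hF.comp _ h _ h1 _ h2

theorem congr (h : α ∈ F) (e : ∀ p, β p = α p) : β ∈ F := (funext e : β = α) ▸ h

theorem mod' (h1 : α ∈ F) (h2 : β ∈ F) : (fun p => α p % β p) ∈ F :=
  hF.congr (hF.sub' h1 (hF.mul' h2 (hF.div' h1 h2))) fun _ => Nat.mod_def _ _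

theorem pow' (h : α ∈ F) (c : ℕ) : (fun p => α p ^ c) ∈ F := by
  induction c with
  | zero => exact hF.congr (hF.const 1) fun _ => pow_zero _
  | succ c ih => exact hF.congr (hF.mul' ih h) fun _ => pow_succ _ _

theorem ite_zero (h : γ ∈ F) (h1 : α ∈ F) (h2 : β ∈ F) :
    (fun p => if γ p = 0 then α p else β p) ∈ F :=
  hF.congr (hF.add' (hF.mul' (hF.sub' (hF.const 1) h) h1)
    (hF.mul' (hF.sub' (hF.const 1) (hF.sub' (hF.const 1) h)) h2)) fun p => by
      rcases hγ : γ p with _ | k <;> simp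

theorem ite_lt (h : γ ∈ F) (h' : δ ∈ F) (h1 : α ∈ F) (h2 : β ∈ F) :
    (fun p => if γ p < δ p then α p else β p) ∈ F :=
  hF.congr (hF.ite_zero (hF.sub' h' h) h2 h1) fun p => by
    by_cases e : γ p < δ p
    · rw [if_pos e, if_neg (by omega)]
    · rw [if_neg e, if_pos (by omega)]

theorem ite_eq (h : γ ∈ F) (h' : δ ∈ F) (h1 : α ∈ F) (h2 : β ∈ F) :
    (fun p => if γ p = δ p then α p else β p) ∈ F :=
  hF.congr (hF.ite_zero (hF.add' (hF.sub' h' h) (hF.sub' h h')) h1 h2) fun p => by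
    by_cases e : γ p = δ p
    · rw [if_pos e, if_pos (by omega)]
    · rw [if_neg e, if_neg (by omega)]

theorem pair' (h1 : α ∈ F) (h2 : β ∈ F) : (fun p => Nat.pair (α p) (β p)) ∈ F :=
  hF.congr (hF.ite_lt h1 h2 (hF.add' (hF.mul' h2 h2) h1)
    (hF.add' (hF.add' (hF.mul' h1 h1) h1) h2)) fun _ => rfl

theorem unpair1 (h : α ∈ F) : (fun p => (Nat.unpair (α p)).1) ∈ F :=
  have s := hF.sqrt _ h
  hF.congr (hF.ite_lt (hF.sub' h (hF.mul' s s)) s (hF.sub' h (hF.mul' s s)) s) fun p => by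
    simp only [Nat.unpair]; split_ifs <;> rfl

theorem unpair2 (h : α ∈ F) : (fun p => (Nat.unpair (α p)).2) ∈ F :=
  have s := hF.sqrt _ h
  hF.congr (hF.ite_lt (hF.sub' h (hF.mul' s s)) s s (hF.sub' (hF.sub' h (hF.mul' s s)) s))
    fun p => by simp only [Nat.unpair]; split_ifs <;> rfl

end Clone

theorem run_eq (t : ℝ → Prop) (κ : List ℝ) (o a b c : ℕ × ℕ → ℕ) (n : ℕ) (z : ℕ → ℝ) (g i : ℕ) :
    run t κ o a b c n z g i = if i < g then gate t κ o a b c n z i else 0 := by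
  induction g with
  | zero => rfl
  | succ g ih =>
    by_cases h : i = g
    · subst h
      rw [if_pos (Nat.lt_succ_self _)]
      rfl
    · rw [run, Function.update_of_ne h, ih]
      exact if_congr (by omega) rfl rfl

open Classical in
/-- unfolding of a gate; `run .. g i` is `if i < g then gate .. i else 0` by `run_eq` -/
theorem gate_eq (t : ℝ → Prop) (κ : List ℝ) (o a b c : ℕ × ℕ → ℕ) (n : ℕ) (z : ℕ → ℝ) (g : ℕ) :
    gate t κ o a b c n z g =
      if o (n, g) = 0 then κ.getD (a (n, g)) 0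
      else if o (n, g) = 1 then z (a (n, g))
      else if o (n, g) = 2 then run t κ o a b c n z g (a (n, g)) + run t κ o a b c n z g (b (n, g))
      else if o (n, g) = 3 then run t κ o a b c n z g (a (n, g)) * run t κ o a b c n z g (b (n, g))
      else if o (n, g) = 4 then run t κ o a b c n z g (a (n, g)) / run t κ o a b c n z g (b (n, g))
      else if t (run t κ o a b c n z g (a (n, g))) then run t κ o a b c n z g (b (n, g))
      else run t κ o a b c n z g (c (n, g)) := by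
  rw [gate, run, Function.update_self]

/-- families of functions of the input, indexed by the circuit number and a position -/
abbrev Fam : Type := ℕ → ℕ → (ℕ → ℝ) → ℝ

/-- uniformly computed families -/
def UF (F : Set (ℕ × ℕ → ℕ)) (t : ℝ → Prop) (φ : Fam) : Prop :=
  ∃ κ : List ℝ, ∃ o ∈ F, ∃ a ∈ F, ∃ b ∈ F, ∃ c ∈ F, ∃ p ∈ F,
    ∀ n k z, φ n k z = gate t κ o a b c n z (p (n, k))

theorem UF.congr {F : Set (ℕ × ℕ → ℕ)} {t : ℝ → Prop} {φ ψ : Fam} (h : UF F t φ)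
    (e : ∀ n k z, ψ n k z = φ n k z) : UF F t ψ := by
  obtain ⟨κ, o, ho, a, ha, b, hb, c, hc, p, hp, h⟩ := h
  exact ⟨κ, o, ho, a, ha, b, hb, c, hc, p, hp, fun n k z => (e n k z).trans (h n k z)⟩

/-- change of position, same circuit number -/
theorem UF.pos {F : Set (ℕ × ℕ → ℕ)} (hF : Clone F) {t : ℝ → Prop} {φ : Fam} (h : UF F t φ)
    {α : ℕ × ℕ → ℕ} (hα : α ∈ F) : UF F t fun n k z => φ n (α (n, k)) z := by
  obtain ⟨κ, o, ho, a, ha, b, hb, c, hc, p, hp, h⟩ := h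
  exact ⟨κ, o, ho, a, ha, b, hb, c, hc, _, hF.comp' hp hF.fst' hα, fun n k z => h n _ z⟩

open Classical in
/-- the output list of two families -/
noncomputable def outF (t : ℝ → Prop) (A B : Fam) (r n : ℕ) (z : ℕ → ℝ) : List ℝ :=
  ((List.range r).filter fun k => decide (t (A n k z))).map fun k => B n k z

theorem Poly.fam {F : Set (ℕ × ℕ → ℕ)} {t : ℝ → Prop} {f : List ℝ → List ℝ} (h : Poly F t f) :
    ∃ A B : Fam, ∃ r ∈ F, UF F t A ∧ UF F t B ∧
      ∀ x : List ℝ, f x = outF t A B (r (x.length, 0)) x.length fun i => x.getD i 0 := by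
  obtain ⟨κ, o, ho, a, ha, b, hb, c, hc, r, hr, p, hp, q, hq, h⟩ := h
  exact ⟨_, _, r, hr, ⟨κ, o, ho, a, ha, b, hb, c, hc, p, hp, fun _ _ _ => rfl⟩,
    ⟨κ, o, ho, a, ha, b, hb, c, hc, q, hq, fun _ _ _ => rfl⟩, h⟩

/-- restriction of an input -/
def rs (N : ℕ) (z : ℕ → ℝ) : Fin N → ℝ := fun i => z i

open Classical in
/-- local fractions of the first `g` gates of an equality circuit at the point `y` -/
noncomputable def pq (K0 : Subfield ℝ) (κ : ℕ → K0) (o a b c : ℕ × ℕ → ℕ) (N : ℕ)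
    (y : Fin N → ℝ) : ℕ → ℕ → MvPolynomial (Fin N) K0 × MvPolynomial (Fin N) K0
  | 0 => fun _ => (0, 1)
  | g + 1 =>
    let u := pq K0 κ o a b c N y g (a (N, g))
    let v := pq K0 κ o a b c N y g (b (N, g))
    Function.update (pq K0 κ o a b c N y g) g
      (if o (N, g) = 0 then (C (κ (a (N, g))), 1)
      else if o (N, g) = 1 then (if h : a (N, g) < N then X ⟨a (N, g), h⟩ else 0, 1)
      else if o (N, g) = 2 then (u.1 * v.2 + v.1 * u.2, u.2 * v.2)
      else if o (N, g) = 3 then (u.1 * v.1, u.2 * v.2)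
      else if o (N, g) = 4 then (if aeval y v.1 = 0 then (0, 1) else (u.1 * v.2, u.2 * v.1))
      else if aeval y u.1 = 0 then pq K0 κ o a b c N y g (c (N, g)) else v)

/-- the local fraction of gate `g` -/
noncomputable def pg (K0 : Subfield ℝ) (κ : ℕ → K0) (o a b c : ℕ × ℕ → ℕ) (N : ℕ)
    (y : Fin N → ℝ) (g : ℕ) : MvPolynomial (Fin N) K0 × MvPolynomial (Fin N) K0 :=
  pq K0 κ o a b c N y (g + 1) g

/-- value at `y` of the partial derivative number `i` (0 if `N ≤ i`) -/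
noncomputable def dv' {K0 : Subfield ℝ} {N : ℕ} (y : Fin N → ℝ) (i : ℕ)
    (T : MvPolynomial (Fin N) K0) : ℝ :=
  if h : i < N then aeval y (pderiv ⟨i, h⟩ T) else 0

/-- numbering of the parameters of a block -/
def code {n M m : ℕ} : Par n M m → ℕ
  | .inl _ => Nat.pair 0 0
  | .inr (.inl (i, none)) => Nat.pair 1 i
  | .inr (.inl (i, some l)) => Nat.pair 2 (Nat.pair i l)
  | .inr (.inr (c, a)) => Nat.pair 3 (Nat.pair c a)

/-- the parameters of block `j` -/
noncomputable def th (c : ℝ) (σ j : ℕ) {n M m : ℕ} (s : Par n M m) : ℝ :=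
  c ^ 2 ^ (σ * Nat.pair j (code s))

end Pool.Agent.MP_8a92de_lc.U43
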