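import Mathlib

namespace Pool.Agent.MP_8a92de_lc.U43

/-- A class of polynomially bounded index functions closed under arithmetic and composition. -/
structure Clone (F : Set (ℕ × ℕ → ℕ)) : Prop where
  fst : Prod.fst ∈ F
  snd : Prod.snd ∈ F
  const : ∀ c : ℕ, (fun _ => c) ∈ F
  add : ∀ α ∈ F, ∀ β ∈ F, (fun p => α p + β p) ∈ F
  mul : ∀ α ∈ F, ∀ β ∈ F, (fun p => α p * β p) ∈ F
  sub : ∀ α ∈ F, ∀ β ∈ F, (fun p => α p - β p) ∈ F
  div : ∀ α ∈ F, ∀ β ∈ F, (fun p => α p / β p) ∈ F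
  sqrt : ∀ α ∈ F, (fun p => Nat.sqrt (α p)) ∈ F
  comp : ∀ φ ∈ F, ∀ α ∈ F, ∀ β ∈ F, (fun p => φ (α p, β p)) ∈ F
  bound : ∀ α ∈ F, ∃ c : ℕ, ∀ p : ℕ × ℕ, α p ≤ (p.1 + p.2 + 2) ^ c

open Classical in
/-- The values of the first `g` gates (0 elsewhere) of circuit number `n` on input `z`: gate `g`
has operation `o (n, g)` and arguments `a (n, g)`, `b (n, g)`, `c (n, g)`. -/
noncomputable def run (t : ℝ → Prop) (κ : List ℝ) (o a b c : ℕ × ℕ → ℕ) (n : ℕ) (z : ℕ → ℝ) :
    ℕ → ℕ → ℝ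
  | 0 => fun _ => 0
  | g + 1 => Function.update (run t κ o a b c n z g) g
      (if o (n, g) = 0 then κ.getD (a (n, g)) 0
      else if o (n, g) = 1 then z (a (n, g))
      else if o (n, g) = 2 then run t κ o a b c n z g (a (n, g)) + run t κ o a b c n z g (b (n, g))
      else if o (n, g) = 3 then run t κ o a b c n z g (a (n, g)) * run t κ o a b c n z g (b (n, g))
      else if o (n, g) = 4 then run t κ o a b c n z g (a (n, g)) / run t κ o a b c n z g (b (n, g))
      else if t (run t κ o a b c n z g (a (n, g))) then run t κ o a b c n z g (b (n, g))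
      else run t κ o a b c n z g (c (n, g)))

/-- The value of gate `g`. -/
noncomputable def gate (t : ℝ → Prop) (κ : List ℝ) (o a b c : ℕ × ℕ → ℕ) (n : ℕ) (z : ℕ → ℝ)
    (g : ℕ) : ℝ :=
  run t κ o a b c n z (g + 1) g

open Classical in
/-- `f` is computed by circuits with test `t` whose tables are given by members of `F`. -/
def Poly (F : Set (ℕ × ℕ → ℕ)) (t : ℝ → Prop) (f : List ℝ → List ℝ) : Prop :=
  ∃ κ : List ℝ, ∃ o ∈ F, ∃ a ∈ F, ∃ b ∈ F, ∃ c ∈ F, ∃ r ∈ F, ∃ p ∈ F, ∃ q ∈ F, ∀ x : List ℝ,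
    f x = ((List.range (r (x.length, 0))).filter fun k =>
      decide (t (gate t κ o a b c x.length (fun i => x.getD i 0) (p (x.length, k))))).map
      fun k => gate t κ o a b c x.length (fun i => x.getD i 0) (q (x.length, k))

end Pool.Agent.MP_8a92de_lc.U43
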