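import Pool.Agent.MP_8a92de_lc.U43.Inst

namespace Pool.Agent.MP_8a92de_lc.U43

open Pool.Agent.MP_8a92de_lc.E43 (Alt)

variable {F : Set (ℕ × ℕ → ℕ)}

/-- NP of the equality model: the verifier has equality tests only -/
def NPeq (F : Set (ℕ × ℕ → ℕ)) : Set (Set (List ℝ)) :=
  {L | ∃ φ : Fam, UF F (fun a => a ≠ 0) φ ∧ ∀ x : List ℝ,
    x ∈ L ↔ ∃ z : ℕ → ℝ, (∀ i < x.length, z i = x.getD i 0) ∧ φ x.length 0 z ≠ 0}

/-- alternating polynomial time of the equality model -/
def PATeq (F : Set (ℕ × ℕ → ℕ)) : Set (Set (List ℝ)) :=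
  {L | ∃ φ : Fam, ∃ k ∈ F, UF F (fun a => a ≠ 0) φ ∧ ∀ x : List ℝ,
    x ∈ L ↔ Alt (k (x.length, 0)) fun u =>
      φ x.length 0 (fun i => if i < x.length then x.getD i 0 else u (i - x.length)) ≠ 0}

/-- order tests simulate equality tests -/
theorem sim (hF : Clone F) {φ : Fam} (h : UF F (fun a => a ≠ 0) φ) :
    UF F (fun a => 0 < a) φ := by
  classical
  obtain ⟨κ, o, ho, a, ha, b, hb, c, hc, p, hp, h⟩ := h
  have K := kit_all F hF fun a => 0 < a
  have v : ∀ {α}, α ∈ F → UF F (fun a => 0 < a) fun n k z => z (2 * α (n, k) + 1) := fun hα =>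
    K.var (hF.add' (hF.mul' (hF.const 2) hα) (hF.const 1))
  have hψ := K.ite ho ((K.cst κ).pos hF ha) (K.ite_eq ho (hF.const 1)
    (K.var (hF.mul' (hF.const 2) ha)) (K.ite_eq ho (hF.const 2) (K.add (v ha) (v hb))
    (K.ite_eq ho (hF.const 3) (K.mul (v ha) (v hb)) (K.ite_eq ho (hF.const 4)
    (K.div (v ha) (v hb)) (K.sel (K.mul (v ha) (v ha)) (v hb) (v hc))))))
  have hχ : UF F (fun a => 0 < a) fun n g z => gate (fun a => a ≠ 0) κ o a b c n z g := by
    refine K.iter hψ fun n g z => ?_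
    have e1 : ∀ j : ℕ, (2 * j + 1) % 2 = 1 := fun j => by omega
    have e2 : ∀ j : ℕ, (2 * j + 1) / 2 = j := fun j => by omega
    have e3 : ∀ j : ℕ, 2 * j % 2 = 0 := fun j => by omega
    have e4 : ∀ j : ℕ, 2 * j / 2 = j := fun j => by omega
    rw [gate_eq]
    simp only [run_eq, e1, e2, e3, e4, one_ne_zero, if_false, if_true, mul_self_pos]
  exact (hχ.pos hF hp).congr h

/-- an equality circuit checks a solution of the sparse system -/
theorem chk (hF : Clone F) (κ : List ℝ) {m ty ix I J β : ℕ × ℕ → ℕ} (hm : m ∈ F) (hty : ty ∈ F)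
    (hix : ix ∈ F) (hI : I ∈ F) (hJ : J ∈ F) (hβ : β ∈ F) :
    ∃ ψ : Fam, UF F (fun a => a ≠ 0) ψ ∧ ∀ n z, ψ n 0 z ≠ 0 ↔ (z (β (n, 0)) = 1 ∧
      ∀ e < m (n, 0), ∑ s ∈ Finset.range 4,
        (if ty (n, 4 * e + s) = 0 then κ.getD (ix (n, 4 * e + s)) 0 else z (ix (n, 4 * e + s))) *
          z (β (n, I (n, 4 * e + s))) * z (β (n, J (n, 4 * e + s))) = 0) := by
  classical
  have K := kit_all F hF fun a => a ≠ 0
  have hT := K.mul (K.mul (K.ite hty ((K.cst κ).pos hF hix) (K.var hix))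
    (K.var (hF.comp' hβ hF.fst' hI))) (K.var (hF.comp' hβ hF.fst' hJ))
  have hE := K.sum (hF.const 4) (hT.pos hF (hF.add' (hF.mul' (hF.const 4) (hF.unpair1 hF.snd'))
    (hF.unpair2 hF.snd')))
  have hS := K.sum (hF.comp' hm hF.fst' (hF.const 0))
    ((K.mul hE hE).pos hF (hF.unpair2 hF.snd'))
  have h1 := K.sub (K.var (hF.comp' hβ hF.fst' (hF.const 0))) (K.const 1)
  refine ⟨_, K.sel (K.add (K.mul h1 h1) hS) (K.const 0) (K.const 1), fun n z => ?_⟩
  simp only [Nat.unpair_pair, ne_eq, ite_not, ite_eq_right_iff, one_ne_zero, imp_false, not_not]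
  rw [add_eq_zero_iff_of_nonneg (mul_self_nonneg _)
    (Finset.sum_nonneg fun _ _ => mul_self_nonneg _),
    Finset.sum_eq_zero_iff_of_nonneg fun _ _ => mul_self_nonneg _]
  simp only [mul_self_eq_zero, sub_eq_zero, Finset.mem_range]

theorem npeq_eq (hF : Clone F) : NPeq F = NP F := by
  classical
  ext L
  constructor
  · rintro ⟨φ, hφ, h⟩
    refine ⟨_, (kit_all F hF _).mul (sim hF hφ) (sim hF hφ), fun x => ?_⟩
    simp only [h, mul_self_pos]
  · rintro ⟨φ, hφ, h⟩
    obtain ⟨κ, m, hm, ty, hty, ix, hix, I, hI, J, hJ, hq⟩ := quadu F hF φ hφ _ hF.fst'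
    obtain ⟨ψ, hψ, hc⟩ := chk hF κ hm hty hix hI hJ (hF.add' hF.fst' hF.snd')
    refine ⟨ψ, hψ, fun x => (h x).trans (((hq x.length).2.2.2 _).trans ?_)⟩
    have hb := (hq x.length).2.2.1
    simp only [hc]
    constructor
    · rintro ⟨ζ, h0, hζ⟩
      refine ⟨fun i => if i < x.length then x.getD i 0 else ζ (i - x.length),
        fun i hi => if_pos hi, by simpa using h0, fun e he => ?_⟩
      refine Eq.trans (Finset.sum_congr rfl fun s hs => ?_) (hζ e he)
      have hs' := Finset.mem_range.1 hs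
      have := (hb (4 * e + s) (by omega)).1
      simp only [add_lt_iff_neg_left, not_lt_zero, if_false, Nat.add_sub_cancel_left]
      split_ifs with h1 h2
      · rfl
      · rfl
      · exact absurd (this h1) h2
    · rintro ⟨z, hz, h0, hζ⟩
      refine ⟨fun i => z (x.length + i), h0, fun e he => ?_⟩
      refine Eq.trans (Finset.sum_congr rfl fun s hs => ?_) (hζ e he)
      have hs' := Finset.mem_range.1 hs
      have := (hb (4 * e + s) (by omega)).1
      split_ifs with h1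
      · rfl
      · rw [hz _ (this h1)]

theorem alt_congr (k : ℕ) {φ ψ : (ℕ → ℝ) → Prop} (h : ∀ u, φ u ↔ ψ u) : Alt k φ ↔ Alt k ψ := by
  rw [(funext fun u => propext (h u) : φ = ψ)]

theorem pateq_eq (hF : Clone F) : PATeq F = PAT F := by
  classical
  ext L
  constructor
  · rintro ⟨φ, k, hk, hφ, h⟩
    refine ⟨_, k, hk, (kit_all F hF _).mul (sim hF hφ) (sim hF hφ), fun x => ?_⟩
    simp only [h, mul_self_pos]
  · rintro ⟨φ, k, hk, hφ, h⟩
    have K := kit_all F hF fun a => 0 < a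
    have hk0 := hF.comp' hk hF.fst' (hF.const 0)
    have hν := hF.add' hF.fst' (hF.mul' (hF.const 2) hk0)
    have hφ' := K.subst hφ (K.ite_lt hF.snd' hν (K.var hF.snd') (K.const 0)) hF.fst' hF.snd'
      (hF.unpair2 hF.snd')
    obtain ⟨κ, m, hm, ty, hty, ix, hix, I, hI, J, hJ, hq⟩ := quadu F hF _ hφ' _ hν
    obtain ⟨ψ, hψ, hc⟩ := chk hF κ hm hty hix hI hJ (hF.add' hν (hF.mul' (hF.const 2) hF.snd'))
    refine ⟨ψ, _, hF.add' hk0 (hF.comp' hm hF.fst' (hF.const 0)), hψ, fun x => (h x).trans ?_⟩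
    obtain ⟨hm2, -, hb, hq⟩ := hq x.length
    replace hc := hc x.length
    simp only [Nat.unpair_pair] at hq hb hc ⊢
    generalize k (x.length, 0) = k0 at *
    generalize hn : x.length = n at *
    have e1 : ∀ u : ℕ → ℝ, (0 < φ n 0 fun i => if i < n then x.getD i 0 else
        if i - n < 2 * k0 then u (i - n) else 0) ↔
        Sp κ ty ix I J n (m (n, 0)) fun i => if i < n then x.getD i 0 else u (i - n) := by
      intro u
      have e : (fun i => if i < n + 2 * k0 then (if i < n then x.getD i 0 else u (i - n)) else 0) =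
          fun i => if i < n then x.getD i 0 else if i - n < 2 * k0 then u (i - n) else 0 := by
        funext i
        split_ifs <;> first | rfl | omega
      rw [← hq, ← e]
      refine ⟨fun h => ⟨_, fun _ _ => rfl, h⟩, fun ⟨z, hz, h⟩ => ?_⟩
      convert h using 2
      funext i
      split_ifs with h1 h2
      · rw [hz i h1, if_pos h2]
      · rw [hz i h1, if_neg h2]
      · rfl
    rw [E43.altpad k0 k0 _ le_rfl, alt_congr k0 e1]
    refine (E43.altex k0 (m (n, 0)) (fun u ζ => ζ 0 = 1 ∧ ∀ e < m (n, 0), ∑ s ∈ Finset.range 4,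
      (if ty (n, 4 * e + s) = 0 then κ.getD (ix (n, 4 * e + s)) 0
        else if ix (n, 4 * e + s) < n then x.getD (ix (n, 4 * e + s)) 0
        else u (ix (n, 4 * e + s) - n)) * ζ (I (n, 4 * e + s)) * ζ (J (n, 4 * e + s)) = 0)
      fun u u' ζ ζ' hu hζ h => ⟨hζ 0 (by omega) ▸ h.1, fun e he => ?_⟩).trans
      (alt_congr _ fun u => ?_)
    · refine Eq.trans (Finset.sum_congr rfl fun s hs => ?_) (h.2 e he)
      have hs' := Finset.mem_range.1 hs
      obtain ⟨b1, b2, b3⟩ := hb (4 * e + s) (by omega)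
      rw [hζ _ b2, hζ _ b3]
      split_ifs with h1 h2
      · rfl
      · rfl
      · rw [hu _ (by have := b1 h1; omega)]
    · have e2 : ∀ i, ¬ n + 2 * k0 + 2 * i < n := fun i => by omega
      have e3 : ∀ i, n + 2 * k0 + 2 * i - n = 2 * k0 + 2 * i := fun i => by omega
      simp only [hc, e2, e3, if_false]

/-- NP and PAT of the equality model have complete sets, and these form a single 1-degree -/
theorem inst_eq (hF : Clone F) (C : Set (Set (List ℝ))) (h : C = NPeq F ∨ C = PATeq F) :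
    (∃ B, Complete F C B) ∧ ∀ B B', Complete F C B → Complete F C B' →
      ∃ f, Poly F (fun a => a ≠ 0) f ∧ Function.Injective f ∧ (∀ x, x.length < (f x).length) ∧
        ∀ x, x ∈ B ↔ f x ∈ B' :=
  inst hF C (by rwa [npeq_eq hF, pateq_eq hF] at h)

end Pool.Agent.MP_8a92de_lc.U43
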