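import Pool.Agent.MP_8a92de_lc.U43.IDefs

section Row_selfu
namespace Pool.Agent.MP_8a92de_lc.U43

namespace selfu

open Classical in
/-- the part of the output list that comes from the last `s` of `R` pairs -/
noncomputable def sf (p : ℕ → Prop) (b : ℕ → ℝ) (R : ℕ) : ℕ → List ℝ
  | 0 => []
  | s + 1 => if p (R - (s + 1)) then b (R - (s + 1)) :: sf p b R s else sf p b R s

open Classical in
theorem sf_eq (p : ℕ → Prop) (b : ℕ → ℝ) (R s : ℕ) (h : s ≤ R) :
    sf p b R s = ((List.range' (R - s) s).filter fun k => decide (p k)).map b := by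
  induction s with
  | zero => rfl
  | succ s ih =>
    rw [sf, ih (by omega), List.range'_succ, show R - (s + 1) + 1 = R - s by omega]
    by_cases h1 : p (R - (s + 1))
    · rw [if_pos h1, List.filter_cons_of_pos (by simpa using h1), List.map_cons]
    · rw [if_neg h1, List.filter_cons_of_neg (by simpa using h1)]

theorem out_eq (t : ℝ → Prop) (A B : Fam) (R n : ℕ) (z : ℕ → ℝ) :
    outF t A B R n z = sf (fun k => t (A n k z)) (fun k => B n k z) R R := by
  rw [sf_eq _ _ R R le_rfl, Nat.sub_self, ← List.range_eq_range']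
  rfl

open Classical in
theorem len_eq (t : ℝ → Prop) (A B : Fam) (R n : ℕ) (z : ℕ → ℝ) :
    ((outF t A B R n z).length : ℝ) = ∑ i ∈ Finset.range R, if t (A n i z) then 1 else 0 := by
  unfold outF
  rw [List.length_map]
  induction R with
  | zero => simp
  | succ R ih =>
    rw [List.range_succ, List.filter_append, List.length_append, Nat.cast_add, ih,
      Finset.sum_range_succ]
    congr 1
    by_cases h1 : t (A n R z)
    · rw [if_pos h1, List.filter_cons_of_pos (by simpa using h1)]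
      simp
    · rw [if_neg h1, List.filter_cons_of_neg (by simpa using h1)]
      simp

theorem len_le (t : ℝ → Prop) (A B : Fam) (R n : ℕ) (z : ℕ → ℝ) :
    (outF t A B R n z).length ≤ R := by
  unfold outF
  rw [List.length_map]
  exact (List.length_filter_le _ _).trans (List.length_range).le

/-- all entries of all parts in one list -/
noncomputable def ch (p : ℕ → Prop) (b : ℕ → ℝ) (R k : ℕ) : ℝ :=
  (sf p b R (k / (R + 1))).getD (k % (R + 1)) 0

theorem ch_eq (p : ℕ → Prop) (b : ℕ → ℝ) {R i : ℕ} (s : ℕ) (hi : i < R + 1) :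
    ch p b R ((R + 1) * s + i) = (sf p b R s).getD i 0 := by
  rw [ch, Nat.mul_add_div (Nat.succ_pos R), Nat.div_eq_of_lt hi, Nat.add_zero, Nat.mul_add_mod,
    Nat.mod_eq_of_lt hi]

end selfu

open selfu in
theorem selfu : SELF := by
  intro F hF t hK A B r hr hA hB
  classical
  have hR : (fun p : ℕ × ℕ => r (p.1, 0)) ∈ F := hF.comp' hr hF.fst' (hF.const 0)
  have hR1 := hF.add' hR (hF.const 1)
  have u2 := hF.unpair2 hF.snd'
  refine ⟨(hK.sum hR (hK.sel (hA.pos hF u2) (hK.const 1) (hK.const 0))).congr fun n k z => by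
    simp only [Nat.unpair_pair, len_eq], ?_⟩
  have ev : ∀ {C : Fam}, UF F t C → UF F t fun n k w => C n k fun j => w (2 * j) := fun hC =>
    (hK.subst hC (hK.var hF.snd') hF.fst' hF.snd' (hF.mul' (hF.const 2) u2)).congr
      fun n k z => by simp only [Nat.unpair_pair]
  have hs := hF.div' hF.snd' hR1
  have hi := hF.mod' hF.snd' hR1
  have hp := hF.mul' hR1 (hF.sub' hs (hF.const 1))
  have hχ : UF F t fun n k z => ch (fun j => t (A n j z)) (fun j => B n j z) (r (n, 0)) k := by
    refine hK.iter (hK.ite hs (hK.const 0) (hK.sel ((ev hA).pos hF (hF.sub' hR hs))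
      (hK.ite hi ((ev hB).pos hF (hF.sub' hR hs)) (hK.var (hF.add' (hF.mul' (hF.const 2)
        (hF.add' hp (hF.sub' hi (hF.const 1)))) (hF.const 1))))
      (hK.var (hF.add' (hF.mul' (hF.const 2) (hF.add' hp hi)) (hF.const 1))))) fun n k z => ?_
    generalize r (n, 0) = R
    have hk := Nat.mul_div_le k (R + 1)
    have hm := Nat.mod_lt k (Nat.succ_pos R)
    rw [ch]
    generalize k / (R + 1) = s at hk
    generalize k % (R + 1) = i at hm
    cases s with
    | zero => rw [if_pos rfl, sf, List.getD_nil]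
    | succ s =>
      have e1 : ∀ j, 2 * j % 2 = 0 := fun j => by omega
      have e2 : ∀ j, 2 * j / 2 = j := fun j => by omega
      have e3 : ∀ j, ¬ (2 * j + 1) % 2 = 0 := fun j => by omega
      have e4 : ∀ j, (2 * j + 1) / 2 = j := fun j => by omega
      have e5 : ∀ j < R + 1, (R + 1) * s + j < k := fun j hj => by
        rw [Nat.mul_succ] at hk
        omega
      simp only [e1, e2, e3, e4, if_true, if_false, Nat.add_sub_cancel, Nat.succ_ne_zero,
        if_pos (e5 i hm), if_pos (e5 (i - 1) (by omega)), ch_eq _ _ s hm,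
        ch_eq _ _ s (show i - 1 < R + 1 by omega), sf]
      split_ifs with h1 h2
      · rw [h2, List.getD_cons_zero]
      · obtain ⟨i, rfl⟩ := Nat.exists_eq_succ_of_ne_zero h2
        rw [List.getD_cons_succ, Nat.succ_sub_one]
      · rfl
  refine (hK.ite_lt hF.snd' hR1 (hχ.pos hF (hF.add' (hF.mul' hR1 hR) hF.snd'))
    (hK.const 0)).congr fun n i z => ?_
  split_ifs with h1
  · rw [ch_eq _ _ _ h1, out_eq]
  · exact List.getD_eq_default _ _ ((len_le t A B _ n z).trans
      (Nat.le_of_succ_le (not_lt.1 h1)))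

end Pool.Agent.MP_8a92de_lc.U43

end Row_selfu

section Row_closeu
namespace Pool.Agent.MP_8a92de_lc.U43

open Classical in
theorem closeu.fam (h : SELF) {F : Set (ℕ × ℕ → ℕ)} (hF : Clone F) (hK : Kit F fun a => 0 < a)
    {φ A B : Fam} {r : ℕ × ℕ → ℕ} (hφ : UF F (fun a => 0 < a) φ) (hr : r ∈ F)
    (hA : UF F (fun a => 0 < a) A) (hB : UF F (fun a => 0 < a) B) (O : ℕ → (ℕ → ℝ) → List ℝ)
    (hO : ∀ n z, O n z =
      outF (fun a => 0 < a) A B (r (n, 0)) n fun i => if i < n then z i else 0) :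
    UF F (fun a => 0 < a) fun n _ z => ∑ j ∈ Finset.range (r (n, 0) + 1),
      if 0 < (((O n z).length : ℝ) - j) * (((O n z).length : ℝ) - j) then 0 else
        φ j 0 fun i => if i < j then (O n z).getD i 0 else z (n + i) := by
  obtain ⟨hl, he⟩ := h F hF _ hK A B r hr hA hB
  have u1 := hF.unpair1 hF.snd'
  have u2 := hF.unpair2 hF.snd'
  have hT := hK.ite_lt hF.snd' hF.fst' (hK.var hF.snd') (hK.const 0)
  have hl' : UF F (fun a => 0 < a) fun n _ z => ((O n z).length : ℝ) :=
    (hK.subst hl hT hF.fst' hF.snd' u2).congr fun n k z => by simp only [hO, Nat.unpair_pair]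
  have he' : UF F (fun a => 0 < a) fun n k z => (O n z).getD k 0 :=
    (hK.subst he hT hF.fst' hF.snd' u2).congr fun n k z => by simp only [hO, Nat.unpair_pair]
  have hY := hK.ite_lt u2 u1 (he'.pos hF u2) (hK.var (hF.add' hF.fst' u2))
  have hP := hK.subst hφ hY u2 (hF.const 0) (hF.pair' (hF.unpair2 u1) u2)
  have hD := hK.sub hl' (hK.nat u2)
  refine (hK.sum (hF.add' (hF.comp' hr hF.fst' (hF.const 0)) (hF.const 1))
    (hK.sel (hK.mul hD hD) (hK.const 0) hP)).congr fun n k z => ?_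
  refine Finset.sum_congr rfl fun j _ => ?_
  simp only [Nat.unpair_pair]

theorem closeu (h : SELF) : CLOSEU := by
  classical
  rintro F hF hK L ⟨φ, hφ, hL⟩ L' ⟨f, hf, hr⟩
  obtain ⟨A, B, r, hrF, hA, hB, vf⟩ := hf.fam
  refine ⟨_, closeu.fam h hF hK hφ hrF hA hB _ fun _ _ => rfl, fun x => ?_⟩
  have key : ∀ z : ℕ → ℝ, (∀ i < x.length, z i = x.getD i 0) →
      (outF (fun a => 0 < a) A B (r (x.length, 0)) x.length
        fun i => if i < x.length then z i else 0) = f x := by
    intro z hz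
    rw [vf x]
    congr 1
    funext i
    by_cases hi : i < x.length
    · rw [if_pos hi]
      exact hz i hi
    · rw [if_neg hi, List.getD_eq_default _ _ (by omega)]
  have hle : (f x).length < r (x.length, 0) + 1 := by
    rw [vf x, outF, List.length_map]
    exact Nat.lt_succ_of_le ((List.length_filter_le _ _).trans (List.length_range).le)
  have key2 : ∀ z : ℕ → ℝ, (∑ j ∈ Finset.range (r (x.length, 0) + 1),
      if 0 < (((f x).length : ℝ) - j) * (((f x).length : ℝ) - j) then 0 else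
        φ j 0 fun i => if i < j then (f x).getD i 0 else z (x.length + i)) =
      φ (f x).length 0 fun i =>
        if i < (f x).length then (f x).getD i 0 else z (x.length + i) := by
    intro z
    rw [Finset.sum_eq_single (f x).length]
    · rw [if_neg (by simp)]
    · intro j _ hj
      refine if_pos (mul_self_pos.2 (sub_ne_zero.2 ?_))
      exact_mod_cast hj.symm
    · intro hj
      exact absurd (Finset.mem_range.2 hle) hj
  rw [hr x, hL (f x)]
  constructor
  · rintro ⟨w, hw, hp⟩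
    refine ⟨fun i => if i < x.length then x.getD i 0 else w (i - x.length),
      fun i hi => if_pos hi, ?_⟩
    simp only [key _ fun i hi => if_pos hi]
    rw [key2 fun i => if i < x.length then x.getD i 0 else w (i - x.length)]
    refine lt_of_lt_of_eq hp (congrArg (φ (f x).length 0) (funext fun i => ?_))
    by_cases hi : i < (f x).length
    · rw [if_pos hi, hw i hi]
    · rw [if_neg hi, if_neg (by omega), Nat.add_sub_cancel_left]
  · rintro ⟨z, hz, hp⟩
    simp only [key z hz] at hp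
    rw [key2 z] at hp
    exact ⟨_, fun i hi => if_pos hi, hp⟩

end Pool.Agent.MP_8a92de_lc.U43

end Row_closeu

section Row_pcloseu
namespace Pool.Agent.MP_8a92de_lc.U43

open Pool.Agent.MP_8a92de_lc.E43 (Alt ALTPAD ALTEX)

namespace pcloseux

/-- the input proper -/
def cut (n : ℕ) (z : ℕ → ℝ) : ℕ → ℝ := fun i => if i < n then z i else 0

open Classical in
theorem pick (r l : ℕ) (hl : l ≤ r) (v : ℕ → ℝ) :
    ∑ j ∈ Finset.range (r + 1), (if 0 < ((l : ℝ) - j) * ((l : ℝ) - j) then 0 else v j) = v l := by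
  rw [Finset.sum_eq_single l]
  · rw [if_neg (by simp)]
  · intro j _ hj
    refine if_pos (mul_self_pos.2 (sub_ne_zero.2 ?_))
    exact_mod_cast hj.symm
  · intro h
    exact absurd (Finset.mem_range.2 (Nat.lt_succ_of_le hl)) h

end pcloseux

theorem pcloseu (h1 : SELF) (h2 : E43.ALTPAD) : PCLOSEU := by
  classical
  rintro F hF K L ⟨φ, k, hk, uφ, hL⟩ L' ⟨f, hf, hr⟩
  obtain ⟨A, B, r, fr, uA, uB, vf⟩ := hf.fam
  obtain ⟨uL, uE⟩ := h1 F hF _ K A B r fr uA uB
  obtain ⟨c, hc⟩ := hF.bound k hk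
  have fr0 : (fun p : ℕ × ℕ => r (p.1, 0)) ∈ F := hF.comp' fr hF.fst' (hF.const 0)
  have u1 := hF.unpair1 hF.snd'
  have u2 := hF.unpair2 hF.snd'
  have uC : UF F (fun a => 0 < a) fun n i z => pcloseux.cut n z i :=
    K.ite_lt hF.snd' hF.fst' (K.var hF.snd') (K.const 0)
  have uL' : UF F (fun a => 0 < a) fun n _ z =>
      ((outF (fun a => 0 < a) A B (r (n, 0)) n (pcloseux.cut n z)).length : ℝ) :=
    (K.subst uL uC hF.fst' hF.snd' u2).congr fun n j z => by simp only [Nat.unpair_pair]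
  have uE' : UF F (fun a => 0 < a) fun n i z =>
      (outF (fun a => 0 < a) A B (r (n, 0)) n (pcloseux.cut n z)).getD i 0 :=
    (K.subst uE uC hF.fst' hF.snd' u2).congr fun n j z => by simp only [Nat.unpair_pair]
  have uW := K.ite_lt u2 u1 (uE'.pos hF u2)
    (K.ite_lt (hF.sub' u2 u1) (hF.mul' (hF.const 2) (hF.comp' hk u1 (hF.const 0)))
      (K.var (hF.add' hF.fst' (hF.sub' u2 u1))) (K.const 0))
  have uψ : UF F (fun a => 0 < a) fun n j z => φ j 0 fun i => if i < j then
      (outF (fun a => 0 < a) A B (r (n, 0)) n (pcloseux.cut n z)).getD i 0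
      else if i - j < 2 * k (j, 0) then z (n + (i - j)) else 0 :=
    (K.subst uφ uW hF.snd' (hF.const 0) hF.snd').congr fun n j z => by
      simp only [Nat.unpair_pair]
  have uD := K.sub uL' (K.nat u2)
  have uS := K.sum (hF.add' fr0 (hF.const 1)) (K.sel (K.mul uD uD) (K.const 0) (uψ.pos hF u2))
  refine ⟨_, _, hF.pow' (hF.add' fr0 (hF.const 2)) c, uS, fun x => ?_⟩
  have hle : (f x).length ≤ r (x.length, 0) := by
    rw [vf x, outF, List.length_map]
    exact (List.length_filter_le _ _).trans (le_of_eq List.length_range)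
  have hk' : k ((f x).length, 0) ≤ (r (x.length, 0) + 2) ^ c :=
    (hc _).trans (Nat.pow_le_pow_left (by show (f x).length + 0 + 2 ≤ _; omega) _)
  rw [hr, hL, h2 _ _ _ hk']
  refine iff_of_eq (congrArg _ (funext fun u => congrArg (fun a : ℝ => 0 < a) ?_))
  have e : pcloseux.cut x.length (fun i => if i < x.length then x.getD i 0 else u (i - x.length)) =
      fun i => x.getD i 0 := funext fun i => by
    unfold pcloseux.cut
    by_cases hi : i < x.length
    · rw [if_pos hi]; exact if_pos hi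
    · rw [if_neg hi, List.getD_eq_default _ _ (by omega)]
  simp only [Nat.unpair_pair, e, ← vf x]
  rw [pcloseux.pick _ _ hle]
  refine congrArg _ (funext fun i => ?_)
  by_cases hi : i < (f x).length
  · rw [if_pos hi, if_pos hi]
  · rw [if_neg hi, if_neg hi]
    refine if_congr Iff.rfl ?_ rfl
    rw [if_neg (by omega), Nat.add_sub_cancel_left]

end Pool.Agent.MP_8a92de_lc.U43

end Row_pcloseu

section Row_memu
namespace Pool.Agent.MP_8a92de_lc.U43

namespace MemuRow

variable {F : Set (ℕ × ℕ → ℕ)}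

/-- the witness, with `1` in position `0` -/
def one (ζ : ℕ → ℝ) (i : ℕ) : ℝ := if i = 0 then 1 else ζ i

def eqn (m : ℕ) (y ζ : ℕ → ℝ) (e : ℕ) : ℝ := ∑ i ∈ Finset.range m, ∑ j ∈ Finset.range m,
  y (e * m ^ 2 + i * m + j) * one ζ i * one ζ j

theorem sol (m : ℕ) (y : ℕ → ℝ) : Sol m y ↔ ∃ ζ, ∀ e < m, eqn m y ζ e = 0 := by
  constructor
  · rintro ⟨ζ, e2, e3⟩
    have : ∀ i, one ζ i = ζ i := fun i => by
      unfold one
      split_ifs with h
      · rw [h, e2]
      · rfl
    refine ⟨ζ, fun e he => Eq.trans ?_ (e3 e he)⟩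
    unfold eqn
    simp only [this]
  · rintro ⟨ζ, h⟩
    exact ⟨one ζ, if_pos rfl, h⟩

theorem sel_pos (m : ℕ) (f : ℕ → ℝ) (d : Decidable (0 < ∑ e ∈ Finset.range m, f e * f e)) :
    (0 : ℝ) < @ite ℝ (0 < ∑ e ∈ Finset.range m, f e * f e) d 0 1 ↔ ∀ e < m, f e = 0 := by
  constructor
  · intro h e he
    split_ifs at h with h'
    · exact absurd h (lt_irrefl _)
    · have := Finset.single_le_sum (f := fun e => f e * f e)
        (fun e _ => mul_self_nonneg _) (Finset.mem_range.2 he)
      exact mul_self_eq_zero.1 (le_antisymm (this.trans (not_lt.1 h')) (mul_self_nonneg _))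
  · intro h
    rw [if_neg]
    · exact one_pos
    · rw [Finset.sum_eq_zero fun e he => by rw [h e (Finset.mem_range.1 he), mul_zero]]
      exact lt_irrefl _

theorem test (hF : Clone F) (K : Kit F fun a => 0 < a) {μ : ℕ → ℕ}
    (hm : (fun p : ℕ × ℕ => μ p.1) ∈ F) {Y Z : Fam} (hY : UF F (fun a => 0 < a) Y)
    (hZ : UF F (fun a => 0 < a) Z) :
    ∃ φ : Fam, UF F (fun a => 0 < a) φ ∧ ∀ n k z, 0 < φ n k z ↔
      ∀ e < μ n, eqn (μ n) (fun p => Y n p z) (fun i => Z n i z) e = 0 := by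
  have hO := K.toOps.ite hF.snd' (K.toOps.const 1) hZ
  have hj := hF.unpair2 hF.snd'
  have hi := hF.unpair2 (hF.unpair1 hF.snd')
  have he := hF.unpair1 (hF.unpair1 hF.snd')
  have hT := K.toOps.mul (K.toOps.mul (hY.pos hF
    (hF.add' (hF.add' (hF.mul' he (hF.pow' hm 2)) (hF.mul' hi hm)) hj)) (hO.pos hF hi))
    (hO.pos hF hj)
  have hE : UF F (fun a => 0 < a) fun n e z =>
      eqn (μ n) (fun p => Y n p z) (fun i => Z n i z) e :=
    (K.sum hm (K.sum hm hT)).congr fun n e z => by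
      unfold eqn one
      simp only [Nat.unpair_pair]
  have hS : UF F (fun a => 0 < a) fun n _ z => ∑ e ∈ Finset.range (μ n),
      eqn (μ n) (fun p => Y n p z) (fun i => Z n i z) e *
        eqn (μ n) (fun p => Y n p z) (fun i => Z n i z) e :=
    (K.sum hm ((K.toOps.mul hE hE).pos hF hj)).congr fun n e z => by
      simp only [Nat.unpair_pair]
  exact ⟨_, K.toOps.sel hS (K.toOps.const 0) (K.toOps.const 1), fun n k z => sel_pos _ _ _⟩

theorem inp (hF : Clone F) (K : Kit F fun a => 0 < a) :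
    UF F (fun a => 0 < a) fun n i z => if i < n then z i else 0 :=
  K.toOps.ite_lt hF.snd' hF.fst' (K.toOps.var hF.snd') (K.toOps.const 0)

theorem inp_eq {x : List ℝ} {z : ℕ → ℝ} (hz : ∀ i < x.length, z i = x.getD i 0) (i : ℕ) :
    (if i < x.length then z i else 0) = x.getD i 0 := by
  split_ifs with h
  · exact hz i h
  · exact (List.getD_eq_default _ _ (not_lt.1 h)).symm

end MemuRow

open MemuRow in
theorem memu : MEMU := by
  intro F hF K
  obtain ⟨φ, hφ, h⟩ := test hF K (μ := fun n => n.sqrt.sqrt)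
    (hF.sqrt _ (hF.sqrt _ hF.fst')) (inp hF K) (K.toOps.var (hF.add' hF.fst' hF.snd'))
  refine ⟨φ, hφ, fun x => ?_⟩
  refine Iff.trans (sol x.length.sqrt.sqrt fun p => x.getD p 0) ⟨?_, ?_⟩
  · rintro ⟨ζ, hζ⟩
    have hz : ∀ i < x.length, (fun i => if i < x.length then x.getD i 0 else ζ (i - x.length)) i =
        x.getD i 0 := fun i hi => if_pos hi
    refine ⟨_, hz, (h _ _ _).2 fun e he => Eq.trans ?_ (hζ e he)⟩
    refine congrArg₂ (fun y w => eqn x.length.sqrt.sqrt y w e) (funext (inp_eq hz))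
      (funext fun i => ?_)
    rw [if_neg (by omega), Nat.add_sub_cancel_left]
  · rintro ⟨z, hz, h'⟩
    refine ⟨fun i => z (x.length + i), fun e he => Eq.trans ?_ ((h _ _ _).1 h' e he)⟩
    exact congrArg (fun y => eqn x.length.sqrt.sqrt y (fun i => z (x.length + i)) e)
      (funext (inp_eq hz)).symm

end Pool.Agent.MP_8a92de_lc.U43

end Row_memu

section Row_pmemu
namespace Pool.Agent.MP_8a92de_lc.U43

open Pool.Agent.MP_8a92de_lc.E43 (Alt ALTEX)

namespace PmemuRow

variable {F : Set (ℕ × ℕ → ℕ)}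

/-- the witness, with `1` in position `0` -/
def one (ζ : ℕ → ℝ) (i : ℕ) : ℝ := if i = 0 then 1 else ζ i

def eqn (m : ℕ) (y ζ : ℕ → ℝ) (e : ℕ) : ℝ := ∑ i ∈ Finset.range m, ∑ j ∈ Finset.range m,
  y (e * m ^ 2 + i * m + j) * one ζ i * one ζ j

theorem sol (m : ℕ) (y : ℕ → ℝ) : Sol m y ↔ ∃ ζ, ∀ e < m, eqn m y ζ e = 0 := by
  constructor
  · rintro ⟨ζ, e2, e3⟩
    have : ∀ i, one ζ i = ζ i := fun i => by
      unfold one
      split_ifs with h
      · rw [h, e2]
      · rfl
    refine ⟨ζ, fun e he => Eq.trans ?_ (e3 e he)⟩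
    unfold eqn
    simp only [this]
  · rintro ⟨ζ, h⟩
    exact ⟨one ζ, if_pos rfl, h⟩

theorem sel_pos (m : ℕ) (f : ℕ → ℝ) (d : Decidable (0 < ∑ e ∈ Finset.range m, f e * f e)) :
    (0 : ℝ) < @ite ℝ (0 < ∑ e ∈ Finset.range m, f e * f e) d 0 1 ↔ ∀ e < m, f e = 0 := by
  constructor
  · intro h e he
    split_ifs at h with h'
    · exact absurd h (lt_irrefl _)
    · have := Finset.single_le_sum (f := fun e => f e * f e)
        (fun e _ => mul_self_nonneg _) (Finset.mem_range.2 he)
      exact mul_self_eq_zero.1 (le_antisymm (this.trans (not_lt.1 h')) (mul_self_nonneg _))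
  · intro h
    rw [if_neg]
    · exact one_pos
    · rw [Finset.sum_eq_zero fun e he => by rw [h e (Finset.mem_range.1 he), mul_zero]]
      exact lt_irrefl _

theorem test (hF : Clone F) (K : Kit F fun a => 0 < a) {μ : ℕ → ℕ}
    (hm : (fun p : ℕ × ℕ => μ p.1) ∈ F) {Y Z : Fam} (hY : UF F (fun a => 0 < a) Y)
    (hZ : UF F (fun a => 0 < a) Z) :
    ∃ φ : Fam, UF F (fun a => 0 < a) φ ∧ ∀ n k z, 0 < φ n k z ↔
      ∀ e < μ n, eqn (μ n) (fun p => Y n p z) (fun i => Z n i z) e = 0 := by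
  have hO := K.toOps.ite hF.snd' (K.toOps.const 1) hZ
  have hj := hF.unpair2 hF.snd'
  have hi := hF.unpair2 (hF.unpair1 hF.snd')
  have he := hF.unpair1 (hF.unpair1 hF.snd')
  have hT := K.toOps.mul (K.toOps.mul (hY.pos hF
    (hF.add' (hF.add' (hF.mul' he (hF.pow' hm 2)) (hF.mul' hi hm)) hj)) (hO.pos hF hi))
    (hO.pos hF hj)
  have hE : UF F (fun a => 0 < a) fun n e z =>
      eqn (μ n) (fun p => Y n p z) (fun i => Z n i z) e :=
    (K.sum hm (K.sum hm hT)).congr fun n e z => by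
      unfold eqn one
      simp only [Nat.unpair_pair]
  have hS : UF F (fun a => 0 < a) fun n _ z => ∑ e ∈ Finset.range (μ n),
      eqn (μ n) (fun p => Y n p z) (fun i => Z n i z) e *
        eqn (μ n) (fun p => Y n p z) (fun i => Z n i z) e :=
    (K.sum hm ((K.toOps.mul hE hE).pos hF hj)).congr fun n e z => by
      simp only [Nat.unpair_pair]
  exact ⟨_, K.toOps.sel hS (K.toOps.const 0) (K.toOps.const 1), fun n k z => sel_pos _ _ _⟩

theorem inp (hF : Clone F) (K : Kit F fun a => 0 < a) :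
    UF F (fun a => 0 < a) fun n i z => if i < n then z i else 0 :=
  K.toOps.ite_lt hF.snd' hF.fst' (K.toOps.var hF.snd') (K.toOps.const 0)

theorem inp_eq {x : List ℝ} {z : ℕ → ℝ} (hz : ∀ i < x.length, z i = x.getD i 0) (i : ℕ) :
    (if i < x.length then z i else 0) = x.getD i 0 := by
  split_ifs with h
  · exact hz i h
  · exact (List.getD_eq_default _ _ (not_lt.1 h)).symm

/-- the coefficient number `p` -/
def co (m : ℕ) (y u : ℕ → ℝ) (p : ℕ) : ℝ :=
  y (p * (2 * m + 1)) + ∑ k ∈ Finset.range (2 * m), y (p * (2 * m + 1) + (k + 1)) * u k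

theorem eqn_congr {m e : ℕ} {y u u' ζ ζ' : ℕ → ℝ} (hu : ∀ i < 2 * m, u i = u' i)
    (hζ : ∀ i < m, ζ i = ζ' i) : eqn m (co m y u) ζ e = eqn m (co m y u') ζ' e := by
  refine Finset.sum_congr rfl fun i hi => Finset.sum_congr rfl fun j hj => ?_
  rw [Finset.mem_range] at hi hj
  unfold co one
  rw [hζ i hi, hζ j hj, Finset.sum_congr rfl fun k hk => by rw [hu k (Finset.mem_range.1 hk)]]

theorem coef (hF : Clone F) (K : Kit F fun a => 0 < a) {μ : ℕ → ℕ}
    (hm : (fun p : ℕ × ℕ => μ p.1) ∈ F) :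
    UF F (fun a => 0 < a) fun n p z =>
      co (μ n) (fun i => if i < n then z i else 0) (fun k => z (n + k)) p := by
  have h2 := hF.mul' (hF.const 2) hm
  have h3 := hF.add' h2 (hF.const 1)
  have hk := hF.unpair2 hF.snd'
  have hp := hF.unpair1 hF.snd'
  refine (K.toOps.add ((inp hF K).pos hF (hF.mul' hF.snd' h3)) (K.sum h2 (K.toOps.mul
    ((inp hF K).pos hF (hF.add' (hF.mul' hp h3) (hF.add' hk (hF.const 1))))
    (K.toOps.var (hF.add' hF.fst' hk))))).congr fun n p z => ?_
  unfold co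
  simp only [Nat.unpair_pair]

end PmemuRow

open PmemuRow in
theorem pmemu (h : E43.ALTEX) : PMEMU := by
  intro F hF K
  have hm : (fun p : ℕ × ℕ => p.1.sqrt.sqrt.sqrt) ∈ F := hF.sqrt _ (hF.sqrt _ (hF.sqrt _ hF.fst'))
  obtain ⟨φ, hφ, h1⟩ := test hF K (μ := fun n => n.sqrt.sqrt.sqrt) hm
    (coef hF K (μ := fun n => n.sqrt.sqrt.sqrt) hm)
    (K.toOps.var (hF.add' hF.fst' (hF.add' (hF.mul' (hF.const 2) hm)
      (hF.mul' (hF.const 2) hF.snd'))))
  refine ⟨φ, _, hF.add' hm hm, hφ, fun x => ?_⟩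
  have e1 : x ∈ QQ ↔ Alt x.length.sqrt.sqrt.sqrt fun u => ∃ ζ, ∀ e < x.length.sqrt.sqrt.sqrt,
      eqn x.length.sqrt.sqrt.sqrt (co x.length.sqrt.sqrt.sqrt (fun i => x.getD i 0) u) ζ e = 0 := by
    simp only [← sol]
    exact Iff.rfl
  rw [e1, h _ x.length.sqrt.sqrt.sqrt (fun u ζ => ∀ e < x.length.sqrt.sqrt.sqrt,
      eqn x.length.sqrt.sqrt.sqrt (co x.length.sqrt.sqrt.sqrt (fun i => x.getD i 0) u) ζ e = 0)
    fun u u' ζ ζ' hu hζ h' e he => (eqn_congr hu hζ).symm.trans (h' e he)]
  refine iff_of_eq (congrArg (Alt _) (funext fun u => propext ?_))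
  refine Iff.trans ?_ (h1 _ _ _).symm
  have hz : ∀ i < x.length, (fun i => if i < x.length then x.getD i 0 else u (i - x.length)) i =
      x.getD i 0 := fun i hi => if_pos hi
  have hu : ∀ i, (if x.length + i < x.length then x.getD (x.length + i) 0
      else u (x.length + i - x.length)) = u i := fun i => by
    rw [if_neg (by omega), Nat.add_sub_cancel_left]
  have hy := funext (inp_eq hz)
  beta_reduce at hy ⊢
  simp only [hu, hy]

end Pool.Agent.MP_8a92de_lc.U43

end Row_pmemu
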