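import Pool.Agent.MP_8a92de_lc.U43.IDefs

section Row_quadu
namespace Pool.Agent.MP_8a92de_lc.U43

namespace Quadu

def C : List ℕ := [2,1,0,0, 1,0,0,0, 2,4,0,0, 0,0,0,0, 2,3,0,0, 2,1,0,0, 2,1,1,0, 2,1,0,0,
  2,1,0,0, 1,2,2,1, 2,1,0,0, 1,2,0,0, 1,2,0,0, 1,2,0,0, 2,1,0,0, 2,1,0,0, 2,1,0,0, 1,1,2,2]

def PI : List ℕ := [0,3,0,0, 1,0,0,0, 2,0,0,0, 0,0,0,0, 10,0,0,0, 10,4,0,0, 10,5,6,0, 10,5,0,0,
  10,5,0,0, 10,7,9,9, 12,10,0,0, 12,10,0,0, 12,11,0,0, 13,13,0,0, 15,14,0,0, 13,10,0,0,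
  17,16,0,0, 10,17,13,13]

def PJ : List ℕ := [0,0,0,0, 0,0,0,0, 0,0,0,0, 0,0,0,0, 0,0,0,0, 0,0,0,0, 0,0,0,0, 0,6,0,0,
  0,8,0,0, 0,0,6,7, 0,11,0,0, 10,0,0,0, 11,0,0,0, 13,0,0,0, 0,14,0,0, 0,15,0,0,
  0,16,0,0, 0,0,10,17]

theorem getD_lt (L : List ℕ) (h : ∀ u ∈ L, u < 20) (k : ℕ) : L.getD k 0 < 20 := by
  by_cases hk : k < L.length
  · rw [List.getD_eq_getElem _ _ hk]
    exact h _ (List.getElem_mem hk)
  · rw [List.getD_eq_default _ _ (by omega)]
    omega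

noncomputable def eqn (k : ℕ) (cf ps : ℕ → ℝ) : ℝ := ∑ s ∈ Finset.range 4,
  cf (C.getD (4 * k + s) 0) * ps (PI.getD (4 * k + s) 0) * ps (PJ.getD (4 * k + s) 0)

theorem eqn_all (cf ps : ℕ → ℝ) (h0 : cf 0 = 0) (h1 : cf 1 = 1) (h2 : cf 2 = -1) (h3 : ps 0 = 1) :
    eqn 0 cf ps = ps 3 - 1 ∧ eqn 1 cf ps = ps 1 ∧ eqn 2 cf ps = cf 4 - ps 2 ∧ eqn 3 cf ps = 0 ∧
    (eqn 4 cf ps = cf 3 - ps 10 ∧ eqn 5 cf ps = ps 4 - ps 10 ∧ eqn 6 cf ps = ps 5 + ps 6 - ps 10 ∧
      eqn 7 cf ps = ps 5 * ps 6 - ps 10 ∧ eqn 8 cf ps = ps 5 * ps 8 - ps 10 ∧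
      eqn 9 cf ps = ps 10 - ps 7 - ps 9 * ps 6 + ps 9 * ps 7) ∧
    eqn 10 cf ps = ps 10 * ps 11 - ps 12 ∧ eqn 11 cf ps = ps 12 * ps 10 - ps 10 ∧
    eqn 12 cf ps = ps 12 * ps 11 - ps 11 ∧ eqn 13 cf ps = ps 13 * ps 13 - ps 13 ∧
    eqn 14 cf ps = ps 14 * ps 14 - ps 15 ∧ eqn 15 cf ps = ps 10 * ps 15 - ps 13 ∧
    eqn 16 cf ps = ps 16 * ps 16 - ps 17 ∧
    eqn 17 cf ps = ps 10 + ps 17 - ps 13 * ps 10 - ps 13 * ps 17 ∧ eqn 18 cf ps = 0 := by
  refine ⟨?_, ?_, ?_, ?_, ⟨?_, ?_, ?_, ?_, ?_, ?_⟩, ?_, ?_, ?_, ?_, ?_, ?_, ?_, ?_, ?_⟩ <;>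
    simp [eqn, Finset.sum_range_succ, C, PI, PJ, h0, h1, h2, h3] <;> ring

def kind (β ν e o : ℕ) : ℕ := if e = 0 then 0 else if e = 1 then 1 else
  if e < β then (if e - 2 < ν then 2 else 3) else
  if (e - β) % 10 = 0 then 4 + (if o < 5 then o else 5) else 9 + (e - β) % 10

def rf (β g a j : ℕ) : ℕ := if a < g then β + 10 * a + j else 1

def posf (β G e g a b c u : ℕ) : ℕ := if u = 0 then 0 else if u = 1 then 1 else if u = 2 then e
  else if u = 3 then β + 10 * G + 3 else if u = 4 then 2 + a else if u = 5 then rf β g a 0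
  else if u = 6 then rf β g b 0 else if u = 7 then rf β g c 0 else if u = 8 then rf β g b 1
  else if u = 9 then rf β g a 3 else β + 10 * g + (u - 10)

def tyf (ν e u : ℕ) : ℕ := if u = 4 then (if e - 2 < ν then 1 else 0) else 0

def ixf (e a u : ℕ) : ℕ := if u = 3 then a + 3 else if u = 4 then e - 2 else u

theorem posf_lt {β G e g a b c u : ℕ} (he : e < β + 10 * (G + 1)) (hg : g ≤ G) (ha : 2 + a < β)
    (hu : u < 20) : posf β G e g a b c u < β + 10 * (G + 1) := by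
  unfold posf rf
  split_ifs <;> omega

section Cl
variable {F : Set (ℕ × ℕ → ℕ)} (hF : Clone F)
include hF

theorem tab (L : List ℕ) : ∀ {α : ℕ × ℕ → ℕ}, α ∈ F → (fun p => L.getD (α p) 0) ∈ F := by
  induction L with
  | nil => exact fun _ => hF.congr (hF.const 0) fun _ => rfl
  | cons u L ih =>
    intro α h
    refine hF.congr (hF.ite_zero h (hF.const u) (ih (hF.sub' h (hF.const 1)))) fun p => ?_
    rcases hα : α p with _ | k <;> simp

theorem kind_mem {β ν e o : ℕ × ℕ → ℕ} (h1 : β ∈ F) (h2 : ν ∈ F) (h3 : e ∈ F) (h4 : o ∈ F) :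
    (fun p => kind (β p) (ν p) (e p) (o p)) ∈ F :=
  have r := hF.mod' (hF.sub' h3 h1) (hF.const 10)
  hF.ite_zero h3 (hF.const 0) (hF.ite_eq h3 (hF.const 1) (hF.const 1)
    (hF.ite_lt h3 h1 (hF.ite_lt (hF.sub' h3 (hF.const 2)) h2 (hF.const 2) (hF.const 3))
      (hF.ite_zero r (hF.add' (hF.const 4) (hF.ite_lt h4 (hF.const 5) h4 (hF.const 5)))
        (hF.add' (hF.const 9) r))))

theorem rf_mem {β g a : ℕ × ℕ → ℕ} (h1 : β ∈ F) (h2 : g ∈ F) (h3 : a ∈ F) (j : ℕ) :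
    (fun p => rf (β p) (g p) (a p) j) ∈ F :=
  hF.ite_lt h3 h2 (hF.add' (hF.add' h1 (hF.mul' (hF.const 10) h3)) (hF.const j)) (hF.const 1)

theorem posf_mem {β G e g a b c u : ℕ × ℕ → ℕ} (h1 : β ∈ F) (h2 : G ∈ F) (h3 : e ∈ F) (h4 : g ∈ F)
    (h5 : a ∈ F) (h6 : b ∈ F) (h7 : c ∈ F) (h8 : u ∈ F) :
    (fun p => posf (β p) (G p) (e p) (g p) (a p) (b p) (c p) (u p)) ∈ F :=
  hF.ite_zero h8 (hF.const 0) (hF.ite_eq h8 (hF.const 1) (hF.const 1)
    (hF.ite_eq h8 (hF.const 2) h3 (hF.ite_eq h8 (hF.const 3)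
      (hF.add' (hF.add' h1 (hF.mul' (hF.const 10) h2)) (hF.const 3))
      (hF.ite_eq h8 (hF.const 4) (hF.add' (hF.const 2) h5)
      (hF.ite_eq h8 (hF.const 5) (rf_mem hF h1 h4 h5 0)
      (hF.ite_eq h8 (hF.const 6) (rf_mem hF h1 h4 h6 0)
      (hF.ite_eq h8 (hF.const 7) (rf_mem hF h1 h4 h7 0)
      (hF.ite_eq h8 (hF.const 8) (rf_mem hF h1 h4 h6 1)
      (hF.ite_eq h8 (hF.const 9) (rf_mem hF h1 h4 h5 3)
      (hF.add' (hF.add' h1 (hF.mul' (hF.const 10) h4)) (hF.sub' h8 (hF.const 10))))))))))))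

theorem tyf_mem {ν e u : ℕ × ℕ → ℕ} (h1 : ν ∈ F) (h2 : e ∈ F) (h3 : u ∈ F) :
    (fun p => tyf (ν p) (e p) (u p)) ∈ F :=
  hF.ite_eq h3 (hF.const 4) (hF.ite_lt (hF.sub' h2 (hF.const 2)) h1 (hF.const 1) (hF.const 0))
    (hF.const 0)

theorem ixf_mem {e a u : ℕ × ℕ → ℕ} (h1 : e ∈ F) (h2 : a ∈ F) (h3 : u ∈ F) :
    (fun p => ixf (e p) (a p) (u p)) ∈ F :=
  hF.ite_eq h3 (hF.const 3) (hF.add' h2 (hF.const 3))
    (hF.ite_eq h3 (hF.const 4) (hF.sub' h1 (hF.const 2)) h3)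

end Cl

/-- the local equations of a block -/
def Loc (w : ℕ → ℝ) : Prop := w 0 * w 1 - w 2 = 0 ∧ w 2 * w 0 - w 0 = 0 ∧ w 2 * w 1 - w 1 = 0 ∧
  w 3 * w 3 - w 3 = 0 ∧ w 4 * w 4 - w 5 = 0 ∧ w 0 * w 5 - w 3 = 0 ∧ w 6 * w 6 - w 7 = 0 ∧
  w 0 + w 7 - w 3 * w 0 - w 3 * w 7 = 0

theorem loc_sound {w : ℕ → ℝ} (h : Loc w) : w 1 = (w 0)⁻¹ ∧ w 3 = if 0 < w 0 then 1 else 0 := by
  obtain ⟨s1, s2, s3, s4, s5, s6, s7, s8⟩ := h
  constructor
  · by_cases h0 : w 0 = 0
    · rw [h0] at s1 ⊢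
      have e2 : w 2 = 0 := by linarith
      rw [e2] at s3
      rw [inv_zero]
      linarith
    · have e2 : w 2 = 1 := mul_right_cancel₀ h0 (by linarith)
      exact eq_inv_of_mul_eq_one_right (by linarith)
  · have hB : w 3 * (w 3 - 1) = 0 := by linarith
    rcases mul_eq_zero.1 hB with e | e
    · rw [e] at s8
      have := mul_self_nonneg (w 6)
      rw [if_neg (not_lt.2 (by linarith)), e]
    · have e1 : w 3 = 1 := by linarith
      rw [e1] at s6
      have q0 : 0 ≤ w 5 := by have := mul_self_nonneg (w 4); linarith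
      have : 0 < w 0 := by
        by_contra hz
        have := mul_nonneg (neg_nonneg.2 (not_lt.1 hz)) q0
        linarith
      rw [if_pos this, e1]

theorem loc_ex (v : ℝ) : ∃ w : ℕ → ℝ, w 0 = v ∧ Loc w := by
  by_cases hz : 0 < v
  · have r1 := Real.mul_self_sqrt (inv_pos.2 hz).le
    have r2 := mul_inv_cancel₀ hz.ne'
    refine ⟨fun k => [v, v⁻¹, 1, 1, √v⁻¹, v⁻¹, 0, 0].getD k 0, rfl, ?_⟩
    show v * v⁻¹ - 1 = 0 ∧ 1 * v - v = 0 ∧ 1 * v⁻¹ - v⁻¹ = 0 ∧ (1 : ℝ) * 1 - 1 = 0 ∧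
      √v⁻¹ * √v⁻¹ - v⁻¹ = 0 ∧ v * v⁻¹ - 1 = 0 ∧ (0 : ℝ) * 0 - 0 = 0 ∧ v + 0 - 1 * v - 1 * 0 = 0
    refine ⟨?_, ?_, ?_, ?_, ?_, ?_, ?_, ?_⟩ <;> linarith
  · have r1 := Real.mul_self_sqrt (neg_nonneg.2 (not_lt.1 hz))
    refine ⟨fun k => [v, v⁻¹, v * v⁻¹, 0, 0, 0, √(-v), -v].getD k 0, rfl, ?_⟩
    show v * v⁻¹ - v * v⁻¹ = 0 ∧ v * v⁻¹ * v - v = 0 ∧ v * v⁻¹ * v⁻¹ - v⁻¹ = 0 ∧
      (0 : ℝ) * 0 - 0 = 0 ∧ (0 : ℝ) * 0 - 0 = 0 ∧ v * 0 - 0 = 0 ∧ √(-v) * √(-v) - -v = 0 ∧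
      v + -v - 0 * v - 0 * -v = 0
    have r3 : v * v⁻¹ * v - v = 0 ∧ v * v⁻¹ * v⁻¹ - v⁻¹ = 0 := by
      by_cases h0 : v = 0
      · simp [h0]
      · rw [mul_inv_cancel₀ h0]
        simp
    refine ⟨?_, r3.1, r3.2, ?_, ?_, ?_, ?_, ?_⟩ <;> linarith

section Core
variable (κ : List ℝ) (x : ℕ → ℝ) (β G ν : ℕ) (o a b c : ℕ → ℕ)

/-- the left side of equation `e` -/
noncomputable def E (ζ : ℕ → ℝ) (e : ℕ) : ℝ :=
  eqn (kind β ν e (o ((e - β) / 10)))
    (fun u => if tyf ν e u = 0 then (0 :: 1 :: -1 :: κ).getD (ixf e (a ((e - β) / 10)) u) 0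
      else x (ixf e (a ((e - β) / 10)) u))
    fun u => ζ (posf β G e ((e - β) / 10) (a ((e - β) / 10)) (b ((e - β) / 10))
      (c ((e - β) / 10)) u)

variable {κ x β G ν o a b c} {ζ : ℕ → ℝ}

theorem E_low (h0 : ζ 0 = 1) (e : ℕ) (he : e < β) : E κ x β G ν o a b c ζ e =
    if e = 0 then ζ (β + 10 * G + 3) - 1 else if e = 1 then ζ 1 else
      if e - 2 < ν then x (e - 2) - ζ e else 0 := by
  obtain ⟨q0, q1, q2, q3, -⟩ := eqn_all
    (fun u => if tyf ν e u = 0 then (0 :: 1 :: -1 :: κ).getD (ixf e (a ((e - β) / 10)) u) 0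
      else x (ixf e (a ((e - β) / 10)) u))
    (fun u => ζ (posf β G e ((e - β) / 10) (a ((e - β) / 10)) (b ((e - β) / 10))
      (c ((e - β) / 10)) u)) rfl rfl rfl h0
  unfold E kind
  rw [if_pos he]
  by_cases e0 : e = 0
  · rw [if_pos e0, if_pos e0]
    exact q0
  rw [if_neg e0, if_neg e0]
  by_cases e1 : e = 1
  · rw [if_pos e1, if_pos e1]
    exact q1
  rw [if_neg e1, if_neg e1]
  by_cases e2 : e - 2 < ν
  · rw [if_pos e2, if_pos e2, q2]
    simp [tyf, ixf, posf, e2]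
  · rw [if_neg e2, if_neg e2]
    exact q3

theorem E_blk (hβ : 2 ≤ β) (g j : ℕ) (hj : j < 10) : E κ x β G ν o a b c ζ (β + 10 * g + j) =
    eqn (if j = 0 then 4 + (if o g < 5 then o g else 5) else 9 + j)
      (fun u => if tyf ν (β + 10 * g + j) u = 0 then
        (0 :: 1 :: -1 :: κ).getD (ixf (β + 10 * g + j) (a g) u) 0
        else x (ixf (β + 10 * g + j) (a g) u))
      fun u => ζ (posf β G (β + 10 * g + j) g (a g) (b g) (c g) u) := by
  have e1 : (β + 10 * g + j - β) / 10 = g := by omega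
  have e2 : (β + 10 * g + j - β) % 10 = j := by omega
  unfold E kind
  rw [e1, e2, if_neg (by omega), if_neg (by omega), if_neg (by omega)]

theorem E_loc (h0 : ζ 0 = 1) (hβ : 2 ≤ β) (g : ℕ) :
    (∀ j < 9, E κ x β G ν o a b c ζ (β + 10 * g + (j + 1)) = 0) ↔
      Loc fun j => ζ (β + 10 * g + j) := by
  have q := fun j => (eqn_all (fun u => if tyf ν (β + 10 * g + j) u = 0 then
        (0 :: 1 :: -1 :: κ).getD (ixf (β + 10 * g + j) (a g) u) 0
        else x (ixf (β + 10 * g + j) (a g) u))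
      (fun u => ζ (posf β G (β + 10 * g + j) g (a g) (b g) (c g) u)) rfl rfl rfl h0).2.2.2.2.2
  have p := fun j hj => E_blk (κ := κ) (x := x) (G := G) (ν := ν) (o := o) (a := a) (b := b)
    (c := c) (ζ := ζ) hβ g j hj
  have r1 := (p 1 (by omega)).trans (q 1).1
  have r2 := (p 2 (by omega)).trans (q 2).2.1
  have r3 := (p 3 (by omega)).trans (q 3).2.2.1
  have r4 := (p 4 (by omega)).trans (q 4).2.2.2.1
  have r5 := (p 5 (by omega)).trans (q 5).2.2.2.2.1
  have r6 := (p 6 (by omega)).trans (q 6).2.2.2.2.2.1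
  have r7 := (p 7 (by omega)).trans (q 7).2.2.2.2.2.2.1
  have r8 := (p 8 (by omega)).trans (q 8).2.2.2.2.2.2.2.1
  have r9 := (p 9 (by omega)).trans (q 9).2.2.2.2.2.2.2.2
  constructor
  · intro h
    exact ⟨r1.symm.trans (h 0 (by omega)), r2.symm.trans (h 1 (by omega)),
      r3.symm.trans (h 2 (by omega)), r4.symm.trans (h 3 (by omega)),
      r5.symm.trans (h 4 (by omega)), r6.symm.trans (h 5 (by omega)),
      r7.symm.trans (h 6 (by omega)), r8.symm.trans (h 7 (by omega))⟩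
  · rintro ⟨s1, s2, s3, s4, s5, s6, s7, s8⟩ j hj
    interval_cases j
    exacts [r1.trans s1, r2.trans s2, r3.trans s3, r4.trans s4, r5.trans s5, r6.trans s6,
      r7.trans s7, r8.trans s8, r9]

open Classical in
theorem E_val (h0 : ζ 0 = 1) (h1 : ζ 1 = 0) (hβ : 2 ≤ β) (g : ℕ) (v z : ℕ → ℝ)
    (hz : ζ (2 + a g) = z (a g))
    (hv : ∀ i < g, ζ (β + 10 * i) = v i ∧ Loc fun j => ζ (β + 10 * i + j)) (R : ℕ → ℝ)
    (hR : ∀ i, R i = if i < g then v i else 0) :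
    E κ x β G ν o a b c ζ (β + 10 * g) = 0 ↔ ζ (β + 10 * g) =
      if o g = 0 then κ.getD (a g) 0 else if o g = 1 then z (a g)
      else if o g = 2 then R (a g) + R (b g) else if o g = 3 then R (a g) * R (b g)
      else if o g = 4 then R (a g) / R (b g) else if 0 < R (a g) then R (b g) else R (c g) := by
  have f0 : ∀ i, ζ (rf β g i 0) = R i ∧ ζ (rf β g i 1) = (R i)⁻¹ ∧
      ζ (rf β g i 3) = if 0 < R i then 1 else 0 := fun i => by
    unfold rf
    by_cases hi : i < g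
    · have := loc_sound (hv i hi).2
      simp only [Nat.add_zero, (hv i hi).1] at this
      simp only [hR, if_pos hi]
      exact ⟨(hv i hi).1, this.1, this.2⟩
    · simp [hR, hi, h1]
  obtain ⟨q0, q1, q2, q3, q4, q5⟩ := (eqn_all (fun u => if tyf ν (β + 10 * g + 0) u = 0 then
        (0 :: 1 :: -1 :: κ).getD (ixf (β + 10 * g + 0) (a g) u) 0
        else x (ixf (β + 10 * g + 0) (a g) u))
      (fun u => ζ (posf β G (β + 10 * g + 0) g (a g) (b g) (c g) u)) rfl rfl rfl h0).2.2.2.2.1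
  have p := E_blk (κ := κ) (x := x) (G := G) (ν := ν) (o := o) (a := a) (b := b)
    (c := c) (ζ := ζ) hβ g 0 (by omega)
  rw [if_pos rfl] at p
  rw [show E κ x β G ν o a b c ζ (β + 10 * g) = _ from p]
  by_cases e0 : o g = 0
  · rw [if_pos e0, e0, if_pos (by omega), q0, sub_eq_zero, eq_comm]
    rfl
  rw [if_neg e0]
  by_cases e1 : o g = 1
  · rw [if_pos e1, e1, if_pos (by omega), q1, sub_eq_zero, eq_comm, ← hz]
    rfl
  rw [if_neg e1]
  by_cases e2 : o g = 2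
  · rw [if_pos e2, e2, if_pos (by omega), q2, sub_eq_zero, eq_comm, ← (f0 _).1, ← (f0 _).1]
    rfl
  rw [if_neg e2]
  by_cases e3 : o g = 3
  · rw [if_pos e3, e3, if_pos (by omega), q3, sub_eq_zero, eq_comm, ← (f0 _).1, ← (f0 (b g)).1]
    rfl
  rw [if_neg e3]
  by_cases e4 : o g = 4
  · rw [if_pos e4, e4, if_pos (by omega), q4, sub_eq_zero, eq_comm, div_eq_mul_inv, ← (f0 _).2.1,
      ← (f0 _).1]
    rfl
  rw [if_neg e4, if_neg (by omega), q5]
  show ζ (β + 10 * g) - ζ (rf β g (c g) 0) - ζ (rf β g (a g) 3) * ζ (rf β g (b g) 0) +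
    ζ (rf β g (a g) 3) * ζ (rf β g (c g) 0) = 0 ↔ _
  rw [(f0 _).1, (f0 _).1, (f0 _).2.2]
  split_ifs
  · constructor <;> intro h <;> linarith
  · constructor <;> intro h <;> linarith

open Classical in
theorem core (gt : (ℕ → ℝ) → ℕ → ℝ) (R : (ℕ → ℝ) → ℕ → ℕ → ℝ)
    (hR : ∀ z g i, R z g i = if i < g then gt z i else 0)
    (hg : ∀ z g, gt z g = if o g = 0 then κ.getD (a g) 0 else if o g = 1 then z (a g)
      else if o g = 2 then R z g (a g) + R z g (b g) else if o g = 3 then R z g (a g) * R z g (b g)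
      else if o g = 4 then R z g (a g) / R z g (b g)
      else if 0 < R z g (a g) then R z g (b g) else R z g (c g))
    (hW : ∀ g ≤ G, 2 + a g < β) (hν : 2 + ν ≤ β) :
    (∃ z : ℕ → ℝ, (∀ i < ν, z i = x i) ∧ 0 < gt z G) ↔
      ∃ ζ : ℕ → ℝ, ζ 0 = 1 ∧ ∀ e < β + 10 * (G + 1), E κ x β G ν o a b c ζ e = 0 := by
  have hβ : 2 ≤ β := by omega
  constructor
  · rintro ⟨z, hz, hp⟩
    choose w w0 wl using loc_ex
    obtain ⟨ζ, z0, z1, z2, z3⟩ : ∃ ζ : ℕ → ℝ, ζ 0 = 1 ∧ ζ 1 = 0 ∧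
        (∀ i, 2 + i < β → ζ (2 + i) = z i) ∧
        ∀ g, ∀ j < 10, ζ (β + 10 * g + j) = w (gt z g) j := by
      refine ⟨fun i => if i = 0 then 1 else if i = 1 then 0 else if i < β then z (i - 2)
        else w (gt z ((i - β) / 10)) ((i - β) % 10), rfl, rfl, fun i hi => ?_, fun g j hj => ?_⟩
      · show (if 2 + i = 0 then _ else _) = _
        rw [if_neg (by omega), if_neg (by omega), if_pos hi, Nat.add_sub_cancel_left]
      · have e1 : (β + 10 * g + j - β) / 10 = g := by omega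
        have e2 : (β + 10 * g + j - β) % 10 = j := by omega
        show (if β + 10 * g + j = 0 then _ else _) = _
        rw [if_neg (by omega), if_neg (by omega), if_neg (by omega), e1, e2]
    have zv : ∀ g, ζ (β + 10 * g) = gt z g := fun g => (z3 g 0 (by omega)).trans (w0 _)
    have zl : ∀ g, Loc fun j => ζ (β + 10 * g + j) := fun g => by
      have := wl (gt z g)
      unfold Loc at this ⊢
      simp only [z3 g 0 (by omega), z3 g 1 (by omega), z3 g 2 (by omega), z3 g 3 (by omega),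
        z3 g 4 (by omega), z3 g 5 (by omega), z3 g 6 (by omega), z3 g 7 (by omega)]
      exact this
    refine ⟨ζ, z0, fun e he => ?_⟩
    by_cases hb : e < β
    · rw [E_low z0 e hb]
      split_ifs with e0 e1 e2
      · have := (loc_sound (zl G)).2
        simp only [Nat.add_zero, zv, if_pos hp] at this
        rw [this, sub_self]
      · exact z1
      · have e3 : e = 2 + (e - 2) := by omega
        rw [← hz _ e2, ← z2 _ (by omega), ← e3, sub_self]
      · rfl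
    · obtain ⟨g, j, hj, rfl⟩ : ∃ g j, j < 10 ∧ e = β + 10 * g + j :=
        ⟨(e - β) / 10, (e - β) % 10, by omega, by omega⟩
      rcases j with _ | j
      · exact (E_val z0 z1 hβ g (gt z) z (z2 _ (hW g (by omega))) (fun i _ => ⟨zv i, zl i⟩)
          (R z g) (hR z g)).2 ((zv g).trans (hg z g))
      · exact (E_loc z0 hβ g).2 (zl g) j (by omega)
  · rintro ⟨ζ, z0, h⟩
    have z1 : ζ 1 = 0 := by
      have := h 1 (by omega)
      rwa [E_low z0 1 (by omega), if_neg (by omega), if_pos rfl] at this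
    have z4 : ζ (β + 10 * G + 3) = 1 := by
      have := h 0 (by omega)
      rwa [E_low z0 0 (by omega), if_pos rfl, sub_eq_zero] at this
    have z2 : ∀ i < ν, ζ (2 + i) = x i := fun i hi => by
      have := h (2 + i) (by omega)
      rw [E_low z0 _ (by omega), if_neg (by omega), if_neg (by omega), Nat.add_sub_cancel_left,
        if_pos hi, sub_eq_zero] at this
      exact this.symm
    have zl : ∀ g ≤ G, Loc fun j => ζ (β + 10 * g + j) := fun g hg' =>
      (E_loc z0 hβ g).1 fun j hj => h _ (by omega)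
    have zv : ∀ g, g ≤ G → ζ (β + 10 * g) = gt (fun i => ζ (2 + i)) g := by
      intro g
      induction g using Nat.strong_induction_on with
      | _ g ih =>
        intro hg'
        exact ((E_val z0 z1 hβ g (gt fun i => ζ (2 + i)) (fun i => ζ (2 + i)) rfl
          (fun i hi => ⟨ih i hi (by omega), zl i (by omega)⟩) (R _ g) (hR _ g)).1
          (h _ (by omega))).trans (hg _ g).symm
    refine ⟨fun i => ζ (2 + i), z2, ?_⟩
    have := (loc_sound (zl G le_rfl)).2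
    simp only [Nat.add_zero, zv G le_rfl, z4] at this
    by_contra hn
    rw [if_neg hn] at this
    exact one_ne_zero this

end Core

end Quadu

open Quadu in
theorem quadu : QUADU := by
  rintro F hF φ ⟨κ, o, ho, a, ha, b, hb, c, hc, p, hp, hφ⟩ ν hν
  obtain ⟨ca, hca⟩ := hF.bound a ha
  have uG : (fun s : ℕ × ℕ => p (s.1, 0)) ∈ F := hF.comp' hp hF.fst' (hF.const 0)
  have uν : (fun s : ℕ × ℕ => ν (s.1, 0)) ∈ F := hF.comp' hν hF.fst' (hF.const 0)
  obtain ⟨β, uβ, hβ⟩ : ∃ β : ℕ → ℕ, (fun s : ℕ × ℕ => β s.1) ∈ F ∧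
      ∀ n, β n = (n + p (n, 0) + 2) ^ ca + 3 + ν (n, 0) :=
    ⟨fun n => (n + p (n, 0) + 2) ^ ca + 3 + ν (n, 0), hF.add' (hF.add' (hF.pow'
      (hF.add' (hF.add' hF.fst' uG) (hF.const 2)) ca) (hF.const 3)) uν, fun _ => rfl⟩
  have hW : ∀ n, ∀ g ≤ p (n, 0), 2 + a (n, g) < β n := fun n g hg => by
    have h1 : a (n, g) ≤ (n + g + 2) ^ ca := hca (n, g)
    have h2 : (n + g + 2) ^ ca ≤ (n + p (n, 0) + 2) ^ ca := Nat.pow_le_pow_left (by omega) _
    rw [hβ]
    omega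
  have hν2 : ∀ n, 2 + ν (n, 0) ≤ β n := fun n => by rw [hβ]; omega
  have ue : (fun s : ℕ × ℕ => s.2 / 4) ∈ F := hF.div' hF.snd' (hF.const 4)
  have ug : (fun s : ℕ × ℕ => (s.2 / 4 - β s.1) / 10) ∈ F := hF.div' (hF.sub' ue uβ) (hF.const 10)
  have uo := hF.comp' ho hF.fst' ug
  have ua := hF.comp' ha hF.fst' ug
  have ub := hF.comp' hb hF.fst' ug
  have uc := hF.comp' hc hF.fst' ug
  have uk := hF.add' (hF.mul' (hF.const 4) (kind_mem hF uβ uν ue uo)) (hF.mod' hF.snd' (hF.const 4))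
  refine ⟨0 :: 1 :: -1 :: κ, _, hF.add' uβ (hF.mul' (hF.const 10) (hF.add' uG (hF.const 1))),
    _, tyf_mem hF uν ue (tab hF C uk), _, ixf_mem hF ue ua (tab hF C uk),
    _, posf_mem hF uβ uG ue ug ua ub uc (tab hF PI uk),
    _, posf_mem hF uβ uG ue ug ua ub uc (tab hF PJ uk), fun n => ⟨?_, ?_, fun k hk => ?_, fun x => ?_⟩⟩
  · have := hν2 n
    show 2 ≤ β n + 10 * (p (n, 0) + 1)
    omega
  · have := hν2 n
    show ν (n, 0) ≤ β n + 10 * (p (n, 0) + 1)
    omega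
  · have hk' : k < 4 * (β n + 10 * (p (n, 0) + 1)) := hk
    have hg : (k / 4 - β n) / 10 ≤ p (n, 0) := by omega
    have he : k / 4 < β n + 10 * (p (n, 0) + 1) := by omega
    refine ⟨fun h => ?_, posf_lt he hg (hW n _ hg) (getD_lt _ (by decide) _),
      posf_lt he hg (hW n _ hg) (getD_lt _ (by decide) _)⟩
    simp only [tyf, ixf] at h ⊢
    split_ifs at h ⊢ <;> omega
  · simp only [hφ]
    refine (core (κ := κ) (x := x) (β := β n) (G := p (n, 0)) (ν := ν (n, 0))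
      (o := fun g => o (n, g)) (a := fun g => a (n, g)) (b := fun g => b (n, g))
      (c := fun g => c (n, g)) (fun z g => gate (fun r => 0 < r) κ o a b c n z g)
      (fun z g i => run (fun r => 0 < r) κ o a b c n z g i) (fun z g i => run_eq _ _ _ _ _ _ _ _ _ _)
      (fun z g => gate_eq _ _ _ _ _ _ _ _ _) (hW n) (hν2 n)).trans ?_
    refine exists_congr fun ζ => and_congr_right fun _ => forall_congr' fun e =>
      forall_congr' fun _ => Eq.congr_left ?_
    unfold E eqn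
    refine Finset.sum_congr rfl fun s hs => ?_
    have hs' := Finset.mem_range.1 hs
    have e1 : (4 * e + s) / 4 = e := by omega
    have e2 : (4 * e + s) % 4 = s := by omega
    simp only [e1, e2]

end Pool.Agent.MP_8a92de_lc.U43

end Row_quadu

section Row_hardu
namespace Pool.Agent.MP_8a92de_lc.U43

namespace hardux

theorem dec {m e i j : ℕ} (hi : i < m) (hj : j < m) :
    (e * m ^ 2 + i * m + j) / m / m = e ∧ (e * m ^ 2 + i * m + j) / m % m = i ∧
      (e * m ^ 2 + i * m + j) % m = j := by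
  have hm : 0 < m := by omega
  have e1 : e * m ^ 2 + i * m + j = j + m * (i + m * e) := by ring
  rw [e1, Nat.add_mul_div_left _ _ hm, Nat.div_eq_of_lt hj, zero_add, Nat.add_mul_div_left _ _ hm,
    Nat.div_eq_of_lt hi, zero_add, Nat.add_mul_mod_self_left, Nat.add_mul_mod_self_left,
    Nat.mod_eq_of_lt hi, Nat.mod_eq_of_lt hj]
  exact ⟨rfl, rfl, rfl⟩

theorem lt {m e i j : ℕ} (he : e < m) (hi : i < m) (hj : j < m) :
    e * m ^ 2 + i * m + j < m ^ 4 := by
  have h1 : (i + 1) * m ≤ m * m := Nat.mul_le_mul_right _ hi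
  have h2 : (e + 1) * (m * m) ≤ m * (m * m) := Nat.mul_le_mul_right _ he
  have h3 : 1 * (m * (m * m)) ≤ m * (m * (m * m)) := Nat.mul_le_mul_right _ (by omega)
  nlinarith

theorem dense {m : ℕ} (c : ℕ → ℝ) (I J : ℕ → ℕ) (ζ : ℕ → ℝ) (h : ∀ s < 4, I s < m ∧ J s < m) :
    ∑ i ∈ Finset.range m, ∑ j ∈ Finset.range m,
      (∑ s ∈ Finset.range 4, if I s = i then if J s = j then c s else 0 else 0) * ζ i * ζ j =
      ∑ s ∈ Finset.range 4, c s * ζ (I s) * ζ (J s) := by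
  simp only [Finset.sum_mul]
  rw [Finset.sum_congr rfl fun i _ => Finset.sum_comm, Finset.sum_comm]
  refine Finset.sum_congr rfl fun s hs => ?_
  obtain ⟨h1, h2⟩ := h s (Finset.mem_range.1 hs)
  rw [Finset.sum_eq_single (I s), Finset.sum_eq_single (J s), if_pos rfl, if_pos rfl]
  · intro j _ hj
    rw [if_pos rfl, if_neg hj.symm, zero_mul, zero_mul]
  · intro hj
    exact absurd (Finset.mem_range.2 h2) hj
  · intro i _ hi
    exact Finset.sum_eq_zero fun j _ => by rw [if_neg hi.symm, zero_mul, zero_mul]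
  · intro hi
    exact absurd (Finset.mem_range.2 h1) hi

end hardux

theorem hardu (h : QUADU) : HARDU := by
  intro F hF K L ⟨φ, hφ, hL⟩
  obtain ⟨κ, m, hm, ty, hty, ix, hix, I, hI, J, hJ, H⟩ := h F hF φ hφ _ hF.fst'
  have s1 := hF.unpair1 hF.snd'
  have s2 := hF.unpair2 hF.snd'
  have hM := hF.comp' hm hF.fst' (hF.const 0)
  have hx := hF.add' (hF.mul' (hF.const 4) (hF.div' (hF.div' s1 hM) hM)) s2
  have b0 := K.ite (hF.comp' hty hF.fst' hx) ((K.cst κ).pos hF (hF.comp' hix hF.fst' hx))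
    (K.var (hF.comp' hix hF.fst' hx))
  have b1 := K.ite_eq (hF.comp' hJ hF.fst' hx) (hF.mod' s1 hM) b0 (K.const 0)
  have b2 := K.ite_eq (hF.comp' hI hF.fst' hx) (hF.mod' (hF.div' s1 hM) hM) b1 (K.const 0)
  have b3 := K.sum (hF.const 4) b2
  refine ⟨_, K.poly (hF.pow' hM 4) (K.const 1) b3 fun _ => rfl, fun x => ?_⟩
  obtain ⟨-, -, H3, H4⟩ := H x.length
  rw [hL x, H4 fun i => x.getD i 0, outF, List.filter_eq_self.2 (fun _ _ => by simp)]
  have hs : (m (x.length, 0) ^ 4).sqrt.sqrt = m (x.length, 0) := by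
    rw [show (4 : ℕ) = 2 * 2 from rfl, pow_mul, Nat.sqrt_eq', Nat.sqrt_eq']
  simp only [QPS, Set.mem_ofPred_eq, List.length_map, List.length_range, hs, Sol, Sp]
  refine exists_congr fun ζ => and_congr_right fun _ => forall₂_congr fun e he => ?_
  rw [← hardux.dense (m := m (x.length, 0)) _ (fun s => I (x.length, 4 * e + s))
    (fun s => J (x.length, 4 * e + s)) ζ fun s hs => (H3 _ (by omega)).2]
  refine Eq.congr_left (Finset.sum_congr rfl fun i hi => Finset.sum_congr rfl fun j hj => ?_)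
  have hi' := Finset.mem_range.1 hi
  have hj' := Finset.mem_range.1 hj
  obtain ⟨d1, d2, d3⟩ := hardux.dec (e := e) hi' hj'
  rw [List.getD_eq_getElem _ _ (by
    rw [List.length_map, List.length_range]; exact hardux.lt he hi' hj'),
    List.getElem_map, List.getElem_range]
  simp only [Nat.unpair_pair, d1, d2, d3]

end Pool.Agent.MP_8a92de_lc.U43

end Row_hardu

section Row_phardu
namespace Pool.Agent.MP_8a92de_lc.U43

open Pool.Agent.MP_8a92de_lc.E43 (Alt ALTPAD ALTEX)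

namespace phardu

/-- coefficient number `q` of a term, as an affine function of the quantified reals -/
noncomputable def tm (κ : List ℝ) (ty ix n q : ℕ) (z : ℕ → ℝ) : ℝ :=
  if q = 0 then (if ty = 0 then κ.getD ix 0 else if ix < n then z ix else 0)
  else (if ty = 0 then 0 else if ix + 1 = n + q then 1 else 0)

theorem tm_sum (κ : List ℝ) (ty ix n m : ℕ) (z u : ℕ → ℝ) (h : ty ≠ 0 → ix < n + 2 * m) :
    tm κ ty ix n 0 z + ∑ k ∈ Finset.range (2 * m), tm κ ty ix n (k + 1) z * u k =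
      if ty = 0 then κ.getD ix 0 else if ix < n then z ix else u (ix - n) := by
  by_cases h0 : ty = 0
  · simp [tm, h0]
  have h1 := h h0
  by_cases h2 : ix < n
  · rw [Finset.sum_eq_zero fun k _ => by
      have : ¬ix + 1 = n + (k + 1) := by omega
      rw [tm, if_neg (Nat.succ_ne_zero k), if_neg h0, if_neg this, zero_mul]]
    simp [tm, h0, h2]
  · rw [Finset.sum_eq_single (ix - n)]
    · have : ix + 1 = n + (ix - n + 1) := by omega
      rw [tm, tm, if_pos rfl, if_neg (Nat.succ_ne_zero _), if_neg h0, if_neg h0, if_neg h0,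
        if_neg h2, if_neg h2, if_pos this, zero_add, one_mul]
    · intro k _ hk
      have : ¬ix + 1 = n + (k + 1) := by omega
      rw [tm, if_neg (Nat.succ_ne_zero k), if_neg h0, if_neg this, zero_mul]
    · intro hk
      exact absurd (Finset.mem_range.2 (by omega)) hk

theorem tm_uf {F : Set (ℕ × ℕ → ℕ)} (hF : Clone F) {t : ℝ → Prop} (hK : Kit F t) (κ : List ℝ)
    {ty ix q : ℕ × ℕ → ℕ} (h1 : ty ∈ F) (h2 : ix ∈ F) (h3 : q ∈ F) :
    UF F t fun n w z => tm κ (ty (n, w)) (ix (n, w)) n (q (n, w)) z :=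
  hK.ite h3 (hK.ite h1 ((hK.cst κ).pos hF h2) (hK.ite_lt h2 hF.fst' (hK.var h2) (hK.const 0)))
    (hK.ite h1 (hK.const 0)
      (hK.ite_eq (hF.add' h2 (hF.const 1)) (hF.add' hF.fst' h3) (hK.const 1) (hK.const 0)))

theorem idx (m e i j q : ℕ) (hi : i < m) (hj : j < m) (hq : q < 2 * m + 1) :
    ((e * m ^ 2 + i * m + j) * (2 * m + 1) + q) % (2 * m + 1) = q ∧
    ((e * m ^ 2 + i * m + j) * (2 * m + 1) + q) / (2 * m + 1) / m / m = e ∧
    ((e * m ^ 2 + i * m + j) * (2 * m + 1) + q) / (2 * m + 1) / m % m = i ∧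
    ((e * m ^ 2 + i * m + j) * (2 * m + 1) + q) / (2 * m + 1) % m = j := by
  have a : ∀ x y w : ℕ, y < w → (x * w + y) / w = x ∧ (x * w + y) % w = y := fun x y w h => by
    constructor
    · rw [add_comm, Nat.add_mul_div_right _ _ (by omega), Nat.div_eq_of_lt h, zero_add]
    · rw [add_comm, Nat.add_mul_mod_self_right, Nat.mod_eq_of_lt h]
  have e1 : e * m ^ 2 + i * m + j = (e * m + i) * m + j := by ring
  rw [(a _ _ _ hq).1, (a _ _ _ hq).2, e1, (a _ _ _ hj).1, (a _ _ _ hj).2, (a _ _ _ hi).1,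
    (a _ _ _ hi).2]
  exact ⟨rfl, rfl, rfl, rfl⟩

theorem table {F : Set (ℕ × ℕ → ℕ)} (hF : Clone F) {t : ℝ → Prop} (hK : Kit F t) (κ : List ℝ)
    {m ty ix I J : ℕ × ℕ → ℕ} (hm : m ∈ F) (h1 : ty ∈ F) (h2 : ix ∈ F) (h3 : I ∈ F)
    (h4 : J ∈ F) : ∃ B : Fam, UF F t B ∧ ∀ n e i j q z, i < m (n, 0) → j < m (n, 0) →
      q < 2 * m (n, 0) + 1 →
      B n ((e * m (n, 0) ^ 2 + i * m (n, 0) + j) * (2 * m (n, 0) + 1) + q) z =
        ∑ s ∈ Finset.range 4, if I (n, 4 * e + s) = i then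
          if J (n, 4 * e + s) = j then tm κ (ty (n, 4 * e + s)) (ix (n, 4 * e + s)) n q z else 0
          else 0 := by
  have m0 := hF.comp' hm hF.fst' (hF.const 0)
  have u1 := hF.unpair1 hF.snd'
  have u2 := hF.unpair2 hF.snd'
  have w := hF.add' (hF.mul' (hF.const 2) m0) (hF.const 1)
  have hp := hF.div' u1 w
  have hq := hF.mod' u1 w
  have hk := hF.add' (hF.mul' (hF.const 4) (hF.div' (hF.div' hp m0) m0)) u2
  refine ⟨_, hK.sum (hF.const 4) (hK.ite_eq (hF.comp' h3 hF.fst' hk) (hF.mod' (hF.div' hp m0) m0)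
    (hK.ite_eq (hF.comp' h4 hF.fst' hk) (hF.mod' hp m0)
      (tm_uf hF hK κ (hF.comp' h1 hF.fst' hk) (hF.comp' h2 hF.fst' hk) hq) (hK.const 0))
    (hK.const 0)), fun n e i j q z hi hj hq => ?_⟩
  obtain ⟨a1, a2, a3, a4⟩ := idx (m (n, 0)) e i j q hi hj hq
  simp only [Nat.unpair_pair, a1, a2, a3, a4]

theorem out_all (B : Fam) (r n : ℕ) (z : ℕ → ℝ) :
    outF (fun a => a ≠ 0) (fun _ _ _ => 1) B r n z = (List.range r).map fun k => B n k z := by
  unfold outF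
  rw [List.filter_eq_self.2 fun a _ => by simp]

theorem collapse (m : ℕ) (c : ℕ → ℝ) (I J : ℕ → ℕ) (ζ : ℕ → ℝ)
    (h : ∀ s < 4, I s < m ∧ J s < m) :
    ∑ i ∈ Finset.range m, ∑ j ∈ Finset.range m,
      (∑ s ∈ Finset.range 4, if I s = i then if J s = j then c s else 0 else 0) * ζ i * ζ j =
      ∑ s ∈ Finset.range 4, c s * ζ (I s) * ζ (J s) := by
  simp only [Finset.sum_mul]
  rw [Finset.sum_congr rfl fun i _ => Finset.sum_comm, Finset.sum_comm]
  refine Finset.sum_congr rfl fun s hs => ?_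
  obtain ⟨h1, h2⟩ := h s (Finset.mem_range.1 hs)
  rw [Finset.sum_eq_single (I s), Finset.sum_eq_single (J s)]
  · simp
  · intro j _ hj
    simp [hj.symm]
  · intro hj
    exact absurd (Finset.mem_range.2 h2) hj
  · intro i _ hi
    simp [hi.symm]
  · intro hi
    exact absurd (Finset.mem_range.2 h1) hi

theorem alt_congr (k : ℕ) {φ ψ : (ℕ → ℝ) → Prop} (h : ∀ u, φ u ↔ ψ u) : Alt k φ ↔ Alt k ψ := by
  rw [(funext fun u => propext (h u) : φ = ψ)]

theorem size (m e i j q : ℕ) (hm : 2 ≤ m) (he : e < m) (hi : i < m) (hj : j < m)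
    (hq : q < 2 * m + 1) : (e * m ^ 2 + i * m + j) * (2 * m + 1) + q < m ^ 8 := by
  have a : ∀ x y v w : ℕ, x < v → y < w → x * w + y < v * w := fun x y v w h1 h2 =>
    calc x * w + y < (x + 1) * w := by rw [add_mul, one_mul]; omega
      _ ≤ v * w := Nat.mul_le_mul_right _ h1
  have e1 : e * m ^ 2 + i * m + j = (e * m + i) * m + j := by ring
  have h1 := a _ _ _ _ (a _ _ _ _ (a _ _ _ _ he hi) hj) hq
  have h2 : 16 ≤ m ^ 4 := le_trans (by norm_num) (Nat.pow_le_pow_left hm 4)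
  have h3 : 16 * m ≤ m ^ 4 * m := Nat.mul_le_mul_right _ h2
  rw [e1]
  refine lt_of_lt_of_le h1 ?_
  calc m * m * m * (2 * m + 1) ≤ m * m * m * (m ^ 4 * m) := Nat.mul_le_mul_left _ (by omega)
    _ = m ^ 8 := by ring

end phardu

theorem phardu (h1 : QUADU) (h2 : E43.ALTPAD) : PHARDU := by
  intro F hF hK hK' L hL
  obtain ⟨φ, k, hk, hφ, hL⟩ := hL
  have hν : (fun p : ℕ × ℕ => p.1 + 2 * k (p.1, 0)) ∈ F :=
    hF.add' hF.fst' (hF.mul' (hF.const 2) (hF.comp' hk hF.fst' (hF.const 0)))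
  have hφ' : UF F (fun a => 0 < a) fun n _ z =>
      φ n 0 fun i => if i < n + 2 * k (n, 0) then z i else 0 :=
    (hK.subst hφ (hK.ite_lt hF.snd' hν (hK.var hF.snd') (hK.const 0)) hF.fst' (hF.const 0)
      (hF.unpair2 hF.snd')).congr fun n j z => by simp only [Nat.unpair_pair]
  obtain ⟨κ, m, hm, ty, hty, ix, hix, I, hI, J, hJ, hQ⟩ := h1 F hF _ hφ' _ hν
  obtain ⟨B, hB, eB⟩ := phardu.table hF hK' κ hm hty hix hI hJ
  have hr : (fun p : ℕ × ℕ => m (p.1, 0) ^ 8) ∈ F :=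
    hF.pow' (hF.comp' hm hF.fst' (hF.const 0)) 8
  refine ⟨fun x => outF (fun a => a ≠ 0) (fun _ _ _ => 1) B (m (x.length, 0) ^ 8) x.length
    fun i => x.getD i 0, hK'.poly hr (hK'.const 1) hB fun _ => rfl, fun x => ?_⟩
  obtain ⟨q1, q2, q3, q4⟩ := hQ x.length
  have q2' : x.length + 2 * k (x.length, 0) ≤ m (x.length, 0) := q2
  beta_reduce
  rw [phardu.out_all, hL, h2 _ (m (x.length, 0)) _ (by omega)]
  obtain ⟨y, hy⟩ : ∃ y, y = (List.range (m (x.length, 0) ^ 8)).map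
      fun P => B x.length P fun i => x.getD i 0 := ⟨_, rfl⟩
  rw [← hy]
  have hl : y.length.sqrt.sqrt.sqrt = m (x.length, 0) := by
    have e8 : m (x.length, 0) ^ 8 = ((m (x.length, 0) ^ 2) ^ 2) ^ 2 := by ring
    rw [hy, List.length_map, List.length_range, e8, Nat.sqrt_eq', Nat.sqrt_eq', Nat.sqrt_eq']
  have hg : ∀ P < m (x.length, 0) ^ 8, y.getD P 0 = B x.length P fun i => x.getD i 0 := by
    intro P hP
    rw [hy, List.getD_eq_getElem?_getD, List.getElem?_map, List.getElem?_range hP]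
    rfl
  change _ ↔ Alt y.length.sqrt.sqrt.sqrt _
  rw [hl]
  refine phardu.alt_congr _ fun u => ?_
  have k1 := q4 fun i => if i < x.length then x.getD i 0 else u (i - x.length)
  have k2 : (0 < φ x.length 0 fun i => if i < x.length then x.getD i 0 else
      if i - x.length < 2 * k (x.length, 0) then u (i - x.length) else 0) ↔
      ∃ z : ℕ → ℝ, (∀ i < x.length + 2 * k (x.length, 0),
        z i = if i < x.length then x.getD i 0 else u (i - x.length)) ∧
        0 < φ x.length 0 fun i => if i < x.length + 2 * k (x.length, 0) then z i else 0 := by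
    have key : ∀ z : ℕ → ℝ, (∀ i < x.length + 2 * k (x.length, 0),
        z i = if i < x.length then x.getD i 0 else u (i - x.length)) →
        (fun i => if i < x.length + 2 * k (x.length, 0) then z i else 0) =
          fun i => if i < x.length then x.getD i 0 else
            if i - x.length < 2 * k (x.length, 0) then u (i - x.length) else 0 := by
      intro z hz
      funext i
      by_cases a1 : i < x.length + 2 * k (x.length, 0)
      · rw [if_pos a1, hz i a1]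
        by_cases a2 : i < x.length
        · rw [if_pos a2, if_pos a2]
        · rw [if_neg a2, if_neg a2, if_pos (by omega)]
      · rw [if_neg a1, if_neg (by omega), if_neg (by omega)]
    constructor
    · intro h
      exact ⟨_, fun _ _ => rfl, by rw [key _ fun _ _ => rfl]; exact h⟩
    · rintro ⟨z, hz, h⟩
      rw [key z hz] at h
      exact h
  refine (k2.trans k1).trans ?_
  refine exists_congr fun ζ => and_congr Iff.rfl (forall₂_congr fun e he => ?_)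
  rw [← phardu.collapse (m (x.length, 0)) _ (fun s => I (x.length, 4 * e + s))
    (fun s => J (x.length, 4 * e + s)) ζ fun s hs => (q3 _ (by omega)).2]
  refine Eq.congr_left (Finset.sum_congr rfl fun i hi => Finset.sum_congr rfl fun j hj => ?_)
  rw [Finset.mem_range] at hi hj
  congr 2
  have b0 := hg _ (phardu.size _ e i j 0 q1 he hi hj (by omega))
  rw [eB _ e i j 0 _ hi hj (by omega), add_zero] at b0
  beta_reduce
  rw [b0, Finset.sum_congr (s₁ := Finset.range (2 * m (x.length, 0))) rfl fun q hq => by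
    have hq' : q + 1 < 2 * m (x.length, 0) + 1 := Nat.succ_lt_succ (Finset.mem_range.1 hq)
    rw [hg _ (phardu.size _ e i j (q + 1) q1 he hi hj hq'), eB _ e i j (q + 1) _ hi hj hq',
      Finset.sum_mul], Finset.sum_comm (s := Finset.range (2 * m (x.length, 0))),
    ← Finset.sum_add_distrib]
  refine Finset.sum_congr rfl fun s hs => ?_
  rw [Finset.mem_range] at hs
  by_cases c1 : I (x.length, 4 * e + s) = i
  · by_cases c2 : J (x.length, 4 * e + s) = j
    · simp only [if_pos c1, if_pos c2]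
      refine (phardu.tm_sum κ (ty (x.length, 4 * e + s)) (ix (x.length, 4 * e + s)) x.length
        (m (x.length, 0)) (fun i => x.getD i 0) u fun h => ?_).symm
      have : ix (x.length, 4 * e + s) < x.length + 2 * k (x.length, 0) :=
        (q3 _ (by omega)).1 h
      omega
    · simp only [if_pos c1, if_neg c2, zero_mul, Finset.sum_const_zero, add_zero]
  · simp only [if_neg c1, zero_mul, Finset.sum_const_zero, add_zero]

end Pool.Agent.MP_8a92de_lc.U43

end Row_phardu
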