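import Pool.Agent.MP_8a92de_lc.U43.IDefs
import Pool.Agent.Lib.Cx.All

section Row_ptc
namespace Pool.Agent.MP_8a92de_lc.U43

open Pool.Agent.Lib.Cx

namespace Rptc

/-- the value is computed in binary and is polynomially bounded -/
def Nice (α : ℕ × ℕ → ℕ) : Prop :=
  ∃ a : List Bool × List Bool → ℕ, PT a ∧ PB a ∧
    ∀ n k, a (List.replicate n true, List.replicate k true) = α (n, k)

theorem nice_iff {α : ℕ × ℕ → ℕ} : α ∈ PTime ↔ Nice α := by
  constructor
  · rintro ⟨g, hg, h⟩
    have hg' : PT g := pt_iff_isPolyTime.2 hg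
    exact ⟨fun x => (g x).length, hg'.length, PB.length hg', h⟩
  · rintro ⟨a, h1, h2, h⟩
    refine ⟨fun x => List.replicate (a x) true,
      pt_iff_isPolyTime.1 (PT.replicate h1 h2 (PT.const true)), fun n k => ?_⟩
    rw [List.length_replicate, h]

theorem count_lt (s m : ℕ) (h : s ≤ m) :
    (List.range m).countP (fun i => decide (i < s)) = s := by
  induction m, h using Nat.le_induction with
  | base =>
    have e : (List.range s).countP (fun i => decide (i < s)) = (List.range s).length :=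
      List.countP_eq_length.2 fun i hi => decide_eq_true (List.mem_range.1 hi)
    rw [e, List.length_range]
  | succ m hm ih =>
    rw [List.range_succ, List.countP_append, ih]
    have : ¬ m < s := by omega
    simp [this]

theorem sqrt_eq (m : ℕ) :
    Nat.sqrt m = (List.range m).countP fun i => decide ((i + 1) * (i + 1) < m + 1) := by
  rw [← count_lt (Nat.sqrt m) m (Nat.sqrt_le_self m)]
  refine List.countP_congr fun i _ => ?_
  simp only [decide_eq_true_eq]
  rw [Nat.lt_succ_iff, ← Nat.le_sqrt]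
  omega

theorem poly_le (q : Polynomial ℕ) : ∃ c : ℕ, ∀ X : ℕ, 2 ≤ X → q.eval (6 * X) ≤ X ^ c := by
  induction q using Polynomial.induction_on' with
  | add p q hp hq =>
    obtain ⟨c, hc⟩ := hp
    obtain ⟨d, hd⟩ := hq
    refine ⟨c + d + 1, fun X hX => ?_⟩
    have h1 : X ^ c ≤ X ^ (c + d) := Nat.pow_le_pow_right (by omega) (by omega)
    have h2 : X ^ d ≤ X ^ (c + d) := Nat.pow_le_pow_right (by omega) (by omega)
    have h3 := hc X hX
    have h4 := hd X hX
    have h5 : X ^ (c + d) * 2 ≤ X ^ (c + d) * X := Nat.mul_le_mul_left _ hX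
    rw [Polynomial.eval_add, pow_succ]
    omega
  | monomial i b =>
    refine ⟨b + 4 * i, fun X hX => ?_⟩
    have h1 : b ≤ X ^ b := (Nat.lt_pow_self (by omega)).le
    have h2 : 6 * X ≤ X ^ 4 := by
      have h3 : 2 ^ 3 ≤ X ^ 3 := Nat.pow_le_pow_left hX 3
      have h4 : X ^ 4 = X ^ 3 * X := pow_succ X 3
      rw [h4]
      exact Nat.mul_le_mul_right X (by omega)
    rw [Polynomial.eval_monomial, pow_add, pow_mul]
    exact Nat.mul_le_mul h1 (Nat.pow_le_pow_left h2 i)

end Rptc

open Rptc in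
theorem ptc : PTC := by
  refine ⟨nice_iff.2 ?_, nice_iff.2 ?_, fun c => nice_iff.2 ?_, fun α hα β hβ => nice_iff.2 ?_,
    fun α hα β hβ => nice_iff.2 ?_, fun α hα β hβ => nice_iff.2 ?_,
    fun α hα β hβ => nice_iff.2 ?_, fun α hα => nice_iff.2 ?_,
    fun φ hφ α hα β hβ => nice_iff.2 ?_, fun α hα => ?_⟩
  · exact ⟨fun x => x.1.length, PT.id'.fst.length, PB.length PT.id'.fst,
      fun n k => List.length_replicate⟩
  · exact ⟨fun x => x.2.length, PT.id'.snd.length, PB.length PT.id'.snd,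
      fun n k => List.length_replicate⟩
  · exact ⟨fun _ => c, PT.const c, PB.const c, fun _ _ => rfl⟩
  · obtain ⟨a, a1, a2, a3⟩ := nice_iff.1 hα
    obtain ⟨b, b1, b2, b3⟩ := nice_iff.1 hβ
    exact ⟨fun x => a x + b x, a1.add b1, a2.add b2, fun n k => by simp only [a3, b3]⟩
  · obtain ⟨a, a1, a2, a3⟩ := nice_iff.1 hα
    obtain ⟨b, b1, b2, b3⟩ := nice_iff.1 hβ
    exact ⟨fun x => a x * b x, a1.mul b1, a2.mul b2, fun n k => by simp only [a3, b3]⟩
  · obtain ⟨a, a1, a2, a3⟩ := nice_iff.1 hα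
    obtain ⟨b, b1, b2, b3⟩ := nice_iff.1 hβ
    exact ⟨fun x => a x - b x, a1.sub b1, a2.sub, fun n k => by simp only [a3, b3]⟩
  · obtain ⟨a, a1, a2, a3⟩ := nice_iff.1 hα
    obtain ⟨b, b1, b2, b3⟩ := nice_iff.1 hβ
    exact ⟨fun x => a x / b x, a1.div b1, a2.div, fun n k => by simp only [a3, b3]⟩
  · obtain ⟨a, a1, a2, a3⟩ := nice_iff.1 hα
    refine ⟨fun x => Nat.sqrt (a x), ?_, a2.mono fun x => Nat.sqrt_le_self _,
      fun n k => by simp only [a3]⟩
    have hs : PT fun p : (List Bool × List Bool) × ℕ => p.2 + 1 := PT.id'.snd.addOne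
    have ha : PT fun p : (List Bool × List Bool) × ℕ => a p.1 + 1 :=
      (a1.comp' PT.id'.fst).addOne
    exact (PT.countP (f := fun x i => decide ((i + 1) * (i + 1) < a x + 1))
      (PT.decideLt (hs.mul hs) ha) (PT.range a1 a2)).of_eq fun x => sqrt_eq (a x)
  · obtain ⟨f, f1, f2, f3⟩ := nice_iff.1 hφ
    obtain ⟨a, a1, a2, a3⟩ := nice_iff.1 hα
    obtain ⟨b, b1, b2, b3⟩ := nice_iff.1 hβ
    have hp := PT.prodMk (PT.replicate a1 a2 (PT.const true)) (PT.replicate b1 b2 (PT.const true))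
    exact ⟨fun x => f (List.replicate (a x) true, List.replicate (b x) true), f1.comp' hp,
      f2.comp hp, fun n k => by simp only [a3, b3, f3]⟩
  · obtain ⟨a, -, ⟨q, hq⟩, a3⟩ := nice_iff.1 hα
    obtain ⟨c, hc⟩ := poly_le q
    refine ⟨c, fun p => ?_⟩
    have h1 := hq (List.replicate p.1 true, List.replicate p.2 true)
    rw [a3] at h1
    refine h1.trans ((eval_mono q ?_).trans (hc (p.1 + p.2 + 2) (by omega)))
    rw [size_prod, size_listBool, size_listBool, List.length_replicate, List.length_replicate]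
    omega

end Pool.Agent.MP_8a92de_lc.U43

end Row_ptc

section Row_nonuni
namespace Pool.Agent.MP_8a92de_lc.U43

/-- all polynomially bounded index functions -/
def All : Set (ℕ × ℕ → ℕ) := {α | ∃ c : ℕ, ∀ p : ℕ × ℕ, α p ≤ (p.1 + p.2 + 2) ^ c}

namespace NonUni

theorem pw {X a b : ℕ} (hX : 2 ≤ X) : X ^ a + X ^ b ≤ X ^ (a + b + 1) := by
  have h1 : X ^ a ≤ X ^ (a + b) := Nat.pow_le_pow_right (by omega) (by omega)
  have h2 : X ^ b ≤ X ^ (a + b) := Nat.pow_le_pow_right (by omega) (by omega)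
  have h3 := Nat.mul_le_mul_left (X ^ (a + b)) hX
  rw [pow_succ]
  omega

theorem cst {X : ℕ} (hX : 2 ≤ X) (c : ℕ) : c ≤ X ^ c :=
  (Nat.lt_two_pow_self).le.trans (Nat.pow_le_pow_left hX c)

end NonUni

theorem clone_all : Clone All where
  fst := ⟨1, fun p => by simp; omega⟩
  snd := ⟨1, fun p => by simp; omega⟩
  const c := ⟨c, fun p => NonUni.cst (by omega) c⟩
  add := fun _ ⟨a, ha⟩ _ ⟨b, hb⟩ =>
    ⟨a + b + 1, fun p => (add_le_add (ha p) (hb p)).trans (NonUni.pw (by omega))⟩
  mul := fun _ ⟨a, ha⟩ _ ⟨b, hb⟩ =>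
    ⟨a + b, fun p => (Nat.mul_le_mul (ha p) (hb p)).trans_eq (pow_add _ _ _).symm⟩
  sub := fun _ ⟨a, ha⟩ _ _ => ⟨a, fun p => (Nat.sub_le _ _).trans (ha p)⟩
  div := fun _ ⟨a, ha⟩ _ _ => ⟨a, fun p => (Nat.div_le_self _ _).trans (ha p)⟩
  sqrt := fun _ ⟨a, ha⟩ => ⟨a, fun p => (Nat.sqrt_le_self _).trans (ha p)⟩
  comp := fun _ ⟨c, hc⟩ α ⟨a, ha⟩ β ⟨b, hb⟩ => ⟨(a + b + 1 + 1 + 1) * c, fun p => by
    refine (hc _).trans ?_
    rw [pow_mul]
    refine Nat.pow_le_pow_left ?_ c
    have h1 := (add_le_add (ha p) (hb p)).trans (NonUni.pw (by omega))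
    have h2 := NonUni.pw (X := p.1 + p.2 + 2) (a := a + b + 1) (b := 1) (by omega)
    rw [pow_one] at h2
    show α p + β p + 2 ≤ _
    omega⟩
  bound := fun _ h => h

namespace NonUni

open E43 (Gates outputs)

theorem toList (t : ℝ → Prop) (κ : List ℝ) (o a b c : ℕ × ℕ → ℕ) (n g : ℕ) :
    ∃ l, Gates t ((insert 0 κ.toFinset : Finset ℝ) : Set ℝ) l ∧ l.length ≤ g + 1 ∧
      ∀ i, (fun z => run t κ o a b c n z g i) ∈ l := by
  classical
  induction g with
  | zero => exact ⟨_, .const 0 (by simp) .nil, by simp, fun i => List.mem_cons_self⟩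
  | succ g ih =>
    obtain ⟨l, h1, h2, h3⟩ := ih
    have key : Gates t ((insert 0 κ.toFinset : Finset ℝ) : Set ℝ)
        ((fun z => gate t κ o a b c n z g) :: l) := by
      simp only [gate_eq]
      by_cases e0 : o (n, g) = 0
      · simp only [if_pos e0]
        refine .const _ ?_ h1
        by_cases h : a (n, g) < κ.length
        · simp [List.getD_eq_getElem?_getD, h]
        · simp [List.getD_eq_getElem?_getD, h]
      simp only [if_neg e0]
      by_cases e1 : o (n, g) = 1
      · simp only [if_pos e1]; exact .var _ h1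
      simp only [if_neg e1]
      by_cases e2 : o (n, g) = 2
      · simp only [if_pos e2]; exact .add h1 (h3 _) (h3 _)
      simp only [if_neg e2]
      by_cases e3 : o (n, g) = 3
      · simp only [if_pos e3]; exact .mul h1 (h3 _) (h3 _)
      simp only [if_neg e3]
      by_cases e4 : o (n, g) = 4
      · simp only [if_pos e4]; exact .div h1 (h3 _) (h3 _)
      simp only [if_neg e4]
      exact .sel h1 (h3 _) (h3 _) (h3 _)
    refine ⟨_, key, by simpa using h2, fun i => ?_⟩
    by_cases h : i = g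
    · subst h
      exact List.mem_cons_self
    · refine List.mem_cons_of_mem _ ?_
      have := h3 i
      simpa only [run, Function.update_of_ne h] using this

theorem gate_congr (t : ℝ → Prop) (κ : List ℝ) {o a b c o' a' b' c' : ℕ × ℕ → ℕ} (n : ℕ)
    (z : ℕ → ℝ) (g : ℕ) (h : ∀ i < g, o (n, i) = o' (n, i) ∧ a (n, i) = a' (n, i) ∧
      b (n, i) = b' (n, i) ∧ c (n, i) = c' (n, i)) :
    run t κ o a b c n z g = run t κ o' a' b' c' n z g := by
  induction g with
  | zero => rfl
  | succ g ih =>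
    obtain ⟨e1, e2, e3, e4⟩ := h g (Nat.lt_succ_self g)
    rw [run, run, ih fun i hi => h i (by omega), e1, e2, e3, e4]

/-- tables for one input length -/
def Tab (t : ℝ → Prop) (κ : List ℝ) (n : ℕ) (l : List ((ℕ → ℝ) → ℝ)) : Prop :=
  ∃ o a b c : ℕ × ℕ → ℕ, (∀ p, o p ≤ 5 ∧ a p ≤ n + p.2 + κ.length ∧ b p ≤ p.2 ∧ c p ≤ p.2) ∧
    ∀ u ∈ l, ∃ g < l.length, ∀ z : ℕ → ℝ, (∀ i, n ≤ i → z i = 0) →
      gate t κ o a b c n z g = u z

open Classical in
theorem step {t : ℝ → Prop} {κ : List ℝ} {n : ℕ} {l : List ((ℕ → ℝ) → ℝ)}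
    {o a b c : ℕ × ℕ → ℕ}
    (h0 : ∀ p, o p ≤ 5 ∧ a p ≤ n + p.2 + κ.length ∧ b p ≤ p.2 ∧ c p ≤ p.2)
    (h1 : ∀ u ∈ l, ∃ g < l.length, ∀ z : ℕ → ℝ, (∀ i, n ≤ i → z i = 0) →
      gate t κ o a b c n z g = u z) (u : (ℕ → ℝ) → ℝ) (o1 a1 b1 c1 : ℕ) (ho : o1 ≤ 5)
    (ha : a1 ≤ n + l.length + κ.length) (hb : b1 ≤ l.length) (hc : c1 ≤ l.length)
    (hu : ∀ z : ℕ → ℝ, (∀ i, n ≤ i → z i = 0) →
      (if o1 = 0 then κ.getD a1 0 else if o1 = 1 then z a1
      else if o1 = 2 then run t κ o a b c n z l.length a1 + run t κ o a b c n z l.length b1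
      else if o1 = 3 then run t κ o a b c n z l.length a1 * run t κ o a b c n z l.length b1
      else if o1 = 4 then run t κ o a b c n z l.length a1 / run t κ o a b c n z l.length b1
      else if t (run t κ o a b c n z l.length a1) then run t κ o a b c n z l.length b1
      else run t κ o a b c n z l.length c1) = u z) : Tab t κ n (u :: l) := by
  have cg : ∀ z g, g ≤ l.length → run t κ (fun p => if p.2 = l.length then o1 else o p)
      (fun p => if p.2 = l.length then a1 else a p) (fun p => if p.2 = l.length then b1 else b p)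
      (fun p => if p.2 = l.length then c1 else c p) n z g = run t κ o a b c n z g :=
    fun z g hg => gate_congr t κ n z g fun i hi => by
      have : i ≠ l.length := by omega
      simp [this]
  refine ⟨fun p => if p.2 = l.length then o1 else o p,
    fun p => if p.2 = l.length then a1 else a p, fun p => if p.2 = l.length then b1 else b p,
    fun p => if p.2 = l.length then c1 else c p, fun p => ?_, fun v hv => ?_⟩
  · have := h0 p
    by_cases h : p.2 = l.length <;> simp only [h, if_true, if_false] <;> omega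
  · rcases List.mem_cons.1 hv with rfl | hv
    · refine ⟨l.length, by simp, fun z hz => ?_⟩
      rw [gate_eq, cg z _ le_rfl]
      simpa only [if_true] using hu z hz
    · obtain ⟨g, g1, g2⟩ := h1 v hv
      refine ⟨g, by simp; omega, fun z hz => ?_⟩
      rw [gate, cg z _ g1]
      exact g2 z hz

theorem toTab (t : ℝ → Prop) (S : Finset ℝ) (n : ℕ) {l : List ((ℕ → ℝ) → ℝ)}
    (h : Gates t (S : Set ℝ) l) : Tab t S.toList n l := by
  classical
  induction h with
  | nil => exact ⟨0, 0, 0, 0, by simp, by simp⟩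
  | const c hc _ ih =>
    obtain ⟨o, a, b, c', h0, h1⟩ := ih
    obtain ⟨i, hi, e⟩ := List.getElem_of_mem (Finset.mem_toList.2 (Finset.mem_coe.1 hc))
    exact step h0 h1 _ 0 i 0 0 (by omega) (by omega) (by omega) (by omega) fun z _ => by
      rw [if_pos rfl, List.getD_eq_getElem _ _ hi, e]
  | var i _ ih =>
    obtain ⟨o, a, b, c', h0, h1⟩ := ih
    refine step h0 h1 _ 1 (min i n) 0 0 (by omega) (by omega) (by omega) (by omega) fun z hz => ?_
    rw [if_neg (by omega), if_pos rfl]
    rcases le_total i n with h | h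
    · rw [min_eq_left h]
    · rw [min_eq_right h, hz n le_rfl, hz i h]
  | add _ hu hv ih =>
    obtain ⟨o, a, b, c', h0, h1⟩ := ih
    obtain ⟨g, g1, g2⟩ := h1 _ hu
    obtain ⟨k, k1, k2⟩ := h1 _ hv
    exact step h0 h1 _ 2 g k 0 (by omega) (by omega) (by omega) (by omega) fun z hz => by
      simp [run_eq, g1, k1, g2 z hz, k2 z hz]
  | mul _ hu hv ih =>
    obtain ⟨o, a, b, c', h0, h1⟩ := ih
    obtain ⟨g, g1, g2⟩ := h1 _ hu
    obtain ⟨k, k1, k2⟩ := h1 _ hv
    exact step h0 h1 _ 3 g k 0 (by omega) (by omega) (by omega) (by omega) fun z hz => by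
      simp [run_eq, g1, k1, g2 z hz, k2 z hz]
  | div _ hu hv ih =>
    obtain ⟨o, a, b, c', h0, h1⟩ := ih
    obtain ⟨g, g1, g2⟩ := h1 _ hu
    obtain ⟨k, k1, k2⟩ := h1 _ hv
    exact step h0 h1 _ 4 g k 0 (by omega) (by omega) (by omega) (by omega) fun z hz => by
      simp [run_eq, g1, k1, g2 z hz, k2 z hz]
  | sel _ hu hv hw ih =>
    obtain ⟨o, a, b, c', h0, h1⟩ := ih
    obtain ⟨g, g1, g2⟩ := h1 _ hu
    obtain ⟨k, k1, k2⟩ := h1 _ hv
    obtain ⟨m, m1, m2⟩ := h1 _ hw
    exact step h0 h1 _ 5 g k m (by omega) (by omega) (by omega) (by omega) fun z hz => by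
      simp [run_eq, g1, k1, m1, g2 z hz, k2 z hz, m2 z hz]

end NonUni

open NonUni in
/-- every uniform family is a non-uniform one -/
theorem Poly.nonuni {F : Set (ℕ × ℕ → ℕ)} (hF : Clone F) {t : ℝ → Prop} {f : List ℝ → List ℝ}
    (h : Poly F t f) : E43.Poly t f := by
  classical
  obtain ⟨κ, o, -, a, -, b, -, c, -, r, hr, p, hp, q, hq, h⟩ := h
  obtain ⟨c1, h1⟩ := hF.bound _ (hF.comp' hr hF.fst' (hF.const 0))
  obtain ⟨c2, h2⟩ := hF.bound _ (hF.add' hp hq)
  refine ⟨insert 0 κ.toFinset, c1 + ((1 + c1 + 1) * c2 + 1 + 1), fun n => ?_⟩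
  have r1 : r (n, 0) ≤ (n + 2) ^ c1 := by simpa using h1 (n, 0)
  have r2 : ∀ k < r (n, 0), p (n, k) + q (n, k) ≤ (n + 2) ^ ((1 + c1 + 1) * c2) := fun k hk => by
    refine (h2 (n, k)).trans ?_
    rw [pow_mul]
    refine Nat.pow_le_pow_left ?_ _
    have := pw (X := n + 2) (a := 1) (b := c1) (by omega)
    rw [pow_one] at this
    show n + k + 2 ≤ _
    omega
  obtain ⟨l, l1, l2, l3⟩ := toList t κ o a b c n ((n + 2) ^ ((1 + c1 + 1) * c2) + 1)
  refine ⟨l, (List.range (r (n, 0))).map fun k =>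
    (fun z => gate t κ o a b c n z (p (n, k)), fun z => gate t κ o a b c n z (q (n, k))),
    l1, ?_, ?_, fun u hu => ?_, fun x hx => ?_⟩
  · have := pw (X := n + 2) (a := (1 + c1 + 1) * c2) (b := 1) (by omega)
    rw [pow_one] at this
    refine l2.trans (le_trans ?_ (Nat.pow_le_pow_right (by omega) (Nat.le_add_left _ c1)))
    omega
  · rw [List.length_map, List.length_range]
    exact r1.trans (Nat.pow_le_pow_right (by omega) (Nat.le_add_right _ _))
  · obtain ⟨k, hk, rfl⟩ := List.mem_map.1 hu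
    have := r2 k (List.mem_range.1 hk)
    have e1 := l3 (p (n, k))
    have e2 := l3 (q (n, k))
    simp only [run_eq] at e1 e2
    rw [show (fun z => if p (n, k) < (n + 2) ^ ((1 + c1 + 1) * c2) + 1 then
      gate t κ o a b c n z (p (n, k)) else 0) = fun z => gate t κ o a b c n z (p (n, k)) from
        funext fun z => if_pos (by omega)] at e1
    rw [show (fun z => if q (n, k) < (n + 2) ^ ((1 + c1 + 1) * c2) + 1 then
      gate t κ o a b c n z (q (n, k)) else 0) = fun z => gate t κ o a b c n z (q (n, k)) from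
        funext fun z => if_pos (by omega)] at e2
    exact ⟨e1, e2⟩
  · rw [h x, hx, E43.outputs, List.filter_map, List.map_map]
    rfl

open NonUni in
/-- with all polynomially bounded tables the model is the non-uniform one -/
theorem poly_all {t : ℝ → Prop} {f : List ℝ → List ℝ} : Poly All t f ↔ E43.Poly t f := by
  classical
  refine ⟨Poly.nonuni clone_all, fun ⟨S, c, h⟩ => ?_⟩
  choose l out h1 h2 h3 h4 h5 using h
  choose o a b c' h6 h7 using fun n => toTab t S n (h1 n)
  choose! g g1 g2 using h7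
  have bd : ∀ n u, u ∈ l n → ∀ k : ℕ, g n u ≤ (n + k + 2) ^ c := fun n u hu k =>
    (g1 n u hu).le.trans ((h2 n).trans (Nat.pow_le_pow_left (by omega) c))
  refine ⟨S.toList, fun p => o p.1 p, ⟨5, fun p => (h6 p.1 p).1.trans (cst (by omega) 5)⟩,
    fun p => a p.1 p, ⟨1 + S.toList.length + 1, fun p => ?_⟩,
    fun p => b p.1 p, ⟨1, fun p => by have := (h6 p.1 p).2.2.1; simp; omega⟩,
    fun p => c' p.1 p, ⟨1, fun p => by have := (h6 p.1 p).2.2.2; simp; omega⟩,
    fun p => (out p.1).length,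
    ⟨c, fun p => (h3 p.1).trans (Nat.pow_le_pow_left (by omega) c)⟩,
    fun p => if h : p.2 < (out p.1).length then g p.1 ((out p.1)[p.2]).1 else 0, ⟨c, fun p => ?_⟩,
    fun p => if h : p.2 < (out p.1).length then g p.1 ((out p.1)[p.2]).2 else 0, ⟨c, fun p => ?_⟩,
    fun x => ?_⟩
  · have := (h6 p.1 p).2.1
    have h8 := pw (X := p.1 + p.2 + 2) (a := 1) (b := S.toList.length) (by omega)
    have h9 := cst (X := p.1 + p.2 + 2) (by omega) S.toList.length
    rw [pow_one] at h8
    beta_reduce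
    omega
  · beta_reduce
    split_ifs with h
    · exact bd _ _ (h4 _ _ (List.getElem_mem h)).1 _
    · exact Nat.zero_le _
  · beta_reduce
    split_ifs with h
    · exact bd _ _ (h4 _ _ (List.getElem_mem h)).2 _
    · exact Nat.zero_le _
  · have hz : ∀ i, x.length ≤ i → x.getD i 0 = 0 := fun i hi => List.getD_eq_default _ _ hi
    have cg : ∀ u ∈ l x.length, gate t S.toList (fun p => o p.1 p) (fun p => a p.1 p)
        (fun p => b p.1 p) (fun p => c' p.1 p) x.length (fun i => x.getD i 0) (g x.length u) =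
          u fun i => x.getD i 0 := fun u hu => by
      rw [← g2 x.length u hu _ hz, gate, gate]
      exact congrFun (gate_congr t _ (o := fun p => o p.1 p) (a := fun p => a p.1 p)
        (b := fun p => b p.1 p) (c := fun p => c' p.1 p) (o' := o x.length) (a' := a x.length)
        (b' := b x.length) (c' := c' x.length) _ _ _ fun i _ => ⟨rfl, rfl, rfl, rfl⟩) _
    rw [h5 x.length x rfl, E43.outputs]
    have e : out x.length = (List.range (out x.length).length).map fun k =>
        (out x.length).getD k (fun _ => 0, fun _ => 0) := by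
      refine List.ext_getElem (by simp) fun i h1 h2 => ?_
      simp [List.getD_eq_getElem?_getD, h1]
    conv_lhs => rw [e]
    rw [List.filter_map, List.map_map]
    have e1 : ∀ k ∈ List.range (out x.length).length, k < (out x.length).length :=
      fun k hk => List.mem_range.1 hk
    rw [List.filter_congr (q := fun k => decide (t (gate t S.toList (fun p => o p.1 p)
      (fun p => a p.1 p) (fun p => b p.1 p) (fun p => c' p.1 p) x.length (fun i => x.getD i 0)
      (if h : k < (out x.length).length then g x.length ((out x.length)[k]).1 else 0))))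
      fun k hk => by
        have := e1 k hk
        simp only [Function.comp, dif_pos this, List.getD_eq_getElem _ _ this,
          cg _ (h4 _ _ (List.getElem_mem this)).1]]
    refine List.map_congr_left fun k hk => ?_
    have := e1 k (List.mem_filter.1 hk).1
    simp only [Function.comp, dif_pos this, List.getD_eq_getElem _ _ this,
      cg _ (h4 _ _ (List.getElem_mem this)).2]

end Pool.Agent.MP_8a92de_lc.U43

end Row_nonuni
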