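import Pool.Agent.MP_8a92de_lc.U43.Stmts
import Pool.Agent.MP_8a92de_lc.E43.PDefs
import Pool.Prelude.Def_H_3587d628

namespace Pool.Agent.MP_8a92de_lc.U43

open Pool.Agent.MP_8a92de_lc.E43 (Alt ALTPAD ALTEX)

/-- NP over the ordered reals, uniform relative to `F`: the inputs from `n` on are the witness -/
def NP (F : Set (ℕ × ℕ → ℕ)) : Set (Set (List ℝ)) :=
  {L | ∃ φ : Fam, UF F (fun a => 0 < a) φ ∧ ∀ x : List ℝ,
    x ∈ L ↔ ∃ z : ℕ → ℝ, (∀ i < x.length, z i = x.getD i 0) ∧ 0 < φ x.length 0 z}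

/-- alternating polynomial time over the ordered reals, uniform relative to `F` -/
def PAT (F : Set (ℕ × ℕ → ℕ)) : Set (Set (List ℝ)) :=
  {L | ∃ φ : Fam, ∃ k ∈ F, UF F (fun a => 0 < a) φ ∧ ∀ x : List ℝ,
    x ∈ L ↔ Alt (k (x.length, 0)) fun u =>
      0 < φ x.length 0 fun i => if i < x.length then x.getD i 0 else u (i - x.length)}

/-- `m` quadratic equations in `m - 1` unknowns with coefficient table `y` have a real solution -/
def Sol (m : ℕ) (y : ℕ → ℝ) : Prop :=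
  ∃ ζ : ℕ → ℝ, ζ 0 = 1 ∧ ∀ e < m,
    ∑ i ∈ Finset.range m, ∑ j ∈ Finset.range m, y (e * m ^ 2 + i * m + j) * ζ i * ζ j = 0

def QPS : Set (List ℝ) := {y | Sol y.length.sqrt.sqrt fun p => y.getD p 0}

/-- quantified version: the coefficients are affine in the quantified reals -/
def QQ : Set (List ℝ) :=
  {y | Alt y.length.sqrt.sqrt.sqrt fun u => Sol y.length.sqrt.sqrt.sqrt fun p =>
    y.getD (p * (2 * y.length.sqrt.sqrt.sqrt + 1)) 0 +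
      ∑ k ∈ Finset.range (2 * y.length.sqrt.sqrt.sqrt),
        y.getD (p * (2 * y.length.sqrt.sqrt.sqrt + 1) + (k + 1)) 0 * u k}

/-- length and entries of an output list -/
def SELF : Prop := ∀ F, Clone F → ∀ t, Kit F t → ∀ (A B : Fam), ∀ r ∈ F, UF F t A → UF F t B →
  (UF F t fun n _ z => ((outF t A B (r (n, 0)) n z).length : ℝ)) ∧
  UF F t fun n i z => (outF t A B (r (n, 0)) n z).getD i 0

/-- uses SELF -/
def CLOSEU : Prop := ∀ F, Clone F → Kit F (fun a => 0 < a) → ∀ L ∈ NP F, ∀ L' : Set (List ℝ),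
  (∃ f, Poly F (fun a => 0 < a) f ∧ ∀ x, x ∈ L' ↔ f x ∈ L) → L' ∈ NP F

/-- uses SELF, ALTPAD -/
def PCLOSEU : Prop := ∀ F, Clone F → Kit F (fun a => 0 < a) → ∀ L ∈ PAT F, ∀ L' : Set (List ℝ),
  (∃ f, Poly F (fun a => 0 < a) f ∧ ∀ x, x ∈ L' ↔ f x ∈ L) → L' ∈ PAT F

/-- sparse equations: term `s < 4` of equation `e` sits at position `4 e + s` -/
def Sp (κ : List ℝ) (ty ix I J : ℕ × ℕ → ℕ) (n m : ℕ) (x : ℕ → ℝ) : Prop :=
  ∃ ζ : ℕ → ℝ, ζ 0 = 1 ∧ ∀ e < m, ∑ s ∈ Finset.range 4,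
    (if ty (n, 4 * e + s) = 0 then κ.getD (ix (n, 4 * e + s)) 0 else x (ix (n, 4 * e + s))) *
      ζ (I (n, 4 * e + s)) * ζ (J (n, 4 * e + s)) = 0

/-- the first `ν` inputs are known, the others are guessed -/
def QUADU : Prop := ∀ F, Clone F → ∀ φ : Fam, UF F (fun a => 0 < a) φ → ∀ ν ∈ F,
  ∃ κ : List ℝ, ∃ m ∈ F, ∃ ty ∈ F, ∃ ix ∈ F, ∃ I ∈ F, ∃ J ∈ F, ∀ n : ℕ,
    2 ≤ m (n, 0) ∧ ν (n, 0) ≤ m (n, 0) ∧
    (∀ k < 4 * m (n, 0), (ty (n, k) ≠ 0 → ix (n, k) < ν (n, 0)) ∧ I (n, k) < m (n, 0) ∧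
      J (n, k) < m (n, 0)) ∧
    ∀ x : ℕ → ℝ, (∃ z : ℕ → ℝ, (∀ i < ν (n, 0), z i = x i) ∧ 0 < φ n 0 z) ↔
      Sp κ ty ix I J n (m (n, 0)) x

/-- uses QUADU; the output has length `m ^ 4` -/
def HARDU : Prop := ∀ F, Clone F → Kit F (fun a => a ≠ 0) → ∀ L ∈ NP F,
  ∃ f, Poly F (fun a => a ≠ 0) f ∧ ∀ x, x ∈ L ↔ f x ∈ QPS

/-- uses QUADU, ALTPAD; the output has length `m ^ 8` -/
def PHARDU : Prop := ∀ F, Clone F → Kit F (fun a => 0 < a) → Kit F (fun a => a ≠ 0) →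
  ∀ L ∈ PAT F, ∃ f, Poly F (fun a => a ≠ 0) f ∧ ∀ x, x ∈ L ↔ f x ∈ QQ

def MEMU : Prop := ∀ F, Clone F → Kit F (fun a => 0 < a) → QPS ∈ NP F

/-- uses ALTEX -/
def PMEMU : Prop := ∀ F, Clone F → Kit F (fun a => 0 < a) → QQ ∈ PAT F

/-- index functions computable in polynomial time in unary -/
def PTime : Set (ℕ × ℕ → ℕ) :=
  {α | ∃ g : List Bool × List Bool → List Bool, N68a2faeb.IsPolyTime g ∧
    ∀ n k, (g (List.replicate n true, List.replicate k true)).length = α (n, k)}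

def PTC : Prop := Clone PTime

end Pool.Agent.MP_8a92de_lc.U43
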