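import Pool.Agent.Results.MP_8a92de_lc.EqualityReals
import Pool.Agent.MP_8a92de_lc.U43.IA
import Pool.Agent.MP_8a92de_lc.U43.IB
import Pool.Agent.MP_8a92de_lc.U43.IC
import Pool.Agent.MP_8a92de_lc.E43.PRows

namespace Pool.Agent.MP_8a92de_lc.U43

variable {F : Set (ℕ × ℕ → ℕ)}

/-- complete for `C` under many-one reductions by `F`-uniform equality circuits -/
def Complete (F : Set (ℕ × ℕ → ℕ)) (C : Set (Set (List ℝ))) (B : Set (List ℝ)) : Prop :=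
  B ∈ C ∧ ∀ L ∈ C, ∃ f, Poly F (fun a => a ≠ 0) f ∧ ∀ x, x ∈ L ↔ f x ∈ B

theorem np_complete (hF : Clone F) : Complete F (NP F) QPS :=
  ⟨memu F hF (kit_all F hF _), hardu quadu F hF (kit_all F hF _)⟩

theorem pat_complete (hF : Clone F) : Complete F (PAT F) QQ :=
  ⟨pmemu E43.altex F hF (kit_all F hF _),
    phardu quadu E43.altpad F hF (kit_all F hF _) (kit_all F hF _)⟩

theorem nil_mem_QPS : [] ∈ QPS := ⟨fun _ => 1, rfl, by simp⟩

theorem one_notMem_QPS : [1] ∉ QPS := by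
  rintro ⟨ζ, h0, h⟩
  simpa [h0] using h 0 (by simp)

theorem pat_nontrivial (hF : Clone F) : ∃ L ∈ PAT F, (∃ x, x ∈ L) ∧ ∃ x, x ∉ L := by
  refine ⟨{x | 0 < x.getD 0 0}, ⟨_, _, hF.const 0, (kit_all F hF _).var (hF.const 0), fun x => ?_⟩,
    ⟨[1], by simp⟩, ⟨[], by simp⟩⟩
  rcases x with _ | ⟨a, x⟩ <;> simp [E43.Alt]

theorem one_degree (hF : Clone F) {C : Set (Set (List ℝ))}
    (hC : ∀ L ∈ C, ∀ L' : Set (List ℝ),
      (∃ f, Poly F (fun a => 0 < a) f ∧ ∀ x, x ∈ L' ↔ f x ∈ L) → L' ∈ C)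
    (hL : ∃ L ∈ C, (∃ x, x ∈ L) ∧ ∃ x, x ∉ L) {B B' : Set (List ℝ)} (hB : Complete F C B)
    (hB' : Complete F C B') :
    ∃ f, Poly F (fun a => a ≠ 0) f ∧ Function.Injective f ∧ (∀ x, x.length < (f x).length) ∧
      ∀ x, x ∈ B ↔ f x ∈ B' := by
  obtain ⟨L, hL, ⟨x, hx⟩, ⟨y, hy⟩⟩ := hL
  obtain ⟨f, -, hf⟩ := hB.2 L hL
  exact Pool.Agent.Results.MP_8a92de_lc.EqualityReals.result F hF C hC B' hB'.2 B hB.1
    ⟨_, (hf x).1 hx⟩ ⟨_, fun h => hy ((hf y).2 h)⟩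

/-- `NP F` and `PAT F` have complete sets, and these form a single 1-degree -/
theorem inst (hF : Clone F) (C : Set (Set (List ℝ))) (h : C = NP F ∨ C = PAT F) :
    (∃ B, Complete F C B) ∧ ∀ B B', Complete F C B → Complete F C B' →
      ∃ f, Poly F (fun a => a ≠ 0) f ∧ Function.Injective f ∧ (∀ x, x.length < (f x).length) ∧
        ∀ x, x ∈ B ↔ f x ∈ B' := by
  rcases h with rfl | rfl
  · exact ⟨⟨_, np_complete hF⟩, fun _ _ => one_degree hF (closeu selfu F hF (kit_all F hF _))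
      ⟨_, (np_complete hF).1, ⟨_, nil_mem_QPS⟩, ⟨_, one_notMem_QPS⟩⟩⟩
  · exact ⟨⟨_, pat_complete hF⟩, fun _ _ =>
      one_degree hF (pcloseu selfu E43.altpad F hF (kit_all F hF _)) (pat_nontrivial hF)⟩

/-- the uniform and the non-uniform case -/
theorem clones : Clone PTime ∧ Clone All ∧
    ∀ (t : ℝ → Prop) (f : List ℝ → List ℝ), Poly All t f ↔ E43.Poly t f :=
  ⟨ptc, clone_all, fun _ _ => poly_all⟩

end Pool.Agent.MP_8a92de_lc.U43
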