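import Pool.Agent.MP_8a92de_lc.U43.Base

namespace Pool.Agent.MP_8a92de_lc.U43

open MvPolynomial Filter Topology
open Pool.Agent.MP_8a92de_lc.E43 hiding Poly MAIN

/-! ### the kit -/

open Classical in
def BASIC : Prop := ∀ F, Clone F → ∀ t : ℝ → Prop,
  (∀ κ : List ℝ, UF F t fun _ k _ => κ.getD k 0) ∧ (UF F t fun _ k z => z k) ∧
  (UF F t fun _ _ z => z 0 + z 1) ∧ (UF F t fun _ _ z => z 0 * z 1) ∧
  (UF F t fun _ _ z => z 0 / z 1) ∧ UF F t fun _ _ z => if t (z 0) then z 1 else z 2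

def MERGE : Prop := ∀ F, Clone F → ∀ (t : ℝ → Prop) (φ ψ : Fam), UF F t φ → UF F t ψ →
  UF F t fun n k z => if n % 2 = 0 then φ (n / 2) k z else ψ (n / 2) k z

/-- one copy of a circuit of `φ` for each position; its inputs are inputs or earlier positions -/
def BLOCK : Prop := ∀ F, Clone F → ∀ (t : ℝ → Prop) (φ χ : Fam), ∀ ν ∈ F, ∀ α ∈ F, ∀ μ ∈ F,
  ∀ ι ∈ F, UF F t φ →
  (∀ n k z, χ n k z = φ (ν (n, k)) (α (n, k)) fun i =>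
    if μ (n, Nat.pair k i) = 0 then z (ι (n, Nat.pair k i))
    else if ι (n, Nat.pair k i) < k then χ n (ι (n, Nat.pair k i)) z else 0) → UF F t χ

def DEP : Prop := ∀ F, Clone F → ∀ (t : ℝ → Prop) (φ : Fam), UF F t φ → ∃ δ ∈ F,
  ∀ n k z z', (∀ i < δ (n, k), z i = z' i) → φ n k z = φ n k z'

/-- uses MERGE, BLOCK, DEP -/
def SUBSTU : Prop := ∀ F, Clone F → ∀ (t : ℝ → Prop) (φ Y : Fam), ∀ ν ∈ F, ∀ α ∈ F, ∀ β ∈ F,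
  UF F t φ → UF F t Y →
  UF F t fun n k z => φ (ν (n, k)) (α (n, k)) fun i => Y n (β (n, Nat.pair k i)) z

open Classical in
structure Ops (F : Set (ℕ × ℕ → ℕ)) (t : ℝ → Prop) : Prop where
  cst : ∀ κ : List ℝ, UF F t fun _ k _ => κ.getD k 0
  const : ∀ c : ℝ, UF F t fun _ _ _ => c
  var : ∀ {α}, α ∈ F → UF F t fun n k z => z (α (n, k))
  repar : ∀ {φ : Fam} {ν α}, UF F t φ → ν ∈ F → α ∈ F →
    UF F t fun n k z => φ (ν (n, k)) (α (n, k)) z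
  subst : ∀ {φ Y : Fam} {ν α β}, UF F t φ → UF F t Y → ν ∈ F → α ∈ F → β ∈ F →
    UF F t fun n k z => φ (ν (n, k)) (α (n, k)) fun i => Y n (β (n, Nat.pair k i)) z
  add : ∀ {φ ψ : Fam}, UF F t φ → UF F t ψ → UF F t fun n k z => φ n k z + ψ n k z
  sub : ∀ {φ ψ : Fam}, UF F t φ → UF F t ψ → UF F t fun n k z => φ n k z - ψ n k z
  mul : ∀ {φ ψ : Fam}, UF F t φ → UF F t ψ → UF F t fun n k z => φ n k z * ψ n k z
  div : ∀ {φ ψ : Fam}, UF F t φ → UF F t ψ → UF F t fun n k z => φ n k z / ψ n k z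
  sel : ∀ {φ ψ χ : Fam}, UF F t φ → UF F t ψ → UF F t χ →
    UF F t fun n k z => if t (φ n k z) then ψ n k z else χ n k z
  ite : ∀ {φ ψ : Fam} {μ}, μ ∈ F → UF F t φ → UF F t ψ →
    UF F t fun n k z => if μ (n, k) = 0 then φ n k z else ψ n k z
  ite_lt : ∀ {φ ψ : Fam} {μ ν}, μ ∈ F → ν ∈ F → UF F t φ → UF F t ψ →
    UF F t fun n k z => if μ (n, k) < ν (n, k) then φ n k z else ψ n k z
  ite_eq : ∀ {φ ψ : Fam} {μ ν}, μ ∈ F → ν ∈ F → UF F t φ → UF F t ψ →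
    UF F t fun n k z => if μ (n, k) = ν (n, k) then φ n k z else ψ n k z

structure Kit (F : Set (ℕ × ℕ → ℕ)) (t : ℝ → Prop) : Prop extends Ops F t where
  iter : ∀ {φ χ : Fam}, UF F t φ → (∀ n k z, χ n k z = φ n k fun i =>
    if i % 2 = 0 then z (i / 2) else if i / 2 < k then χ n (i / 2) z else 0) → UF F t χ
  sum : ∀ {φ : Fam} {ρ}, ρ ∈ F → UF F t φ →
    UF F t fun n k z => ∑ i ∈ Finset.range (ρ (n, k)), φ n (Nat.pair k i) z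
  nat : ∀ {α}, α ∈ F → UF F t fun n k _ => (α (n, k) : ℝ)
  poly : ∀ {A B : Fam} {r} {f : List ℝ → List ℝ}, r ∈ F → UF F t A → UF F t B →
    (∀ x : List ℝ, f x = outF t A B (r (x.length, 0)) x.length fun i => x.getD i 0) → Poly F t f

/-- uses BASIC, MERGE, BLOCK, SUBSTU -/
def OPS : Prop := ∀ F, Clone F → ∀ t : ℝ → Prop, Ops F t

/-- uses BLOCK, OPS -/
def KIT : Prop := ∀ F, Clone F → ∀ t : ℝ → Prop, Kit F t

/-! ### local fractions -/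

def JETU : Prop := ∀ F, Clone F → Kit F (fun a => a ≠ 0) → ∀ (K0 : Subfield ℝ) (κ : ℕ → K0)
  (κl : List ℝ), (∀ i, (κ i : ℝ) = κl.getD i 0) → ∀ o ∈ F, ∀ a ∈ F, ∀ b ∈ F, ∀ c ∈ F,
  (UF F (fun a => a ≠ 0) fun N g z => aeval (rs N z) (pg K0 κ o a b c N (rs N z) g).1) ∧
  (UF F (fun a => a ≠ 0) fun N g z => aeval (rs N z) (pg K0 κ o a b c N (rs N z) g).2) ∧
  (UF F (fun a => a ≠ 0) fun N k z =>
    dv' (rs N z) (Nat.unpair k).2 (pg K0 κ o a b c N (rs N z) (Nat.unpair k).1).1) ∧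
  UF F (fun a => a ≠ 0) fun N k z =>
    dv' (rs N z) (Nat.unpair k).2 (pg K0 κ o a b c N (rs N z) (Nat.unpair k).1).2

def LOCG : Prop := ∀ (K0 : Subfield ℝ) (κ : ℕ → K0) (κl : List ℝ),
  (∀ i, (κ i : ℝ) = κl.getD i 0) → ∀ (o a b c : ℕ × ℕ → ℕ) (N g : ℕ),
  (∀ y : Fin N → ℝ, (pg K0 κ o a b c N y g).1.totalDegree ≤ 2 ^ g ∧
    (pg K0 κ o a b c N y g).2.totalDegree ≤ 2 ^ g ∧ aeval y (pg K0 κ o a b c N y g).2 ≠ 0 ∧
    gate (fun a => a ≠ 0) κl o a b c N (ex y) g =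
      aeval y (pg K0 κ o a b c N y g).1 / aeval y (pg K0 κ o a b c N y g).2) ∧
  ∀ (d : ℕ) (y : Fin N → ℝ) (Fl : Filter (Fin N → ℝ)), 2 ^ g ≤ d → Adm K0 d y Fl →
    ∀ᶠ y' in Fl, pg K0 κ o a b c N y' g = pg K0 κ o a b c N y g

/-- uses JETU, LOCG; rows `2 k` (test bit of pair `k`) and `2 k + 1` (its value or 0) -/
def WB : Prop := ∀ F, Clone F → Kit F (fun a => a ≠ 0) → ∀ f : List ℝ → List ℝ,
  Poly F (fun a => a ≠ 0) f → ∃ S : Finset ℝ, ∀ K0 : Subfield ℝ, (S : Set ℝ) ⊆ (K0 : Set ℝ) →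
  ∃ c : ℕ, ∃ m ∈ F, ∃ (G : ∀ N, Fin (m (N, 0)) → (Fin N → ℝ) → ℝ)
    (P Q : ∀ N, (Fin N → ℝ) → Fin (m (N, 0)) → MvPolynomial (Fin N) K0) (J : Fam),
    UF F (fun a => a ≠ 0) J ∧ ∀ N, m (N, 0) ≤ (N + 2) ^ c ∧
      IsLoc K0 (2 ^ (N + 2) ^ c) (G N) (P N) (Q N) ∧
      (∀ y y', (∀ a, G N a y = G N a y') → f (List.ofFn y) = f (List.ofFn y')) ∧
      (∀ y a, G N a y ∈ f (List.ofFn y) ∨ G N a y = 0 ∨ G N a y = 1) ∧
      (∀ y, ∀ v ∈ f (List.ofFn y), ∃ a, G N a y = v) ∧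
      ∀ z (a : Fin (m (N, 0))) (i : Fin N), J N (Nat.pair a i) z =
        aeval (rs N z) (jac id (P N (rs N z)) (Q N (rs N z)) a i)

/-! ### the other circuits -/

def SQU : Prop := ∀ F, Clone F → ∀ t, Kit F t → ∀ c : ℝ, UF F t fun _ k _ => c ^ 2 ^ k

/-- uses SQU -/
def AFFU : Prop := ∀ F, Clone F → ∀ t, Kit F t → ∀ c : ℝ, ∀ M ∈ F, ∀ m ∈ F, ∀ σ ∈ F,
  UF F t fun n k z => ex (gP (th c (σ (n, 0)) (Nat.unpair k).1 :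
    Par n (M (n, 0)) (m (n, 0)) → ℝ) (rs n z)) (Nat.unpair k).2

/-- uses FL -/
def DETU : Prop := ∀ F, Clone F → ∀ t, Kit F t → ∀ r ∈ F, ∀ A : Fam, UF F t A →
  UF F t fun n _ z => (Matrix.of fun c i : Fin (r (n, 0)) => A n (Nat.pair c i) z).det

/-- uses DETU, SQU -/
def DELTA : Prop := ∀ F, Clone F → ∀ t, Kit F t → ∀ c : ℝ, ∀ N ∈ F, ∀ M ∈ F, ∀ m ∈ F, ∀ σ ∈ F,
  ∀ Y J : Fam, UF F t Y → UF F t J →
  UF F t fun n j z => (Matrix.of fun u i : Fin (M (n, 0)) => ∑ a : Fin (m (n, 0)),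
    c ^ 2 ^ (σ (n, 0) * Nat.pair j (Nat.pair 3 (Nat.pair u a))) *
      J (N (n, 0)) (Nat.pair a i) fun l => Y n (Nat.pair j l) z).det

def SELU : Prop := ∀ F, Clone F → Kit F (fun a => a ≠ 0) → ∀ k ∈ F, ∀ δ Y : Fam,
  UF F (fun a => a ≠ 0) δ → UF F (fun a => a ≠ 0) Y → ∃ W : Fam, UF F (fun a => a ≠ 0) W ∧
    ∀ n z, (∃ j < k (n, 0), δ n j z ≠ 0) →
      ∃ j < k (n, 0), δ n j z ≠ 0 ∧ ∀ i, W n i z = Y n (Nat.pair j i) z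

def SREDU : Prop := ∀ F, Clone F → Kit F (fun a => 0 < a) → ∀ (L : Set (List ℝ))
  (xy xn : List ℝ), xy ∈ L → xn ∉ L →
  ∃ g, Poly F (fun a => 0 < a) g ∧ ∀ y, y ∈ SL L ↔ g y ∈ L

/-! ### parameters and arithmetic -/

/-- uses GEN1 -/
def KRONU : Prop := ∀ (K0 : Subfield ℝ) (c : ℝ), Transcendental K0 c → ∀ n M m σ B : ℕ,
  B < 2 ^ σ → Gen K0 B fun v : Fin (n + 1) × Par n M m => th c σ v.1 v.2

/-- uses NUM2 -/
def NUMU : Prop := ∀ c : ℕ, ∃ c2 : ℕ, ∀ n M m : ℕ, M = (3 * n + 3) ^ 2 - 1 →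
  m ≤ (M + (n + 1) + 2) ^ c →
  eb (2 * (M * (2 * 2 ^ (M + (n + 1) + 2) ^ c + 1)))
    (Fintype.card (Fin (n + 1) × Par n M m) + M) < 2 ^ (n + 2) ^ c2

def NUMV : Prop := ∀ n : ℕ, (Nat.unpair ((3 * n + 3) ^ 2 - 1 + (n + 1))).1 = n ∧
  2 * n < (3 * n + 3) ^ 2 - 1 ∧
  ∀ n' < n, n + ((3 * n' + 3) ^ 2 - 1 + (n' + 1)) < (3 * n + 3) ^ 2 - 1

def MAINU : Prop := ∀ F, Clone F → Kit F (fun a => a ≠ 0) →
  ∀ (L B : Set (List ℝ)) (f : List ℝ → List ℝ), Poly F (fun a => a ≠ 0) f →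
  (∀ y, y ∈ SL L ↔ f y ∈ B) →
  ∃ h, Poly F (fun a => a ≠ 0) h ∧ Function.Injective h ∧ (∀ x, x.length < (h x).length) ∧
    ∀ x, x ∈ L ↔ h x ∈ B

end Pool.Agent.MP_8a92de_lc.U43
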