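import Pool.Agent.MP_8a92de_lc.U43.A
import Pool.Agent.MP_8a92de_lc.U43.B
import Pool.Agent.MP_8a92de_lc.E43.A
import Pool.Agent.MP_8a92de_lc.E43.B
import Pool.Agent.MP_8a92de_lc.E43.C

namespace Pool.Agent.MP_8a92de_lc.U43

open Pool.Agent.MP_8a92de_lc.E43

theorem kit_all : KIT := kit block (ops basic merge block (substu merge block dep))

theorem main_all : MAINU :=
  mainu (wb jetu locg) (affu squ) (delta (detu fl) squ) selu (kronu gen1) (numu num2) numv ptl
    trans (compl der (elim perron low ker)) (outer (coll (elim perron low ker)))
    (same (coll (elim perron low ker)))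
    (good ptl (adm nz sq) (minor nz sq) ker
      (orth lamx cst perp intx basis (deep asym matchx) thom valx))

end Pool.Agent.MP_8a92de_lc.U43
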